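import Mathlib

set_option autoImplicit false

namespace Pool.Agent.Helper55.RE

open Finset Function

open scoped Classical

lemma cf {T : Type*} (s : Finset T) (p q : T → Prop) {hp : DecidablePred p}
    {hq : DecidablePred q}
    (h : ∀ x ∈ s, (p x ↔ q x)) : (s.filter p).card = (s.filter q).card := by
  congr 1
  ext x
  simp only [mem_filter]
  constructor
  · rintro ⟨h1, h2⟩; exact ⟨h1, (h x h1).mp h2⟩
  · rintro ⟨h1, h2⟩; exact ⟨h1, (h x h1).mpr h2⟩

/-- Greedy choice of `k` pairwise unrelated elements. -/
lemma greedy {Ω : Type*} (s : Finset Ω) (rel : Ω → Ω → Prop) (hsymm : ∀ a b, rel a b → rel b a)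
    (D : ℕ) (hD : ∀ a ∈ s, (s.filter (rel a)).card ≤ D) (k : ℕ) (hk : k * D < s.card) :
    ∃ f : Fin k → Ω, (∀ i, f i ∈ s) ∧ ∀ i j, i ≠ j → ¬ rel (f i) (f j) := by
  induction k with
  | zero => exact ⟨fun i => i.elim0, fun i => i.elim0, fun i => i.elim0⟩
  | succ k ih =>
    have hk' : k * D < s.card := by
      refine lt_of_le_of_lt ?_ hk
      exact Nat.mul_le_mul_right _ (Nat.le_succ k)
    obtain ⟨f, hf, hrel⟩ := ih hk'
    have : ∃ b ∈ s, ∀ i, ¬ rel (f i) b := by
      by_contra hcon
      push Not at hcon
      have hsub : s ⊆ (univ : Finset (Fin k)).biUnion (fun i => s.filter (rel (f i))) := by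
        intro b hb
        obtain ⟨i, hi⟩ := hcon b hb
        simp only [mem_biUnion, mem_univ, true_and, mem_filter]
        exact ⟨i, hb, hi⟩
      have h1 := card_le_card hsub
      have h2 : ((univ : Finset (Fin k)).biUnion (fun i => s.filter (rel (f i)))).card ≤ k * D := by
        refine card_biUnion_le.trans ?_
        calc ∑ i : Fin k, (s.filter (rel (f i))).card ≤ ∑ _i : Fin k, D :=
              sum_le_sum fun i _ => hD _ (hf i)
          _ = k * D := by simp
      omega
    obtain ⟨b, hb, hb'⟩ := this
    refine ⟨Fin.snoc f b, ?_, ?_⟩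
    · intro i
      refine Fin.lastCases ?_ (fun i => ?_) i
      · simpa using hb
      · simpa using hf i
    · intro i j
      refine Fin.lastCases ?_ (fun i => ?_) i
      · refine Fin.lastCases ?_ (fun j => ?_) j
        · intro h; exact absurd rfl h
        · intro _
          simp only [Fin.snoc_last, Fin.snoc_castSucc]
          intro h
          exact hb' j (hsymm _ _ h)
      · refine Fin.lastCases ?_ (fun j => ?_) j
        · intro _
          simp only [Fin.snoc_last, Fin.snoc_castSucc]
          exact hb' i
        · intro h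
          simp only [Fin.snoc_castSucc]
          refine hrel i j ?_
          intro h'
          exact h (by rw [h'])

/-- Turan type bound: if there are no `p` pairwise unrelated elements then many pairs are
related. -/
lemma related_many {Ω : Type*} (s : Finset Ω) (rel : Ω → Ω → Prop)
    (hsymm : ∀ a b, rel a b → rel b a) (p : ℕ) (hp : 1 ≤ p)
    (hno : ¬ ∃ f : Fin p → Ω, (∀ i, f i ∈ s) ∧ ∀ i j, i ≠ j → ¬ rel (f i) (f j)) :
    s.card ^ 2 ≤ 4 * p * ((s ×ˢ s).filter (fun q => rel q.1 q.2)).card := by
  by_contra hcon
  push Not at hcon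
  apply hno
  set n := s.card with hn
  set e := ((s ×ˢ s).filter (fun q => rel q.1 q.2)).card with he
  have hesum : e = ∑ a ∈ s, (s.filter (rel a)).card := by
    rw [he, card_filter, sum_product]
    refine sum_congr rfl fun a _ => ?_
    rw [card_filter]
  -- good elements
  set s' := s.filter (fun a => 2 * p * (s.filter (rel a)).card < n) with hs'
  have h1 : (s.filter (fun a => ¬ (2 * p * (s.filter (rel a)).card < n))).card * n ≤ 2 * p * e := by
    rw [hesum, mul_sum]
    calc (s.filter (fun a => ¬ (2 * p * (s.filter (rel a)).card < n))).card * n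
        = ∑ a ∈ s.filter (fun a => ¬ (2 * p * (s.filter (rel a)).card < n)), n := by simp
      _ ≤ ∑ a ∈ s.filter (fun a => ¬ (2 * p * (s.filter (rel a)).card < n)),
            2 * p * (s.filter (rel a)).card := by
          refine sum_le_sum fun a ha => ?_
          simp only [mem_filter] at ha
          omega
      _ ≤ ∑ a ∈ s, 2 * p * (s.filter (rel a)).card :=
          sum_le_sum_of_subset (filter_subset _ _)
  have h2 : s'.card + (s.filter (fun a => ¬ (2 * p * (s.filter (rel a)).card < n))).card = n := by
    rw [hs', hn]; exact card_filter_add_card_filter_not _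
  set q := (s.filter (fun a => ¬ (2 * p * (s.filter (rel a)).card < n))).card with hq
  have hnpos : 0 < n := by
    rcases Nat.eq_zero_or_pos n with h | h
    · rw [h] at hcon; simp at hcon
    · exact h
  have h3 : 2 * q < n := by
    have : q * n * 2 < n * n := by nlinarith
    have : (2 * q) * n < n * n := by nlinarith
    exact lt_of_mul_lt_mul_right this (Nat.zero_le _)
  -- degree bound in s'
  obtain ⟨f, hf, hf'⟩ := greedy s' rel hsymm ((n - 1) / (2 * p)) (by
      intro a ha
      rw [hs', mem_filter] at ha
      have hle : (s'.filter (rel a)).card ≤ (s.filter (rel a)).card :=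
        card_le_card (filter_subset_filter _ (filter_subset _ _))
      refine hle.trans ?_
      rw [Nat.le_div_iff_mul_le (by positivity)]
      have := ha.2
      nlinarith [Nat.sub_add_cancel hnpos, this]) p (by
      have h4 : p * ((n - 1) / (2 * p)) * 2 ≤ n - 1 := by
        have := Nat.div_mul_le_self (n - 1) (2 * p)
        nlinarith
      omega)
  refine ⟨f, fun i => (mem_filter.mp (hf i)).1, hf'⟩

/-- Counting functions with a constraint linking two coordinates. -/
lemma pair_count {T : Type*} {k : ℕ} (P : Finset T) (bad : T → T → Prop) (D : ℕ)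
    (hD : ∀ a ∈ P, (P.filter (bad a)).card ≤ D) (i j : Fin k) (hij : i ≠ j) :
    ((Fintype.piFinset (fun _ : Fin k => P)).filter (fun f => bad (f i) (f j))).card
      ≤ D * P.card ^ (k - 1) := by
  set S := (Fintype.piFinset (fun _ : Fin k => P)).filter (fun f => bad (f i) (f j)) with hS
  let F : (Fin k → T) → ({l : Fin k // l ≠ j} → T) := fun f l => f l
  have h1 := Finset.card_le_mul_card_image (f := F) S D (by
    intro a ha
    rw [mem_image] at ha
    obtain ⟨f0, hf0, rfl⟩ := ha
    have hf0' := (mem_filter.mp hf0)
    refine le_trans ?_ (hD (f0 i) ((Fintype.mem_piFinset.mp hf0'.1) i))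
    apply card_le_card_of_injOn (fun f => f j)
    · intro f hf
      rw [mem_coe, mem_filter] at hf
      rw [mem_coe, mem_filter]
      have h2 := (mem_filter.mp hf.1)
      refine ⟨(Fintype.mem_piFinset.mp h2.1) j, ?_⟩
      have h3 : f i = f0 i := congrFun hf.2 ⟨i, hij⟩
      rw [← h3]; exact h2.2
    · intro f hf g hg hfg
      rw [mem_coe, mem_filter] at hf hg
      funext l
      by_cases hl : l = j
      · rw [hl]; exact hfg
      · have h3 : f l = f0 l := congrFun hf.2 ⟨l, hl⟩
        have h4 : g l = f0 l := congrFun hg.2 ⟨l, hl⟩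
        rw [h3, h4])
  refine h1.trans (Nat.mul_le_mul_left _ ?_)
  calc (S.image F).card ≤ (Fintype.piFinset (fun _ : {l : Fin k // l ≠ j} => P)).card := by
        apply card_le_card
        intro a ha
        rw [mem_image] at ha
        obtain ⟨f0, hf0, rfl⟩ := ha
        rw [Fintype.mem_piFinset]
        intro l
        exact (Fintype.mem_piFinset.mp (mem_filter.mp hf0).1) l
    _ = P.card ^ (k - 1) := by
        rw [Fintype.card_piFinset]
        simp

/-- Counting functions with a constraint on one coordinate. -/
lemma single_count {T : Type*} {k : ℕ} (P : Finset T) (bad : T → Prop) (D : ℕ)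
    (hD : (P.filter bad).card ≤ D) (j : Fin k) :
    ((Fintype.piFinset (fun _ : Fin k => P)).filter (fun f => bad (f j))).card
      ≤ D * P.card ^ (k - 1) := by
  set S := (Fintype.piFinset (fun _ : Fin k => P)).filter (fun f => bad (f j)) with hS
  let F : (Fin k → T) → ({l : Fin k // l ≠ j} → T) := fun f l => f l
  have h1 := Finset.card_le_mul_card_image (f := F) S D (by
    intro a ha
    rw [mem_image] at ha
    obtain ⟨f0, hf0, rfl⟩ := ha
    have hf0' := (mem_filter.mp hf0)
    refine le_trans ?_ hD
    apply card_le_card_of_injOn (fun f => f j)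
    · intro f hf
      rw [mem_coe, mem_filter] at hf
      rw [mem_coe, mem_filter]
      have h2 := (mem_filter.mp hf.1)
      exact ⟨(Fintype.mem_piFinset.mp h2.1) j, h2.2⟩
    · intro f hf g hg hfg
      rw [mem_coe, mem_filter] at hf hg
      funext l
      by_cases hl : l = j
      · rw [hl]; exact hfg
      · have h3 : f l = f0 l := congrFun hf.2 ⟨l, hl⟩
        have h4 : g l = f0 l := congrFun hg.2 ⟨l, hl⟩
        rw [h3, h4])
  refine h1.trans (Nat.mul_le_mul_left _ ?_)
  calc (S.image F).card ≤ (Fintype.piFinset (fun _ : {l : Fin k // l ≠ j} => P)).card := by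
        apply card_le_card
        intro a ha
        rw [mem_image] at ha
        obtain ⟨f0, hf0, rfl⟩ := ha
        rw [Fintype.mem_piFinset]
        intro l
        exact (Fintype.mem_piFinset.mp (mem_filter.mp hf0).1) l
    _ = P.card ^ (k - 1) := by
        rw [Fintype.card_piFinset]
        simp

/-- The selection lemma. -/
lemma selection {Ω α : Type*} {t : ℕ} (X : Finset α) (Om : Finset Ω) (R : Ω → Fin t → α)
    (bad : Ω → α → Prop) (k p : ℕ) (hk : 1 ≤ k)
    (hX : 2 * (p + k * t) ≤ X.card) (hOm : Om.Nonempty)
    (hbad : 4 * k * ((Om ×ˢ X).filter (fun q => bad q.1 q.2)).card ≤ Om.card * X.card)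
    (C : ℕ) (hconc : ∀ v, (Om.filter (fun ω => ∃ l, R ω l = v)).card ≤ C)
    (hC : 2 * k * t * C < Om.card) :
    ∃ ω : Fin k → Ω, (∀ i, ω i ∈ Om) ∧ (∀ i j, i ≠ j → ∀ l l', R (ω i) l ≠ R (ω j) l') ∧
      ∃ x : Fin p → α, Injective x ∧ (∀ j, x j ∈ X) ∧ (∀ j i l, x j ≠ R (ω i) l) ∧
        ∀ i j, ¬ bad (ω i) (x j) := by
  have hOm0 : 0 < Om.card := hOm.card_pos
  set e := ((Om ×ˢ X).filter (fun q => bad q.1 q.2)).card with he
  have hesum : e = ∑ ω ∈ Om, (X.filter (bad ω)).card := by
    rw [he, card_filter, sum_product]
    refine sum_congr rfl fun a _ => ?_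
    rw [card_filter]
  set Om' := Om.filter (fun ω => 2 * k * (X.filter (bad ω)).card ≤ X.card) with hOm'
  set q := (Om.filter (fun ω => ¬ (2 * k * (X.filter (bad ω)).card ≤ X.card))).card with hq
  have hsum : Om'.card + q = Om.card := by
    rw [hOm', hq]; exact card_filter_add_card_filter_not _
  have hXpos : 0 < X.card ∨ X.card = 0 := by omega
  have hhalf : 2 * q ≤ Om.card := by
    rcases hXpos with hXpos | hX0
    · have h1 : q * X.card ≤ 2 * k * e := by
        rw [hesum, mul_sum]
        calc q * X.card
            = ∑ ω ∈ Om.filter (fun ω => ¬ (2 * k * (X.filter (bad ω)).card ≤ X.card)),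
                X.card := by simp [hq]
          _ ≤ ∑ ω ∈ Om.filter (fun ω => ¬ (2 * k * (X.filter (bad ω)).card ≤ X.card)),
                2 * k * (X.filter (bad ω)).card := by
              refine sum_le_sum fun a ha => ?_
              simp only [mem_filter] at ha
              omega
          _ ≤ ∑ ω ∈ Om, 2 * k * (X.filter (bad ω)).card :=
              sum_le_sum_of_subset (filter_subset _ _)
      have h2 : (2 * q) * X.card ≤ Om.card * X.card := by nlinarith
      exact le_of_mul_le_mul_right h2 hXpos
    · have : q = 0 := by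
        rw [hq, card_eq_zero, filter_eq_empty_iff]
        intro ω _
        have : (X.filter (bad ω)).card ≤ X.card := card_le_card (filter_subset _ _)
        have h0 : (X.filter (bad ω)).card = 0 := by omega
        rw [h0]; simp
      omega
  obtain ⟨ω, hω, hωrel⟩ := greedy Om' (fun a b => ∃ l l', R a l = R b l')
    (by rintro a b ⟨l, l', h⟩; exact ⟨l', l, h.symm⟩) (t * C) (by
      intro a _
      have hsub : Om'.filter (fun b => ∃ l l', R a l = R b l') ⊆
          (univ : Finset (Fin t)).biUnion (fun l => Om.filter (fun ω => ∃ l', R ω l' = R a l)) := by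
        intro b hb
        rw [mem_filter] at hb
        obtain ⟨hb1, l, l', h⟩ := hb
        simp only [mem_biUnion, mem_univ, true_and, mem_filter]
        exact ⟨l, (mem_filter.mp hb1).1, l', h.symm⟩
      have hh : (Om'.filter (fun b => ∃ l l', R a l = R b l')).card ≤ t * C := by
        refine (card_le_card hsub).trans (card_biUnion_le.trans ?_)
        calc ∑ l : Fin t, (Om.filter (fun ω => ∃ l', R ω l' = R a l)).card ≤ ∑ _l : Fin t, C :=
              sum_le_sum fun l _ => hconc _
          _ = t * C := by simp
      convert hh) k (by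
      have : 2 * (k * (t * C)) < Om.card := by
        calc 2 * (k * (t * C)) = 2 * k * t * C := by ring
          _ < Om.card := hC
      omega)
  refine ⟨ω, fun i => (mem_filter.mp (hω i)).1, ?_, ?_⟩
  · intro i j hij l l' h
    exact hωrel i j hij ⟨l, l', h⟩
  · set X' := X.filter (fun x => (∀ i, ¬ bad (ω i) x) ∧ ∀ i l, x ≠ R (ω i) l) with hX'
    have hcover : X ⊆ X' ∪ (univ : Finset (Fin k)).biUnion (fun i => X.filter (bad (ω i))) ∪
        (univ : Finset (Fin k × Fin t)).image (fun il => R (ω il.1) il.2) := by
      intro x hx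
      by_cases h1 : ∀ i, ¬ bad (ω i) x
      · by_cases h2 : ∀ i l, x ≠ R (ω i) l
        · simp [hX', hx, h1, h2]
        · push Not at h2
          obtain ⟨i, l, h⟩ := h2
          simp only [mem_union, mem_image, mem_univ, true_and, Prod.exists]
          right; exact ⟨i, l, h.symm⟩
      · push Not at h1
        obtain ⟨i, h⟩ := h1
        simp only [mem_union, mem_biUnion, mem_univ, true_and, mem_filter]
        left; right; exact ⟨i, hx, h⟩
    have hc1 : ((univ : Finset (Fin k)).biUnion (fun i => X.filter (bad (ω i)))).card * 2 ≤ X.card := by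
      have h1 : ((univ : Finset (Fin k)).biUnion (fun i => X.filter (bad (ω i)))).card ≤
          ∑ i : Fin k, (X.filter (bad (ω i))).card := card_biUnion_le
      have h2 : ∑ i : Fin k, 2 * k * (X.filter (bad (ω i))).card ≤ ∑ _i : Fin k, X.card :=
        sum_le_sum fun i _ => (mem_filter.mp (hω i)).2
      rw [← mul_sum] at h2
      simp only [sum_const, card_univ, Fintype.card_fin, smul_eq_mul] at h2
      have h3 : k * (2 * ∑ i : Fin k, (X.filter (bad (ω i))).card) ≤ k * X.card := by
        calc k * (2 * ∑ i : Fin k, (X.filter (bad (ω i))).card)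
            = 2 * k * ∑ i : Fin k, (X.filter (bad (ω i))).card := by ring
          _ ≤ _ := h2
      have h4 := le_of_mul_le_mul_left h3 (by omega)
      omega
    have hc2 : ((univ : Finset (Fin k × Fin t)).image (fun il => R (ω il.1) il.2)).card ≤ k * t := by
      refine card_image_le.trans ?_
      simp
    have hc3 := card_le_card hcover
    have hc4 : (X' ∪ (univ : Finset (Fin k)).biUnion (fun i => X.filter (bad (ω i))) ∪
        (univ : Finset (Fin k × Fin t)).image (fun il => R (ω il.1) il.2)).card ≤
        X'.card + ((univ : Finset (Fin k)).biUnion (fun i => X.filter (bad (ω i)))).card +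
          ((univ : Finset (Fin k × Fin t)).image (fun il => R (ω il.1) il.2)).card :=
      (card_union_le _ _).trans (Nat.add_le_add_right (card_union_le _ _) _)
    have hX'card : p ≤ X'.card := by omega
    obtain ⟨x⟩ : Nonempty (Fin p ↪ X') := by
      apply Function.Embedding.nonempty_of_card_le
      simpa using hX'card
    refine ⟨fun j => (x j : α), ?_, ?_, ?_, ?_⟩
    · intro a b hab
      exact x.injective (Subtype.ext hab)
    · intro j; exact (mem_filter.mp (x j).2).1
    · intro j i l; exact (mem_filter.mp (x j).2).2.2 i l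
    · intro i j; exact (mem_filter.mp (x j).2).2.1 i

/-- Distinct representatives for large sets. -/
lemma sdr {ι β : Type*} [Fintype ι] (S : ι → Finset β) (h : ∀ i, Fintype.card ι ≤ (S i).card) :
    ∃ f : ι → β, Injective f ∧ ∀ i, f i ∈ S i := by
  rw [← Finset.all_card_le_biUnion_card_iff_exists_injective]
  intro s
  rcases s.eq_empty_or_nonempty with rfl | ⟨i, hi⟩
  · simp
  · calc s.card ≤ Fintype.card ι := card_le_univ s
      _ ≤ (S i).card := h i
      _ ≤ (s.biUnion S).card := card_le_card (subset_biUnion_of_mem S hi)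

end Pool.Agent.Helper55.RE
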