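import Pool.Agent.Helper55.RE.RegRel

set_option autoImplicit false
set_option linter.unusedSectionVars false

namespace Pool.Agent.Helper55.RE

open Finset Function

open scoped Classical

/-- a bipartite pattern is contained in a relation, respecting the sides -/
def Contains {P Q α β : Type*} (Γ : P → Q → Prop) (E : α → β → Prop) : Prop :=
  ∃ (f : P → α) (g : Q → β), Injective f ∧ Injective g ∧ ∀ p q, Γ p q → E (f p) (g q)

/-- Upper bound of order `N ^ (2 - a / b)` for a bipartite pattern. -/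
def Bound {P Q : Type} (Γ : P → Q → Prop) (a b : ℕ) : Prop :=
  ∃ C : ℝ, ∀ (α β : Type) [Fintype α] [Fintype β] (E : α → β → Prop) (N : ℝ),
    (Fintype.card α : ℝ) + Fintype.card β ≤ N → 0 < eR E →
    C * N ^ (2 * b - a) ≤ (eR E : ℝ) ^ b → Contains Γ E

lemma Contains.of_res {P Q α β : Type*} {Γ : P → Q → Prop} {E : α → β → Prop} {A : Finset α}
    {B : Finset β} (h : Contains Γ (res E A B)) : Contains Γ E := by
  obtain ⟨f, g, hf, hg, hfg⟩ := h
  exact ⟨fun p => f p, fun q => g q, Subtype.val_injective.comp hf, Subtype.val_injective.comp hg,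
    hfg⟩

/-- the star pattern -/
def SP (k t p : ℕ) : (Fin p ⊕ (Fin k × Fin t)) → (Fin k × Fin p) → Prop
  | Sum.inl j, q => j = q.2
  | Sum.inr r, q => r.1 = q.1

lemma contains_SP {k t p : ℕ} {α β : Type*} [Fintype α] [Fintype β] {E : α → β → Prop}
    (h : HasH E k t p) : Contains (SP k t p) E := by
  obtain ⟨x, r, y, hx, hr, hy, hxr, h1, h2⟩ := h
  refine ⟨Sum.elim x (fun q => r q.1 q.2), fun q => y q.1 q.2, ?_, ?_, ?_⟩
  · rintro (a | a) (b | b) hab
    · exact congrArg _ (hx hab)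
    · exact absurd hab (hxr _ _ _)
    · exact absurd hab.symm (hxr _ _ _)
    · have := hr _ _ _ _ hab
      exact congrArg _ (Prod.ext this.1 this.2)
  · intro a b hab
    have := hy _ _ _ _ hab
    exact Prod.ext this.1 this.2
  · rintro (a | a) q hq
    · have : a = q.2 := hq
      subst this
      exact h1 _ _
    · have h3 : a.1 = q.1 := hq
      change E (r a.1 a.2) (y q.1 q.2)
      rw [← h3]
      exact h2 a.1 q.2 a.2

/-- extracting the consequences of regularisation -/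
lemma reg_use {α β : Type} [Fintype α] [Fintype β] (E : α → β → Prop) (b c : ℕ) (hb : 1 ≤ b)
    (hc : 1 ≤ c) (hpos : 0 < eR E) (N C1 : ℝ)
    (hN : (Fintype.card α : ℝ) + Fintype.card β ≤ N)
    (he : (16 ^ b * C1) * N ^ (b + c) ≤ (eR E : ℝ) ^ b) :
    ∃ (A : Finset α) (B : Finset β) (m d : ℝ), 1 ≤ m ∧ 0 < d ∧
      (Fintype.card {x // x ∈ A} : ℝ) ≤ m ∧ (Fintype.card {y // y ∈ B} : ℝ) ≤ m ∧
      (∀ y, d ≤ ((NA (res E A B) y).card : ℝ)) ∧
      (∀ y, ((NA (res E A B) y).card : ℝ) ≤ KK b c * d) ∧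
      (∀ x, ((NB (res E A B) x).card : ℝ) ≤ KK b c * d) ∧
      m * d ≤ ∑ y, ((NA (res E A B) y).card : ℝ) ∧
      C1 * m ^ c ≤ d ^ b := by
  obtain ⟨A, B, m, d, hm, hd, h1, h2, h3, h4, h5, h6, h7⟩ := reg_rel E b c hb hc hpos
  refine ⟨A, B, m, d, hm, hd, h1, h2, h3, h4, h5, h6, ?_⟩
  have hN0 : 0 < N := by
    rcases lt_or_ge 0 N with h | h
    · exact h
    · exfalso
      have hα : (Fintype.card α : ℝ) = 0 := by
        have : (0 : ℝ) ≤ Fintype.card α := Nat.cast_nonneg _
        have : (0 : ℝ) ≤ Fintype.card β := Nat.cast_nonneg _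
        linarith
      have hα' : Fintype.card α = 0 := by exact_mod_cast hα
      have : IsEmpty α := Fintype.card_eq_zero_iff.mp hα'
      rw [eR] at hpos
      simp at hpos
  have h8 : (16 ^ b * C1) * N ^ (b + c) * m ^ c ≤ (16 * d) ^ b * N ^ (b + c) := by
    calc (16 ^ b * C1) * N ^ (b + c) * m ^ c ≤ (eR E : ℝ) ^ b * m ^ c :=
          mul_le_mul_of_nonneg_right he (by positivity)
      _ ≤ _ := h7
      _ ≤ (16 * d) ^ b * N ^ (b + c) := by
          apply mul_le_mul_of_nonneg_left _ (by positivity)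
          exact pow_le_pow_left₀ (by positivity) hN _
  have h9 : (16 ^ b * N ^ (b + c)) * (C1 * m ^ c) ≤ (16 ^ b * N ^ (b + c)) * d ^ b := by
    calc (16 ^ b * N ^ (b + c)) * (C1 * m ^ c) = (16 ^ b * C1) * N ^ (b + c) * m ^ c := by ring
      _ ≤ (16 * d) ^ b * N ^ (b + c) := h8
      _ = _ := by rw [mul_pow]; ring
  exact le_of_mul_le_mul_left h9 (by positivity)

theorem bound_star (k t p : ℕ) (hk : 2 ≤ k) (ht : 2 ≤ t) (hp : 1 ≤ p)
    (hcond : (k - 1) * k * (t + 1) ≤ (k * t - 1) * (2 * k - 1 - t)) :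
    Bound (SP k t p) (k + 1) (k * (t + 1)) := by
  set b := k * (t + 1) with hb
  set c := k * t - 1 with hc
  have hkt : 2 * 2 ≤ k * t := Nat.mul_le_mul hk ht
  have hb1 : 1 ≤ b := Nat.mul_pos (by omega) (by omega)
  have hc1 : 1 ≤ c := by omega
  obtain ⟨C, D0, hC1, hcore⟩ := core k t p hk ht hp hcond (KK b c) (one_le_KK b c)
  refine ⟨16 ^ b * (C * (|D0| + 1) ^ b), ?_⟩
  intro α β _ _ E N hN hpos he
  have hexp : 2 * b - (k + 1) = b + c := by
    have : b = k * t + k := by rw [hb]; ring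
    omega
  rw [hexp] at he
  have hD : 1 ≤ (|D0| + 1) ^ b := one_le_pow₀ (by have := abs_nonneg D0; linarith)
  obtain ⟨A, B, m, d, hm, hd, h1, h2, h3, h4, h5, h6, h7⟩ :=
    reg_use E b c hb1 hc1 hpos N (C * (|D0| + 1) ^ b) hN he
  apply Contains.of_res (A := A) (B := B)
  apply contains_SP
  have hmc : 1 ≤ m ^ c := one_le_pow₀ hm
  refine hcore _ _ _ m d hm ?_ h1 h2 h3 h4 h5 h6 ?_
  · have h8 : (|D0| + 1) ^ b ≤ d ^ b := by
      calc (|D0| + 1) ^ b ≤ C * (|D0| + 1) ^ b := by nlinarith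
        _ ≤ C * (|D0| + 1) ^ b * m ^ c := by
            have : 0 ≤ C * (|D0| + 1) ^ b := by positivity
            nlinarith
        _ ≤ d ^ b := h7
    have h9 := le_of_pow_le_pow_left₀ (by omega) hd.le h8
    have := le_abs_self D0
    linarith
  · calc C * m ^ (k * t - 1) ≤ (C * (|D0| + 1) ^ b) * m ^ c := by
          apply mul_le_mul_of_nonneg_right _ (by positivity)
          nlinarith
      _ ≤ d ^ b := h7

/-- adding one vertex on each side joined to everything on the other side -/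
def Plus {P Q : Type} (Γ : P → Q → Prop) : P ⊕ Unit → Q ⊕ Unit → Prop
  | Sum.inl p, Sum.inl q => Γ p q
  | Sum.inl _, Sum.inr _ => True
  | Sum.inr _, _ => True

lemma cod_self {α β : Type*} [Fintype α] [Fintype β] (E : α → β → Prop) (u : α) :
    cod E u u = (NB E u).card := by rw [cod, inter_self]

lemma cod_le_insert {α β : Type*} [Fintype α] [Fintype β] (E : α → β → Prop) (x u : α) (v : β)
    (S : Finset β) (h : ∀ y, E x y → E u y → y = v ∨ y ∈ S) : cod E x u ≤ S.card + 1 := by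
  rw [cod]
  refine (card_le_card (t := insert v S) ?_).trans (card_insert_le _ _)
  intro y hy
  rw [mem_inter, mem_NB, mem_NB] at hy
  rw [mem_insert]
  exact h y hy.1 hy.2

lemma exists_edge {α β : Type} [Fintype α] [Fintype β] (E : α → β → Prop) (m d K : ℝ) (hm : 1 ≤ m)
    (hd : 0 < d) (hK : 0 < K) (hα : (Fintype.card α : ℝ) ≤ m) (hβ : (Fintype.card β : ℝ) ≤ m)
    (h3 : ∀ y, d ≤ ((NA E y).card : ℝ)) (h4 : ∀ y, ((NA E y).card : ℝ) ≤ K * d)
    (h6 : m * d ≤ ∑ y, ((NA E y).card : ℝ)) :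
    ∃ u v, E u v ∧ d ^ 3 / (K * m) ≤ ∑ x ∈ NA E v, (cod E x u : ℝ) := by
  by_contra hcon
  push Not at hcon
  -- total count
  have hcod : ∑ u : α, ∑ x : α, (cod E u x : ℝ) = ∑ v : β, ((NA E v).card : ℝ) ^ 2 := by
    have h := sum_NR E 2
    rw [← h]
    rw [← (finTwoArrowEquiv α).symm.sum_comp (fun R : Fin 2 → α => ((NR E R).card : ℝ)),
      Fintype.sum_prod_type]
    refine sum_congr rfl fun u _ => sum_congr rfl fun x _ => ?_
    rw [cod]
    congr 2
    ext y
    simp [mem_NR, Fin.forall_fin_two]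
  have hlow1 : m * d ^ 2 ≤ ∑ u : α, ∑ x : α, (cod E u x : ℝ) := by
    rw [hcod]
    calc m * d ^ 2 = (m * d) * d := by ring
      _ ≤ (∑ y, ((NA E y).card : ℝ)) * d := mul_le_mul_of_nonneg_right h6 hd.le
      _ = ∑ y, ((NA E y).card : ℝ) * d := by rw [sum_mul]
      _ ≤ _ := by
          refine sum_le_sum fun y _ => ?_
          rw [sq]
          exact mul_le_mul_of_nonneg_left (h3 y) (Nat.cast_nonneg _)
  have hlow2 : d ^ 4 ≤ ∑ u : α, ∑ x : α, (cod E u x : ℝ) ^ 2 := by
    have h7 := sq_sum_le_card_mul_sum_sq (s := (univ : Finset (α × α)))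
      (f := fun q => (cod E q.1 q.2 : ℝ))
    rw [Fintype.sum_prod_type, Fintype.sum_prod_type, card_univ, Fintype.card_prod] at h7
    simp only at h7
    push_cast at h7
    have h8 : (m * d ^ 2) ^ 2 ≤ (∑ u : α, ∑ x : α, (cod E u x : ℝ)) ^ 2 :=
      pow_le_pow_left₀ (by positivity) hlow1 2
    have h9 : 0 ≤ ∑ u : α, ∑ x : α, (cod E u x : ℝ) ^ 2 := by positivity
    have h10 : (Fintype.card α : ℝ) * Fintype.card α * (∑ u : α, ∑ x : α, (cod E u x : ℝ) ^ 2) ≤
        (m * m) * ∑ u : α, ∑ x : α, (cod E u x : ℝ) ^ 2 := by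
      gcongr
    have h11 : (m * m) * d ^ 4 ≤ (m * m) * ∑ u : α, ∑ x : α, (cod E u x : ℝ) ^ 2 := by
      calc (m * m) * d ^ 4 = (m * d ^ 2) ^ 2 := by ring
        _ ≤ _ := h8
        _ ≤ _ := h7
        _ ≤ _ := h10
    exact le_of_mul_le_mul_left h11 (by positivity)
  have hswap : ∑ u : α, ∑ x : α, (cod E u x : ℝ) ^ 2 =
      ∑ u : α, ∑ v ∈ NB E u, ∑ x ∈ NA E v, (cod E x u : ℝ) := by
    refine sum_congr rfl fun u _ => ?_
    have h12 : ∀ x : α, (cod E u x : ℝ) ^ 2 =
        ∑ v ∈ NB E u, if E x v then (cod E x u : ℝ) else 0 := by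
      intro x
      have h13 : (cod E u x : ℝ) = ∑ v ∈ NB E u, if E x v then (1 : ℝ) else 0 := by
        rw [cod]
        have : NB E u ∩ NB E x = (NB E u).filter (fun v => E x v) := by
          ext v; simp [mem_inter, mem_filter]
        rw [this, card_filter]; push_cast; rfl
      have h14 : (cod E x u : ℝ) = (cod E u x : ℝ) := by
        rw [cod, cod, inter_comm]
      rw [h14, sq]
      conv_lhs => rw [h13]
      rw [sum_mul]
      conv_lhs => rw [← h13]
      refine sum_congr rfl fun v _ => ?_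
      split_ifs <;> simp
    simp only [h12]
    rw [sum_comm]
    refine sum_congr rfl fun v _ => ?_
    rw [← sum_filter]
    rfl
  have hedges : ∑ u : α, ((NB E u).card : ℝ) ≤ m * (K * d) := by
    have h15 : ∑ u : α, ((NB E u).card : ℝ) = ∑ v : β, ((NA E v).card : ℝ) := by
      have := eR_eq E
      rw [eR] at this
      exact_mod_cast this
    rw [h15]
    calc ∑ v : β, ((NA E v).card : ℝ) ≤ ∑ _v : β, K * d := sum_le_sum fun v _ => h4 v
      _ = (Fintype.card β : ℝ) * (K * d) := by simp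
      _ ≤ _ := mul_le_mul_of_nonneg_right hβ (by positivity)
  have hne : ∃ u v, E u v := by
    by_contra hno
    push Not at hno
    have : ∀ y, ((NA E y).card : ℝ) = 0 := by
      intro y
      have : NA E y = ∅ := by
        ext x; simp [hno x y]
      rw [this]; simp
    have h16 : ∑ y, ((NA E y).card : ℝ) = 0 := sum_eq_zero fun y _ => this y
    rw [h16] at h6
    nlinarith
  obtain ⟨u0, v0, huv⟩ := hne
  have hfin : ∑ u : α, ∑ v ∈ NB E u, ∑ x ∈ NA E v, (cod E x u : ℝ) <
      ∑ u : α, ∑ v ∈ NB E u, d ^ 3 / (K * m) := by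
    apply sum_lt_sum
    · intro u _
      exact sum_le_sum fun v hv => (hcon u v ((mem_NB E u v).mp hv)).le
    · refine ⟨u0, mem_univ _, ?_⟩
      apply sum_lt_sum
      · intro v hv
        exact (hcon u0 v ((mem_NB E u0 v).mp hv)).le
      · exact ⟨v0, (mem_NB E u0 v0).mpr huv, hcon u0 v0 huv⟩
  have hup : ∑ u : α, ∑ v ∈ NB E u, d ^ 3 / (K * m) ≤ d ^ 4 := by
    calc ∑ u : α, ∑ v ∈ NB E u, d ^ 3 / (K * m)
        = (∑ u : α, ((NB E u).card : ℝ)) * (d ^ 3 / (K * m)) := by
          rw [sum_mul]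
          exact sum_congr rfl fun u _ => by rw [sum_const, nsmul_eq_mul]
      _ ≤ (m * (K * d)) * (d ^ 3 / (K * m)) := mul_le_mul_of_nonneg_right hedges (by positivity)
      _ = d ^ 4 := by field_simp
  rw [← hswap] at hfin
  linarith

theorem bound_plus {P Q : Type} (Γ : P → Q → Prop) (a b : ℕ) (ha : 1 ≤ a) (hab : a < b)
    (h : Bound Γ a b) : Bound (Plus Γ) a (a + b) := by
  obtain ⟨C, hC⟩ := h
  set K := KK (a + b) b with hK
  have hK1 : 1 ≤ K := one_le_KK _ _
  have hK0 : 0 < K := by linarith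
  set C1 : ℝ := 1 + |C| * (2 * K) ^ (2 * b - a) * (2 * K) ^ b + (4 * K ^ 2) ^ b with hC1
  have hC10 : 1 ≤ C1 := by
    have h1 : 0 ≤ |C| * (2 * K) ^ (2 * b - a) * (2 * K) ^ b := by positivity
    have h2 : 0 ≤ (4 * K ^ 2) ^ b := by positivity
    linarith
  refine ⟨16 ^ (a + b) * C1, ?_⟩
  intro α β _ _ E N hN hpos he
  have hexp : 2 * (a + b) - a = (a + b) + b := by omega
  rw [hexp] at he
  obtain ⟨A, B, m, d, hm, hd, h1, h2, h3, h4, h5, h6, h7⟩ :=
    reg_use E (a + b) b (by omega) (by omega) hpos N C1 hN he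
  apply Contains.of_res (A := A) (B := B)
  set E' := res E A B with hE'
  have hm0 : 0 < m := by linarith
  have hd1 : 1 ≤ d := by
    have h8 : (1 : ℝ) ^ (a + b) ≤ d ^ (a + b) := by
      rw [one_pow]
      have : 1 ≤ m ^ b := one_le_pow₀ hm
      nlinarith
    exact le_of_pow_le_pow_left₀ (by omega) hd.le h8
  obtain ⟨u, v, huv, hF⟩ := exists_edge E' m d K hm hd hK0 h1 h2 h3 h4 h6
  set A2 := (NA E' v).erase u with hA2
  set B2 := (NB E' u).erase v with hB2
  have hA2card : (Fintype.card {x // x ∈ A2} : ℝ) ≤ K * d := by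
    rw [Fintype.card_coe]
    refine le_trans ?_ (h4 v)
    exact_mod_cast card_le_card (erase_subset _ _)
  have hB2card : (Fintype.card {x // x ∈ B2} : ℝ) ≤ K * d := by
    rw [Fintype.card_coe]
    refine le_trans ?_ (h5 u)
    exact_mod_cast card_le_card (erase_subset _ _)
  -- number of pairs
  have hE2 : d ^ 3 / (K * m) ≤ (eR (res E' A2 B2) : ℝ) + 2 * (K * d) := by
    have h8 : (eR (res E' A2 B2) : ℝ) = ∑ x ∈ A2, ((B2.filter (fun y => E' x y)).card : ℝ) := by
      rw [eR, ← sum_coe_sort A2]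
      push_cast
      exact sum_congr rfl fun x _ => by rw [card_NB_res]
    have h9 : ∀ x, (cod E' x u : ℝ) ≤
        ((B2.filter (fun y => E' x y)).card : ℝ) + 1 := by
      intro x
      have h10 := cod_le_insert E' x u v (B2.filter (fun y => E' x y)) (by
        intro y hy1 hy2
        rw [mem_filter, hB2, mem_erase, mem_NB]
        by_cases hyv : y = v
        · left; exact hyv
        · right; exact ⟨⟨hyv, hy2⟩, hy1⟩)
      exact_mod_cast h10
    have hu : u ∈ NA E' v := (mem_NA E' u v).mpr huv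
    calc d ^ 3 / (K * m) ≤ ∑ x ∈ NA E' v, (cod E' x u : ℝ) := hF
      _ = (cod E' u u : ℝ) + ∑ x ∈ A2, (cod E' x u : ℝ) :=
          (add_sum_erase _ _ hu).symm
      _ ≤ K * d + ∑ x ∈ A2, (((B2.filter (fun y => E' x y)).card : ℝ) + 1) := by
          refine add_le_add ?_ (sum_le_sum fun x _ => h9 x)
          rw [cod_self]; exact h5 u
      _ = K * d + ((eR (res E' A2 B2) : ℝ) + (A2.card : ℝ)) := by
          rw [sum_add_distrib, h8]; simp
      _ ≤ K * d + ((eR (res E' A2 B2) : ℝ) + K * d) := by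
          rw [Fintype.card_coe] at hA2card
          linarith
      _ = _ := by ring
  -- comparison
  have hmb : C1 * m ^ b ≤ d ^ (a + b) := h7
  have hda : d ^ (a + b) = d ^ a * d ^ b := pow_add _ _ _
  have hbig : 4 * K * d ≤ d ^ 3 / (K * m) := by
    rw [le_div_iff₀ (by positivity)]
    have h8 : (4 * K ^ 2 * m) ^ b ≤ (d ^ 2) ^ b := by
      calc (4 * K ^ 2 * m) ^ b = (4 * K ^ 2) ^ b * m ^ b := mul_pow _ _ _
        _ ≤ C1 * m ^ b := by
            apply mul_le_mul_of_nonneg_right _ (by positivity)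
            have : 0 ≤ |C| * (2 * K) ^ (2 * b - a) * (2 * K) ^ b := by positivity
            linarith
        _ ≤ d ^ (a + b) := hmb
        _ ≤ d ^ (2 * b) := pow_le_pow_right₀ hd1 (by omega)
        _ = (d ^ 2) ^ b := by rw [pow_mul]
    have h9 := le_of_pow_le_pow_left₀ (by omega) (by positivity) h8
    calc 4 * K * d * (K * m) = (4 * K ^ 2 * m) * d := by ring
      _ ≤ d ^ 2 * d := mul_le_mul_of_nonneg_right h9 hd.le
      _ = d ^ 3 := by ring
  have hhalf : d ^ 3 / (2 * K * m) ≤ (eR (res E' A2 B2) : ℝ) := by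
    have h8 : d ^ 3 / (2 * K * m) = d ^ 3 / (K * m) / 2 := by field_simp
    rw [h8]; linarith
  have hpos2 : 0 < eR (res E' A2 B2) := by
    have : (0 : ℝ) < (eR (res E' A2 B2) : ℝ) := lt_of_lt_of_le (by positivity) hhalf
    exact_mod_cast this
  have hfinal : C * (2 * K * d) ^ (2 * b - a) ≤ (eR (res E' A2 B2) : ℝ) ^ b := by
    have h8 : C * (2 * K * d) ^ (2 * b - a) ≤ (d ^ 3 / (2 * K * m)) ^ b := by
      rw [div_pow, le_div_iff₀ (by positivity)]
      have hsplit : d ^ (2 * b - a) * d ^ (a + b) = (d ^ 3) ^ b := by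
        rw [← pow_add, ← pow_mul]
        congr 1
        omega
      calc C * (2 * K * d) ^ (2 * b - a) * (2 * K * m) ^ b
          ≤ |C| * (2 * K * d) ^ (2 * b - a) * (2 * K * m) ^ b := by
            apply mul_le_mul_of_nonneg_right _ (by positivity)
            apply mul_le_mul_of_nonneg_right (le_abs_self C) (by positivity)
        _ = (|C| * (2 * K) ^ (2 * b - a) * (2 * K) ^ b) * (d ^ (2 * b - a) * m ^ b) := by
            rw [mul_pow (2 * K) d, mul_pow (2 * K) m]; ring
        _ ≤ C1 * (d ^ (2 * b - a) * m ^ b) := by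
            apply mul_le_mul_of_nonneg_right _ (by positivity)
            have : 0 ≤ (4 * K ^ 2) ^ b := by positivity
            linarith
        _ = d ^ (2 * b - a) * (C1 * m ^ b) := by ring
        _ ≤ d ^ (2 * b - a) * d ^ (a + b) := mul_le_mul_of_nonneg_left hmb (by positivity)
        _ = (d ^ 3) ^ b := hsplit
    exact h8.trans (pow_le_pow_left₀ (by positivity) hhalf b)
  obtain ⟨f, g, hf, hg, hfg⟩ := hC _ _ (res E' A2 B2) (2 * K * d) (by linarith) hpos2 hfinal
  refine ⟨Sum.elim (fun p => (f p : {x // x ∈ A})) (fun _ => u),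
    Sum.elim (fun q => (g q : {y // y ∈ B})) (fun _ => v), ?_, ?_, ?_⟩
  · rintro (x | x) (y | y) hxy
    · exact congrArg _ (hf (Subtype.val_injective hxy))
    · exact absurd hxy (mem_erase.mp (f x).2).1
    · exact absurd hxy.symm (mem_erase.mp (f y).2).1
    · rfl
  · rintro (x | x) (y | y) hxy
    · exact congrArg _ (hg (Subtype.val_injective hxy))
    · exact absurd hxy (mem_erase.mp (g x).2).1
    · exact absurd hxy.symm (mem_erase.mp (g y).2).1
    · rfl
  · rintro (x | x) (y | y) hxy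
    · exact hfg x y hxy
    · exact (mem_NA E' _ v).mp (mem_erase.mp (f x).2).2
    · exact (mem_NB E' u _).mp (mem_erase.mp (g y).2).2
    · exact huv

end Pool.Agent.Helper55.RE
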