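import Pool.Agent.Helper55.RE.Counts

set_option autoImplicit false
set_option linter.unusedSectionVars false

namespace Pool.Agent.Helper55.RE

open Finset Function

open scoped Classical

variable {α β : Type*} [Fintype α] [Fintype β] (E : α → β → Prop)

/-- Two extensions share a vertex. -/
def Rel {k : ℕ} (τ τ' : α × (Fin k → β)) : Prop := τ.1 = τ'.1 ∨ ∃ i j, τ.2 i = τ'.2 j

/-- An extension is degenerate. -/
def Deg {k t : ℕ} (ρ : Fin k → Fin t → α) (y : Fin k → β) : Prop :=
  ∃ i j, i ≠ j ∧ (y i = y j ∨ ∃ l l', ρ i l = ρ j l')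

lemma good_bound {k t p : ℕ} (hp : 1 ≤ p) (L : ℕ) (hH : ¬ HasH E k t p)
    (ρ : Fin k → Fin t → α) :
    ((Ext E L ρ).filter (fun τ => ¬ Deg ρ τ.2)).card ^ 2 ≤
      4 * p * ((Ext E L ρ ×ˢ Ext E L ρ).filter (fun q => Rel q.1 q.2)).card := by
  have h1 := related_many ((Ext E L ρ).filter (fun τ => ¬ Deg ρ τ.2)) (fun a b => Rel a b)
    (by
      rintro a b (h | ⟨i, j, h⟩)
      · exact Or.inl h.symm
      · exact Or.inr ⟨j, i, h.symm⟩) p hp (by
      rintro ⟨f, hf, hrel⟩
      apply hH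
      have hext : ∀ j i, Lt E L (f j).1 ((f j).2 i) (ρ i) := fun j =>
        (mem_Ext E L ρ _).mp (mem_filter.mp (hf j)).1
      have hnd : ∀ j, ¬ Deg ρ (f j).2 := fun j => (mem_filter.mp (hf j)).2
      refine ⟨fun j => (f j).1, ρ, fun i j => (f j).2 i, ?_, ?_, ?_, ?_, ?_, ?_⟩
      · intro a b hab
        by_contra hne
        exact hrel a b hne (Or.inl hab)
      · intro i l i' l' h
        by_cases hi : i = i'
        · subst hi
          exact ⟨rfl, (hext ⟨0, hp⟩ i).2.2.1 h⟩
        · exact absurd ⟨i, i', hi, Or.inr ⟨l, l', h⟩⟩ (hnd ⟨0, hp⟩)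
      · intro i j i' j' h
        have hj : j = j' := by
          by_contra hne
          exact hrel j j' hne (Or.inr ⟨i, i', h⟩)
        subst hj
        refine ⟨?_, rfl⟩
        by_contra hne
        exact hnd j ⟨i, i', hne, Or.inl h⟩
      · intro j i l h
        exact (hext j i).2.2.2.1 l h.symm
      · intro i j
        exact (hext j i).1
      · intro i j l
        exact (hext j i).2.1 l)
  refine h1.trans (Nat.mul_le_mul_left _ (card_le_card ?_))
  intro q hq
  rw [mem_filter, mem_product, mem_filter, mem_filter] at hq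
  rw [mem_filter, mem_product]
  exact ⟨⟨hq.1.1.1, hq.1.2.1⟩, hq.2⟩

lemma ext_sq_bound {k t p : ℕ} (hp : 1 ≤ p) (L : ℕ) (hH : ¬ HasH E k t p)
    (ρ : Fin k → Fin t → α) :
    (Ext E L ρ).card ^ 2 ≤
      4 * p * ((Ext E L ρ ×ˢ Ext E L ρ).filter (fun q => Rel q.1 q.2)).card +
      2 * ((Ext E L ρ ×ˢ Ext E L ρ).filter (fun q => Deg ρ q.1.2)).card := by
  have h1 := good_bound E hp L hH ρ
  set g := ((Ext E L ρ).filter (fun τ => ¬ Deg ρ τ.2)).card with hg
  set b := ((Ext E L ρ).filter (fun τ => Deg ρ τ.2)).card with hb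
  have h2 : b + g = (Ext E L ρ).card := card_filter_add_card_filter_not _
  have h3 : ((Ext E L ρ ×ˢ Ext E L ρ).filter (fun q => Deg ρ q.1.2)).card =
      b * (Ext E L ρ).card := by
    rw [hb, ← card_product]
    congr 1
    ext q
    simp only [mem_filter, mem_product]
    tauto
  rw [h3, ← h2]
  nlinarith [Nat.zero_le b, Nat.zero_le g, Nat.zero_le (b * g)]

/-- The bound for the number of related pairs. -/
lemma rel_count {k t L : ℕ} (Δ : ℕ) (hA : ∀ y, (NA E y).card ≤ Δ)
    (hB : ∀ x, (NB E x).card ≤ Δ) (x x' : α) :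
    ((Fintype.piFinset (fun _ : Fin k => PP E t L x x')).filter
      (fun f => x = x' ∨ ∃ i j, (f i).1 = (f j).2.1)).card ≤
    (if x = x' then (L * Δ ^ (t + 1)) ^ k else 0) +
      (k ^ 2 * (L * Δ ^ t) + k * ((NB E x ∩ NB E x').card * Δ ^ t)) *
        (PP E t L x x').card ^ (k - 1) := by
  set W := Fintype.piFinset (fun _ : Fin k => PP E t L x x') with hW
  by_cases hx : x = x'
  · rw [if_pos hx]
    refine le_trans (card_le_card (filter_subset _ _)) (le_trans ?_ (Nat.le_add_right _ _))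
    rw [hW, Fintype.card_piFinset]
    simp only [prod_const, card_univ, Fintype.card_fin]
    exact Nat.pow_le_pow_left (cnt_self E Δ hA hB x x') k
  · rw [if_neg hx, zero_add]
    set P := PP E t L x x' with hP
    have hcov : W.filter (fun f => x = x' ∨ ∃ i j, (f i).1 = (f j).2.1) ⊆
        ((univ : Finset (Fin k × Fin k)).filter (fun q => q.1 ≠ q.2)).biUnion
          (fun q => W.filter (fun f => (f q.1).1 = (f q.2).2.1)) ∪
        (univ : Finset (Fin k)).biUnion (fun i => W.filter (fun f => (f i).1 = (f i).2.1)) := by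
      intro f hf
      rw [mem_filter] at hf
      obtain ⟨hf1, hf2⟩ := hf
      rcases hf2 with h | ⟨i, j, h⟩
      · exact absurd h hx
      · by_cases hij : i = j
        · subst hij
          rw [mem_union]; right
          simp only [mem_biUnion, mem_univ, true_and, mem_filter]
          exact ⟨i, hf1, h⟩
        · rw [mem_union]; left
          simp only [mem_biUnion, mem_univ, true_and, mem_filter]
          exact ⟨(i, j), hij, hf1, h⟩
    refine (card_le_card hcov).trans ((card_union_le _ _).trans ?_)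
    rw [add_mul]
    refine Nat.add_le_add ?_ ?_
    · refine card_biUnion_le.trans ?_
      calc ∑ q ∈ (univ : Finset (Fin k × Fin k)).filter (fun q => q.1 ≠ q.2),
            (W.filter (fun f => (f q.1).1 = (f q.2).2.1)).card
          ≤ ∑ q ∈ (univ : Finset (Fin k × Fin k)).filter (fun q => q.1 ≠ q.2),
            (L * Δ ^ t) * P.card ^ (k - 1) := by
            refine sum_le_sum fun q hq => ?_
            rw [mem_filter] at hq
            refine pair_count P (fun a b => a.1 = b.2.1) (L * Δ ^ t) ?_ q.1 q.2 hq.2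
            intro a _
            refine le_trans (card_le_card ?_) (cnt_snd E Δ hA x x' a.1)
            intro b hb
            rw [mem_filter] at hb ⊢
            exact ⟨hb.1, hb.2.symm⟩
        _ ≤ ∑ q ∈ (univ : Finset (Fin k × Fin k)), (L * Δ ^ t) * P.card ^ (k - 1) :=
            sum_le_sum_of_subset (filter_subset _ _)
        _ = k ^ 2 * (L * Δ ^ t) * P.card ^ (k - 1) := by simp [sq]; ring
    · refine card_biUnion_le.trans ?_
      calc ∑ i : Fin k, (W.filter (fun f => (f i).1 = (f i).2.1)).card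
          ≤ ∑ _i : Fin k, ((NB E x ∩ NB E x').card * Δ ^ t) * P.card ^ (k - 1) := by
            refine sum_le_sum fun i _ => ?_
            exact single_count P (fun a => a.1 = a.2.1) _ (cnt_diag E Δ hA x x') i
        _ = k * ((NB E x ∩ NB E x').card * Δ ^ t) * P.card ^ (k - 1) := by simp; ring

/-- The bound for the number of degenerate pairs. -/
lemma deg_count {k t L : ℕ} (Δ : ℕ) (hA : ∀ y, (NA E y).card ≤ Δ)
    (hB : ∀ x, (NB E x).card ≤ Δ) (x x' : α) :
    ((Fintype.piFinset (fun _ : Fin k => PP E t L x x')).filter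
      (fun f => ∃ i j, i ≠ j ∧ ((f i).1 = (f j).1 ∨ ∃ l l', (f i).2.2 l = (f j).2.2 l'))).card ≤
      (k ^ 2 * ((1 + t ^ 2) * (L * Δ ^ t))) * (PP E t L x x').card ^ (k - 1) := by
  set W := Fintype.piFinset (fun _ : Fin k => PP E t L x x') with hW
  set P := PP E t L x x' with hP
  have hcov : W.filter
      (fun f => ∃ i j, i ≠ j ∧ ((f i).1 = (f j).1 ∨ ∃ l l', (f i).2.2 l = (f j).2.2 l')) ⊆
      ((univ : Finset (Fin k × Fin k)).filter (fun q => q.1 ≠ q.2)).biUnion
        (fun q => W.filter (fun f => (f q.1).1 = (f q.2).1 ∨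
          ∃ l l', (f q.1).2.2 l = (f q.2).2.2 l')) := by
    intro f hf
    rw [mem_filter] at hf
    obtain ⟨hf1, i, j, hij, h⟩ := hf
    simp only [mem_biUnion, mem_univ, true_and, mem_filter]
    exact ⟨(i, j), hij, hf1, h⟩
  refine (card_le_card hcov).trans (card_biUnion_le.trans ?_)
  calc ∑ q ∈ (univ : Finset (Fin k × Fin k)).filter (fun q => q.1 ≠ q.2),
        (W.filter (fun f => (f q.1).1 = (f q.2).1 ∨
          ∃ l l', (f q.1).2.2 l = (f q.2).2.2 l')).card
      ≤ ∑ q ∈ (univ : Finset (Fin k × Fin k)).filter (fun q => q.1 ≠ q.2),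
        ((1 + t ^ 2) * (L * Δ ^ t)) * P.card ^ (k - 1) := by
        refine sum_le_sum fun q hq => ?_
        rw [mem_filter] at hq
        have hpc := pair_count (k := k) P (fun a b => a.1 = b.1 ∨ ∃ l l', a.2.2 l = b.2.2 l')
          ((1 + t ^ 2) * (L * Δ ^ t)) ?_ q.1 q.2 hq.2
        · exact (cf _ _ _ fun _ _ => Iff.rfl).trans_le hpc
        intro a _
        have hc : P.filter (fun b => a.1 = b.1 ∨ ∃ l l', a.2.2 l = b.2.2 l') ⊆
            P.filter (fun b => b.1 = a.1) ∪ (univ : Finset (Fin t × Fin t)).biUnion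
              (fun q => P.filter (fun b => b.2.2 q.2 = a.2.2 q.1)) := by
          intro b hb
          rw [mem_filter] at hb
          obtain ⟨hb1, hb2 | ⟨l, l', hb2⟩⟩ := hb
          · rw [mem_union, mem_filter]; left; exact ⟨hb1, hb2.symm⟩
          · rw [mem_union]; right
            simp only [mem_biUnion, mem_univ, true_and, mem_filter]
            exact ⟨(l, l'), hb1, hb2.symm⟩
        refine (cf _ _ _ fun _ _ => Iff.rfl).trans_le
          ((card_le_card hc).trans ((card_union_le _ _).trans ?_))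
        rw [add_mul, one_mul]
        refine Nat.add_le_add (cnt_fst E Δ hA x x' a.1) (card_biUnion_le.trans ?_)
        calc ∑ q : Fin t × Fin t, (P.filter (fun b => b.2.2 q.2 = a.2.2 q.1)).card
            ≤ ∑ _q : Fin t × Fin t, L * Δ ^ t :=
              sum_le_sum fun q _ => cnt_coord E Δ hA hB x x' _ _
          _ = t ^ 2 * (L * Δ ^ t) := by simp [sq]
    _ ≤ ∑ q ∈ (univ : Finset (Fin k × Fin k)), ((1 + t ^ 2) * (L * Δ ^ t)) * P.card ^ (k - 1) :=
        sum_le_sum_of_subset (filter_subset _ _)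
    _ = (k ^ 2 * ((1 + t ^ 2) * (L * Δ ^ t))) * P.card ^ (k - 1) := by simp [sq]; ring

/-- The codegree. -/
noncomputable def cod (x x' : α) : ℕ := (NB E x ∩ NB E x').card

/-- Main inequality for the number of pairs of extensions. -/
lemma pall_bound {k t p L : ℕ} (hk : 1 ≤ k) (hp : 1 ≤ p) (hH : ¬ HasH E k t p) (Δ : ℕ)
    (hA : ∀ y, (NA E y).card ≤ Δ) (hB : ∀ x, (NB E x).card ≤ Δ) (hL : 1 ≤ L) :
    ∑ x : α, ∑ x' : α, (PP E t L x x').card ^ k ≤
      4 * p * (Fintype.card α * (L * Δ ^ (t + 1)) ^ k) +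
      (6 * p * k ^ 2 * (2 + t ^ 2) * L) * ∑ x : α, ∑ x' : α,
        ((1 + cod E x x') * Δ ^ t) * (PP E t L x x').card ^ (k - 1) := by
  have hsq : ∑ x : α, ∑ x' : α, (PP E t L x x').card ^ k =
      ∑ ρ : Fin k → Fin t → α, (Ext E L ρ).card ^ 2 := by
    have h := transport E (t := t) (k := k) L (fun _ _ _ _ _ => True)
    simp only [filter_true] at h
    have h1 : ∀ ρ : Fin k → Fin t → α, (Ext E L ρ ×ˢ Ext E L ρ).card = (Ext E L ρ).card ^ 2 := by
      intro ρ; rw [card_product, sq]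
    have h2 : ∀ x x' : α, (Fintype.piFinset (fun _ : Fin k => PP E t L x x')).card =
        (PP E t L x x').card ^ k := by
      intro x x'; rw [Fintype.card_piFinset]; simp
    simp only [h1, h2] at h
    exact h.symm
  rw [hsq]
  have hstep : ∑ ρ : Fin k → Fin t → α, (Ext E L ρ).card ^ 2 ≤
      4 * p * (∑ ρ : Fin k → Fin t → α,
        ((Ext E L ρ ×ˢ Ext E L ρ).filter (fun q => Rel q.1 q.2)).card) +
      2 * (∑ ρ : Fin k → Fin t → α,
        ((Ext E L ρ ×ˢ Ext E L ρ).filter (fun q => Deg ρ q.1.2)).card) := by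
    rw [mul_sum, mul_sum, ← sum_add_distrib]
    exact sum_le_sum fun ρ _ => ext_sq_bound E hp L hH ρ
  refine hstep.trans ?_
  have hT1 : ∑ ρ : Fin k → Fin t → α,
      ((Ext E L ρ ×ˢ Ext E L ρ).filter (fun q => Rel q.1 q.2)).card ≤
      Fintype.card α * (L * Δ ^ (t + 1)) ^ k +
      (2 * k ^ 2 * L) * ∑ x : α, ∑ x' : α,
        ((1 + cod E x x') * Δ ^ t) * (PP E t L x x').card ^ (k - 1) := by
    have h := transport E (t := t) (k := k) L (fun x x' y y' _ => x = x' ∨ ∃ i j, y i = y' j)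
    have h' : ∑ ρ : Fin k → Fin t → α,
        ((Ext E L ρ ×ˢ Ext E L ρ).filter (fun q => Rel q.1 q.2)).card =
        ∑ ρ : Fin k → Fin t → α, ((Ext E L ρ ×ˢ Ext E L ρ).filter
          (fun q => q.1.1 = q.2.1 ∨ ∃ i j, q.1.2 i = q.2.2 j)).card := by
      refine sum_congr rfl fun ρ _ => ?_
      congr 1
      exact filter_congr fun q _ => Iff.rfl
    rw [h']
    refine (Eq.trans (sum_congr rfl fun ρ _ => cf _ _ _ fun _ _ => Iff.rfl) h).trans_le ?_
    calc _ ≤ ∑ x : α, ∑ x' : α, ((if x = x' then (L * Δ ^ (t + 1)) ^ k else 0) +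
          (2 * k ^ 2 * L) * (((1 + cod E x x') * Δ ^ t) * (PP E t L x x').card ^ (k - 1))) := by
          refine sum_le_sum fun x _ => sum_le_sum fun x' _ => ?_
          refine (cf _ _ _ fun _ _ => Iff.rfl).trans_le
            ((rel_count (k := k) (t := t) (L := L) E Δ hA hB x x').trans ?_)
          refine Nat.add_le_add_left ?_ _
          rw [← mul_assoc (2 * k ^ 2 * L)]
          refine Nat.mul_le_mul_right _ ?_
          have e1 : k * ((NB E x ∩ NB E x').card * Δ ^ t) ≤
              k ^ 2 * L * (cod E x x' * Δ ^ t) := by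
            refine Nat.mul_le_mul_right _ ?_
            nlinarith [Nat.mul_le_mul hk hL, Nat.mul_le_mul (le_refl (k ^ 2)) hL]
          nlinarith [Nat.zero_le (k ^ 2 * L * (cod E x x' * Δ ^ t)), e1,
            Nat.zero_le (k ^ 2 * L * Δ ^ t)]
      _ = _ := by
          simp only [sum_add_distrib, mul_sum]
          congr 1
          simp
  have hT2 : ∑ ρ : Fin k → Fin t → α,
      ((Ext E L ρ ×ˢ Ext E L ρ).filter (fun q => Deg ρ q.1.2)).card ≤
      (k ^ 2 * (1 + t ^ 2) * L) * ∑ x : α, ∑ x' : α,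
        ((1 + cod E x x') * Δ ^ t) * (PP E t L x x').card ^ (k - 1) := by
    have h := transport E (t := t) (k := k) L (fun _ _ y _ ρ => Deg ρ y)
    rw [h]
    rw [mul_sum]
    refine sum_le_sum fun x _ => ?_
    rw [mul_sum]
    refine sum_le_sum fun x' _ => ?_
    have hdc := deg_count (k := k) (L := L) E Δ hA hB x x' (t := t)
    refine (cf _ _ _ fun _ _ => Iff.rfl).trans_le (hdc.trans ?_)
    rw [← mul_assoc (k ^ 2 * (1 + t ^ 2) * L)]
    refine Nat.mul_le_mul_right _ ?_
    calc k ^ 2 * ((1 + t ^ 2) * (L * Δ ^ t)) = k ^ 2 * (1 + t ^ 2) * L * (1 * Δ ^ t) := by ring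
      _ ≤ k ^ 2 * (1 + t ^ 2) * L * ((1 + cod E x x') * Δ ^ t) := by
          refine Nat.mul_le_mul_left _ (Nat.mul_le_mul_right _ (Nat.le_add_right _ _))
  set Y := ∑ x : α, ∑ x' : α,
        ((1 + cod E x x') * Δ ^ t) * (PP E t L x x').card ^ (k - 1) with hY
  calc _ ≤ 4 * p * (Fintype.card α * (L * Δ ^ (t + 1)) ^ k + (2 * k ^ 2 * L) * Y) +
        2 * ((k ^ 2 * (1 + t ^ 2) * L) * Y) :=
        Nat.add_le_add (Nat.mul_le_mul_left _ hT1) (Nat.mul_le_mul_left _ hT2)
    _ = 4 * p * (Fintype.card α * (L * Δ ^ (t + 1)) ^ k) +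
        (8 * p * k ^ 2 * L + 2 * (k ^ 2 * (1 + t ^ 2) * L)) * Y := by ring
    _ ≤ _ := by
        refine Nat.add_le_add_left (Nat.mul_le_mul_right _ ?_) _
        have : k ^ 2 * L * (1 + t ^ 2) * 1 ≤ k ^ 2 * L * (1 + t ^ 2) * p := Nat.mul_le_mul_left _ hp
        nlinarith [this, Nat.zero_le (k ^ 2 * L * p * t ^ 2), Nat.zero_le (k ^ 2 * L * p)]

end Pool.Agent.Helper55.RE
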