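import Pool.Agent.Helper55.RE.StepThree

set_option autoImplicit false
set_option linter.unusedSectionVars false

namespace Pool.Agent.Helper55.RE

open Finset Function

open scoped Classical

/-- The core theorem for almost regular bipartite relations. -/
theorem core (k t p : ℕ) (hk : 2 ≤ k) (ht : 2 ≤ t) (hp : 1 ≤ p)
    (hcond : (k - 1) * k * (t + 1) ≤ (k * t - 1) * (2 * k - 1 - t)) (K : ℝ) (hK : 1 ≤ K) :
    ∃ C D0 : ℝ, 1 ≤ C ∧ ∀ (α β : Type) [Fintype α] [Fintype β] (E : α → β → Prop) (m d : ℝ),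
      1 ≤ m → D0 < d →
      (Fintype.card α : ℝ) ≤ m → (Fintype.card β : ℝ) ≤ m →
      (∀ y, d ≤ ((NA E y).card : ℝ)) → (∀ y, ((NA E y).card : ℝ) ≤ K * d) →
      (∀ x, ((NB E x).card : ℝ) ≤ K * d) →
      m * d ≤ ∑ y : β, ((NA E y).card : ℝ) →
      C * m ^ (k * t - 1) ≤ d ^ (k * (t + 1)) →
      HasH E k t p := by
  obtain ⟨M3, hM3, h3⟩ := step_three k t p hk ht hp hcond K hK
  obtain ⟨C, hC1, h2⟩ := step_two k t p hk ht hp K M3 hK (by linarith)
  refine ⟨C, 8 * k * (t + 1) ^ 2 + 2 * (p + k * t), hC1, ?_⟩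
  intro α β _ _ E m d hm hd hα hβ hdeg hA hB hsum hC
  by_contra hH
  apply hH
  refine h3 α β E m d hm ?_ hα hβ hdeg hA hB ?_
    (h2 α β E m d hm hd hα hdeg hA hB hsum hC hH)
  · refine lt_of_le_of_lt ?_ hd
    have : (0 : ℝ) ≤ 8 * k * (t + 1) ^ 2 := by positivity
    linarith
  · have : 0 ≤ m ^ (k * t - 1) := by positivity
    nlinarith

end Pool.Agent.Helper55.RE
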