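import Pool.Agent.Helper55.RE.Defs

set_option autoImplicit false
set_option linter.unusedSectionVars false

namespace Pool.Agent.Helper55.RE

open Finset Function

open scoped Classical

variable {α β : Type*} [Fintype α] [Fintype β] (E : α → β → Prop)

/-- pairs of light extensions of the same tuple -/
noncomputable def PP (t L : ℕ) (x x' : α) : Finset (β × β × (Fin t → α)) :=
  univ.filter (fun z => Lt E L x z.1 z.2.2 ∧ Lt E L x' z.2.1 z.2.2)

@[simp] lemma mem_PP {t L : ℕ} (x x' : α) (z : β × β × (Fin t → α)) :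
    z ∈ PP E t L x x' ↔ Lt E L x z.1 z.2.2 ∧ Lt E L x' z.2.1 z.2.2 := by
  simp [PP]

lemma proj_left {t L : ℕ} (x x' : α) (B : Finset (β × β × (Fin t → α))) (hB : B ⊆ PP E t L x x') :
    B.card ≤ L * (B.image (fun b => (b.1, b.2.2))).card := by
  apply card_le_mul_card_image
  rintro ⟨u, Q⟩ hq
  rw [mem_image] at hq
  obtain ⟨b, hb, hbe⟩ := hq
  have hb' := (mem_PP E x x' b).mp (hB hb)
  have hQ : b.2.2 = Q := (Prod.ext_iff.mp hbe).2
  have hlt : (NB E x' ∩ NR E Q).card < L := by rw [← hQ]; exact hb'.2.2.2.2.2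
  refine le_trans ?_ hlt.le
  apply card_le_card_of_injOn (fun z => z.2.1)
  · intro z hz
    rw [mem_coe, mem_filter] at hz
    have hz' := (mem_PP E x x' z).mp (hB hz.1)
    have hzQ : z.2.2 = Q := (Prod.ext_iff.mp hz.2).2
    simp only [mem_coe, mem_inter, mem_NB, mem_NR]
    refine ⟨hz'.2.1, ?_⟩
    rw [← hzQ]; exact hz'.2.2.1
  · intro z hz w hw hzw
    rw [mem_coe, mem_filter] at hz hw
    have h1 := hz.2.trans hw.2.symm
    have h2 := Prod.ext_iff.mp h1
    exact Prod.ext h2.1 (Prod.ext hzw h2.2)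

lemma proj_right {t L : ℕ} (x x' : α) (B : Finset (β × β × (Fin t → α))) (hB : B ⊆ PP E t L x x') :
    B.card ≤ L * (B.image (fun b => (b.2.1, b.2.2))).card := by
  apply card_le_mul_card_image
  rintro ⟨u, Q⟩ hq
  rw [mem_image] at hq
  obtain ⟨b, hb, hbe⟩ := hq
  have hb' := (mem_PP E x x' b).mp (hB hb)
  have hQ : b.2.2 = Q := (Prod.ext_iff.mp hbe).2
  have hlt : (NB E x ∩ NR E Q).card < L := by rw [← hQ]; exact hb'.1.2.2.2.2
  refine le_trans ?_ hlt.le
  apply card_le_card_of_injOn (fun z => z.1)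
  · intro z hz
    rw [mem_coe, mem_filter] at hz
    have hz' := (mem_PP E x x' z).mp (hB hz.1)
    have hzQ : z.2.2 = Q := (Prod.ext_iff.mp hz.2).2
    simp only [mem_coe, mem_inter, mem_NB, mem_NR]
    refine ⟨hz'.1.1, ?_⟩
    rw [← hzQ]; exact hz'.1.2.1
  · intro z hz w hw hzw
    rw [mem_coe, mem_filter] at hz hw
    have h1 := hz.2.trans hw.2.symm
    have h2 := Prod.ext_iff.mp h1
    exact Prod.ext hzw h1

lemma card_piFinset_NA {t : ℕ} (Δ : ℕ) (hA : ∀ y, (NA E y).card ≤ Δ) (y : β) :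
    (Fintype.piFinset (fun _ : Fin t => NA E y)).card ≤ Δ ^ t := by
  rw [Fintype.card_piFinset]
  simp only [prod_const, card_univ, Fintype.card_fin]
  exact Nat.pow_le_pow_left (hA y) t

lemma cnt_fst {t L : ℕ} (Δ : ℕ) (hA : ∀ y, (NA E y).card ≤ Δ) (x x' : α) (v : β) :
    ((PP E t L x x').filter (fun b => b.1 = v)).card ≤ L * Δ ^ t := by
  refine (proj_left E x x' _ (filter_subset _ _)).trans (Nat.mul_le_mul_left _ ?_)
  refine le_trans ?_ (card_piFinset_NA E Δ hA v)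
  refine le_trans (card_le_card (t := (Fintype.piFinset (fun _ : Fin t => NA E v)).image
    (fun Q => (v, Q))) ?_) card_image_le
  intro q hq
  rw [mem_image] at hq
  obtain ⟨b, hb, rfl⟩ := hq
  rw [mem_filter, mem_PP] at hb
  rw [mem_image]
  refine ⟨b.2.2, ?_, ?_⟩
  · rw [Fintype.mem_piFinset]
    intro l
    rw [mem_NA, ← hb.2]
    exact hb.1.1.2.1 l
  · rw [hb.2]

lemma cnt_snd {t L : ℕ} (Δ : ℕ) (hA : ∀ y, (NA E y).card ≤ Δ) (x x' : α) (v : β) :
    ((PP E t L x x').filter (fun b => b.2.1 = v)).card ≤ L * Δ ^ t := by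
  refine (proj_right E x x' _ (filter_subset _ _)).trans (Nat.mul_le_mul_left _ ?_)
  refine le_trans ?_ (card_piFinset_NA E Δ hA v)
  refine le_trans (card_le_card (t := (Fintype.piFinset (fun _ : Fin t => NA E v)).image
    (fun Q => (v, Q))) ?_) card_image_le
  intro q hq
  rw [mem_image] at hq
  obtain ⟨b, hb, rfl⟩ := hq
  rw [mem_filter, mem_PP] at hb
  rw [mem_image]
  refine ⟨b.2.2, ?_, ?_⟩
  · rw [Fintype.mem_piFinset]
    intro l
    rw [mem_NA, ← hb.2]
    exact hb.1.2.2.1 l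
  · rw [hb.2]

lemma cnt_coord {t L : ℕ} (Δ : ℕ) (hA : ∀ y, (NA E y).card ≤ Δ) (hB : ∀ x, (NB E x).card ≤ Δ)
    (x x' : α) (v : α) (l : Fin t) :
    ((PP E t L x x').filter (fun b => b.2.2 l = v)).card ≤ L * Δ ^ t := by
  refine (proj_left E x x' _ (filter_subset _ _)).trans (Nat.mul_le_mul_left _ ?_)
  have htt : t - 1 + 1 = t := Nat.sub_add_cancel (Fin.pos l)
  set SS : Finset (β × (Fin t → α)) := (NB E v).biUnion (fun u =>
    ((Fintype.piFinset (fun _ : Fin t => NA E u)).filter (fun Q => Q l = v)).image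
      (fun Q => (u, Q))) with hSS
  refine le_trans (card_le_card (t := SS) ?_) ?_
  · intro q hq
    rw [mem_image] at hq
    obtain ⟨b, hb, rfl⟩ := hq
    rw [mem_filter, mem_PP] at hb
    rw [hSS, mem_biUnion]
    refine ⟨b.1, ?_, ?_⟩
    · rw [mem_NB, ← hb.2]; exact hb.1.1.2.1 l
    · rw [mem_image]
      refine ⟨b.2.2, ?_, rfl⟩
      rw [mem_filter, Fintype.mem_piFinset]
      refine ⟨fun l => ?_, hb.2⟩
      rw [mem_NA]
      exact hb.1.1.2.1 l
  · refine card_biUnion_le.trans ?_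
    calc ∑ u ∈ NB E v, (((Fintype.piFinset (fun _ : Fin t => NA E u)).filter
          (fun Q => Q l = v)).image (fun Q => (u, Q))).card
        ≤ ∑ u ∈ NB E v, Δ ^ (t - 1) := by
          refine sum_le_sum fun u _ => card_image_le.trans ?_
          refine (single_count (NA E u) (fun a => a = v) 1 ?_ l).trans ?_
          · rw [card_le_one]
            intro b hb c hc
            rw [mem_filter] at hb hc
            rw [hb.2, hc.2]
          · rw [one_mul]; exact Nat.pow_le_pow_left (hA u) _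
      _ = (NB E v).card * Δ ^ (t - 1) := by simp
      _ ≤ Δ * Δ ^ (t - 1) := Nat.mul_le_mul_right _ (hB v)
      _ = Δ ^ t := by rw [← pow_succ', htt]

lemma cnt_diag {t L : ℕ} (Δ : ℕ) (hA : ∀ y, (NA E y).card ≤ Δ)
    (x x' : α) :
    ((PP E t L x x').filter (fun b => b.1 = b.2.1)).card ≤ (NB E x ∩ NB E x').card * Δ ^ t := by
  set SS : Finset (β × β × (Fin t → α)) := (NB E x ∩ NB E x').biUnion (fun u =>
    (Fintype.piFinset (fun _ : Fin t => NA E u)).image (fun Q => (u, u, Q))) with hSS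
  refine le_trans (card_le_card (t := SS) ?_) ?_
  · intro b hb
    rw [mem_filter, mem_PP] at hb
    rw [hSS, mem_biUnion]
    refine ⟨b.1, ?_, ?_⟩
    · rw [mem_inter, mem_NB, mem_NB]
      refine ⟨hb.1.1.1, ?_⟩
      rw [hb.2]; exact hb.1.2.1
    · rw [mem_image]
      refine ⟨b.2.2, ?_, ?_⟩
      · rw [Fintype.mem_piFinset]
        intro l
        rw [mem_NA]
        exact hb.1.1.2.1 l
      · exact Prod.ext rfl (Prod.ext hb.2 rfl)
  · refine card_biUnion_le.trans ?_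
    calc ∑ u ∈ NB E x ∩ NB E x', ((Fintype.piFinset (fun _ : Fin t => NA E u)).image
          (fun Q => (u, u, Q))).card
        ≤ ∑ u ∈ NB E x ∩ NB E x', Δ ^ t :=
          sum_le_sum fun u _ => card_image_le.trans (card_piFinset_NA E Δ hA u)
      _ = (NB E x ∩ NB E x').card * Δ ^ t := by simp

lemma cnt_self {t L : ℕ} (Δ : ℕ) (hA : ∀ y, (NA E y).card ≤ Δ) (hB : ∀ x, (NB E x).card ≤ Δ)
    (x x' : α) :
    (PP E t L x x').card ≤ L * Δ ^ (t + 1) := by
  refine (proj_left E x x' _ (Subset.refl _)).trans (Nat.mul_le_mul_left _ ?_)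
  set SS : Finset (β × (Fin t → α)) := (NB E x).biUnion (fun u =>
    (Fintype.piFinset (fun _ : Fin t => NA E u)).image (fun Q => (u, Q))) with hSS
  refine le_trans (card_le_card (t := SS) ?_) ?_
  · intro q hq
    rw [mem_image] at hq
    obtain ⟨b, hb, rfl⟩ := hq
    rw [mem_PP] at hb
    rw [hSS, mem_biUnion]
    refine ⟨b.1, ?_, ?_⟩
    · rw [mem_NB]; exact hb.1.1
    · rw [mem_image]
      refine ⟨b.2.2, ?_, rfl⟩
      rw [Fintype.mem_piFinset]
      intro l
      rw [mem_NA]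
      exact hb.1.2.1 l
  · refine card_biUnion_le.trans ?_
    calc ∑ u ∈ NB E x, ((Fintype.piFinset (fun _ : Fin t => NA E u)).image
          (fun Q => (u, Q))).card
        ≤ ∑ u ∈ NB E x, Δ ^ t :=
          sum_le_sum fun u _ => card_image_le.trans (card_piFinset_NA E Δ hA u)
      _ = (NB E x).card * Δ ^ t := by simp
      _ ≤ Δ * Δ ^ t := Nat.mul_le_mul_right _ (hB x)
      _ = Δ ^ (t + 1) := by rw [← pow_succ']

/-- The light extensions of a tuple of root sets. -/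
noncomputable def Ext {k t : ℕ} (L : ℕ) (ρ : Fin k → Fin t → α) : Finset (α × (Fin k → β)) :=
  univ.filter (fun τ => ∀ i, Lt E L τ.1 (τ.2 i) (ρ i))

@[simp] lemma mem_Ext {k t : ℕ} (L : ℕ) (ρ : Fin k → Fin t → α) (τ : α × (Fin k → β)) :
    τ ∈ Ext E L ρ ↔ ∀ i, Lt E L τ.1 (τ.2 i) (ρ i) := by simp [Ext]

lemma transport {k t : ℕ} (L : ℕ)
    (Q : α → α → (Fin k → β) → (Fin k → β) → (Fin k → Fin t → α) → Prop) :
    ∑ ρ : Fin k → Fin t → α, ((Ext E L ρ ×ˢ Ext E L ρ).filter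
      (fun q => Q q.1.1 q.2.1 q.1.2 q.2.2 ρ)).card =
    ∑ x : α, ∑ x' : α, ((Fintype.piFinset (fun _ : Fin k => PP E t L x x')).filter
      (fun f => Q x x' (fun i => (f i).1) (fun i => (f i).2.1) (fun i => (f i).2.2))).card := by
  set A : Finset ((Fin k → Fin t → α) × (α × (Fin k → β)) × (α × (Fin k → β))) :=
    univ.filter (fun z => (z.2.1 ∈ Ext E L z.1 ∧ z.2.2 ∈ Ext E L z.1) ∧
      Q z.2.1.1 z.2.2.1 z.2.1.2 z.2.2.2 z.1) with hA
  set B : Finset (α × α × (Fin k → β × β × (Fin t → α))) :=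
    univ.filter (fun z => (∀ i, z.2.2 i ∈ PP E t L z.1 z.2.1) ∧
      Q z.1 z.2.1 (fun i => (z.2.2 i).1) (fun i => (z.2.2 i).2.1) (fun i => (z.2.2 i).2.2)) with hB
  have h1 : A.card = ∑ ρ : Fin k → Fin t → α, ((Ext E L ρ ×ˢ Ext E L ρ).filter
      (fun q => Q q.1.1 q.2.1 q.1.2 q.2.2 ρ)).card := by
    rw [hA, card_filter, Fintype.sum_prod_type]
    refine sum_congr rfl fun ρ _ => ?_
    rw [← card_filter]
    congr 1
    ext q
    simp [mem_product]
  have h2 : B.card = ∑ x : α, ∑ x' : α, ((Fintype.piFinset (fun _ : Fin k => PP E t L x x')).filter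
      (fun f => Q x x' (fun i => (f i).1) (fun i => (f i).2.1) (fun i => (f i).2.2))).card := by
    rw [hB, card_filter, Fintype.sum_prod_type]
    refine sum_congr rfl fun x _ => ?_
    rw [Fintype.sum_prod_type]
    refine sum_congr rfl fun x' _ => ?_
    rw [← card_filter]
    congr 1
    ext q
    simp [Fintype.mem_piFinset]
  rw [← h1, ← h2]
  apply card_nbij' (i := fun z => (z.2.1.1, z.2.2.1, fun i => (z.2.1.2 i, z.2.2.2 i, z.1 i)))
    (j := fun z => ((fun i => (z.2.2 i).2.2), (z.1, fun i => (z.2.2 i).1),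
      (z.2.1, fun i => (z.2.2 i).2.1)))
  · intro z hz
    simp only [hA, hB, coe_filter, mem_univ, true_and, Set.mem_ofPred_eq, mem_Ext, mem_PP] at hz ⊢
    exact ⟨fun i => ⟨hz.1.1 i, hz.1.2 i⟩, hz.2⟩
  · intro z hz
    simp only [hA, hB, coe_filter, mem_univ, true_and, Set.mem_ofPred_eq, mem_Ext, mem_PP] at hz ⊢
    exact ⟨⟨fun i => (hz.1 i).1, fun i => (hz.1 i).2⟩, hz.2⟩
  · intro z _; rfl
  · intro z _; rfl

end Pool.Agent.Helper55.RE
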