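import Pool.Agent.Helper55.RE.Basic

set_option autoImplicit false
set_option linter.unusedSectionVars false

namespace Pool.Agent.Helper55.RE

open Finset Function

open scoped Classical

variable {α β : Type*} [Fintype α] [Fintype β] (E : α → β → Prop)

/-- neighbours in `β` of `x` -/
noncomputable def NB (x : α) : Finset β := univ.filter (fun y => E x y)

/-- neighbours in `α` of `y` -/
noncomputable def NA (y : β) : Finset α := univ.filter (fun x => E x y)

/-- common neighbours in `β` of a tuple -/
noncomputable def NR {t : ℕ} (R : Fin t → α) : Finset β := univ.filter (fun y => ∀ l, E (R l) y)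

/-- common neighbours in `α` of a tuple -/
noncomputable def NZ {k : ℕ} (Z : Fin k → β) : Finset α := univ.filter (fun x => ∀ i, E x (Z i))

@[simp] lemma mem_NB (x : α) (y : β) : y ∈ NB E x ↔ E x y := by simp [NB]
@[simp] lemma mem_NA (x : α) (y : β) : x ∈ NA E y ↔ E x y := by simp [NA]
@[simp] lemma mem_NR {t : ℕ} (R : Fin t → α) (y : β) : y ∈ NR E R ↔ ∀ l, E (R l) y := by simp [NR]
@[simp] lemma mem_NZ {k : ℕ} (Z : Fin k → β) (x : α) : x ∈ NZ E Z ↔ ∀ i, E x (Z i) := by simp [NZ]

/-- The relation contains the `p`-th power of the star tree. -/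
def HasH (k t p : ℕ) : Prop :=
  ∃ (x : Fin p → α) (r : Fin k → Fin t → α) (y : Fin k → Fin p → β),
    Injective x ∧ (∀ i l i' l', r i l = r i' l' → i = i' ∧ l = l') ∧
    (∀ i j i' j', y i j = y i' j' → i = i' ∧ j = j') ∧ (∀ j i l, x j ≠ r i l) ∧
    (∀ i j, E (x j) (y i j)) ∧ (∀ i j l, E (r i l) (y i j))

/-- light tuples -/
def Lt {t : ℕ} (L : ℕ) (x : α) (y : β) (R : Fin t → α) : Prop :=
  E x y ∧ (∀ l, E (R l) y) ∧ Injective R ∧ (∀ l, R l ≠ x) ∧ (NB E x ∩ NR E R).card < L

lemma embed1 {k t p : ℕ} (x : Fin p → α) (r : Fin k → Fin t → α) (hx : Injective x)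
    (hr : ∀ i l i' l', r i l = r i' l' → i = i' ∧ l = l') (hxr : ∀ j i l, x j ≠ r i l)
    (hN : ∀ i j, k * p ≤ (NB E (x j) ∩ NR E (r i)).card) : HasH E k t p := by
  obtain ⟨f, hf, hf'⟩ := sdr (ι := Fin k × Fin p)
    (fun ij => NB E (x ij.2) ∩ NR E (r ij.1)) (by
      intro ij
      simpa using hN ij.1 ij.2)
  refine ⟨x, r, fun i j => f (i, j), hx, hr, ?_, hxr, ?_, ?_⟩
  · intro i j i' j' h
    have := hf h
    simpa using this
  · intro i j
    have := hf' (i, j)
    rw [mem_inter, mem_NB] at this
    exact this.1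
  · intro i j l
    have := hf' (i, j)
    rw [mem_inter, mem_NR] at this
    exact this.2 l

lemma card_noninj {t : ℕ} (P : Finset α) :
    ((Fintype.piFinset (fun _ : Fin t => P)).filter (fun R => ¬ Injective R)).card
      ≤ t ^ 2 * P.card ^ (t - 1) := by
  have hsub : (Fintype.piFinset (fun _ : Fin t => P)).filter (fun R => ¬ Injective R) ⊆
      ((univ : Finset (Fin t × Fin t)).filter (fun q => q.1 ≠ q.2)).biUnion (fun q =>
        (Fintype.piFinset (fun _ : Fin t => P)).filter (fun R => R q.1 = R q.2)) := by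
    intro R hR
    rw [mem_filter] at hR
    obtain ⟨hR1, hR2⟩ := hR
    simp only [Injective] at hR2
    push Not at hR2
    obtain ⟨a, b, hab, hne⟩ := hR2
    simp only [mem_biUnion, mem_filter, mem_univ, true_and]
    exact ⟨(a, b), hne, hR1, hab⟩
  refine (card_le_card hsub).trans (card_biUnion_le.trans ?_)
  calc ∑ q ∈ (univ : Finset (Fin t × Fin t)).filter (fun q => q.1 ≠ q.2),
        ((Fintype.piFinset (fun _ : Fin t => P)).filter (fun R => R q.1 = R q.2)).card
      ≤ ∑ q ∈ (univ : Finset (Fin t × Fin t)).filter (fun q => q.1 ≠ q.2), 1 * P.card ^ (t - 1) := by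
        refine sum_le_sum fun q hq => ?_
        rw [mem_filter] at hq
        refine pair_count P (fun a b => a = b) 1 ?_ q.1 q.2 hq.2
        intro a _
        rw [card_le_one]
        intro b hb c hc
        rw [mem_filter] at hb hc
        rw [← hb.2, ← hc.2]
    _ ≤ ∑ q ∈ (univ : Finset (Fin t × Fin t)), 1 * P.card ^ (t - 1) :=
        sum_le_sum_of_subset (filter_subset _ _)
    _ = t ^ 2 * P.card ^ (t - 1) := by simp [sq]

lemma card_coord {t : ℕ} (P : Finset α) (v : α) :
    ((Fintype.piFinset (fun _ : Fin t => P)).filter (fun R => ∃ l, R l = v)).card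
      ≤ t * P.card ^ (t - 1) := by
  have hsub : (Fintype.piFinset (fun _ : Fin t => P)).filter (fun R => ∃ l, R l = v) ⊆
      (univ : Finset (Fin t)).biUnion (fun l =>
        (Fintype.piFinset (fun _ : Fin t => P)).filter (fun R => R l = v)) := by
    intro R hR
    rw [mem_filter] at hR
    obtain ⟨hR1, l, hl⟩ := hR
    simp only [mem_biUnion, mem_filter, mem_univ, true_and]
    exact ⟨l, hR1, hl⟩
  refine (card_le_card hsub).trans (card_biUnion_le.trans ?_)
  calc ∑ l : Fin t, ((Fintype.piFinset (fun _ : Fin t => P)).filter (fun R => R l = v)).card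
      ≤ ∑ _l : Fin t, 1 * P.card ^ (t - 1) := by
        refine sum_le_sum fun l _ => ?_
        refine single_count P (fun a => a = v) 1 ?_ l
        rw [card_le_one]
        intro b hb c hc
        rw [mem_filter] at hb hc
        rw [hb.2, hc.2]
    _ = t * P.card ^ (t - 1) := by simp

/-- Many light tuples around every vertex of large degree. -/
lemma light_many {k t p : ℕ} (hk : 1 ≤ k) (ht : 1 ≤ t) (hp : 1 ≤ p) (hH : ¬ HasH E k t p) (y : β)
    (hD : 8 * k * (t + 1) ^ 2 + 2 * (p + k * t) < (NA E y).card) :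
    (NA E y).card ^ (t + 1) ≤ 8 * k *
      ((univ : Finset (α × (Fin t → α))).filter (fun q => Lt E (k * p) q.1 y q.2)).card := by
  set D := (NA E y).card with hDdef
  set Om := Fintype.piFinset (fun _ : Fin t => NA E y) with hOm
  have hOmc : Om.card = D ^ t := by rw [hOm, Fintype.card_piFinset]; simp [hDdef]
  have hDpos : 0 < D := by omega
  let bad : (Fin t → α) → α → Prop := fun R x => ¬ Injective R ∨ (NB E x ∩ NR E R).card < k * p
  have htt : t - 1 + 1 = t := Nat.sub_add_cancel ht
  have key : ¬ (4 * k * ((Om ×ˢ NA E y).filter (fun q => bad q.1 q.2)).card ≤ Om.card * D) := by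
    intro hbad
    apply hH
    obtain ⟨ω, hω, hdis, x, hx, hxX, hxr, hgood⟩ := selection (NA E y) Om id bad k p hk
      (by omega) (by
        rw [← card_pos, hOmc]; positivity) (by rw [← hDdef]; convert hbad) (t * D ^ (t - 1)) (by
        intro v
        exact card_coord (NA E y) v) (by
        rw [hOmc]
        calc 2 * k * t * (t * D ^ (t - 1)) = (2 * k * t * t) * D ^ (t - 1) := by ring
          _ < D * D ^ (t - 1) := by
              apply Nat.mul_lt_mul_of_pos_right _ (by positivity)
              nlinarith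
          _ = D ^ t := by rw [← pow_succ', htt])
    refine embed1 E x ω hx ?_ ?_ ?_
    · intro i l i' l' h
      by_cases hi : i = i'
      · subst hi
        refine ⟨rfl, ?_⟩
        have := hgood i ⟨0, hp⟩
        simp only [bad, not_or, not_not] at this
        exact this.1 h
      · exact absurd h (hdis i i' hi l l')
    · exact hxr
    · intro i j
      have := hgood i j
      simp only [bad, not_or, not_lt] at this
      exact this.2
  push Not at key
  set N1 := (Om.filter (fun R => ¬ Injective R)) ×ˢ NA E y with hN1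
  set N2 := (Om ×ˢ NA E y).filter (fun q => ∃ l, q.1 l = q.2) with hN2
  set N3 := (univ : Finset (α × (Fin t → α))).filter (fun q => Lt E (k * p) q.1 y q.2) with hN3
  have hcov : (Om ×ˢ NA E y).filter (fun q => bad q.1 q.2) ⊆ (N1 ∪ N2) ∪ N3.image Prod.swap := by
    intro q hq
    rw [mem_filter, mem_product] at hq
    obtain ⟨⟨hq1, hq2⟩, hq3⟩ := hq
    by_cases h1 : Injective q.1
    · by_cases h2 : ∃ l, q.1 l = q.2
      · rw [mem_union, mem_union]; left; right
        rw [hN2, mem_filter, mem_product]
        exact ⟨⟨hq1, hq2⟩, h2⟩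
      · rw [mem_union]; right
        rw [mem_image]
        refine ⟨q.swap, ?_, by simp⟩
        rw [hN3, mem_filter]
        refine ⟨mem_univ _, ?_⟩
        push Not at h2
        rw [hOm, Fintype.mem_piFinset] at hq1
        refine ⟨(mem_NA E _ _).mp hq2, fun l => (mem_NA E _ _).mp (hq1 l), h1, h2, ?_⟩
        rcases hq3 with h | h
        · exact absurd h1 h
        · exact h
    · rw [mem_union, mem_union]; left; left
      rw [hN1, mem_product, mem_filter]
      exact ⟨⟨hq1, h1⟩, hq2⟩
  have hc1 : N1.card ≤ t ^ 2 * D ^ t := by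
    rw [hN1, card_product]
    calc (Om.filter (fun R => ¬ Injective R)).card * (NA E y).card
        ≤ (t ^ 2 * D ^ (t - 1)) * D := Nat.mul_le_mul_right _ (card_noninj (NA E y))
      _ = t ^ 2 * (D ^ (t - 1) * D) := by ring
      _ = t ^ 2 * D ^ t := by rw [← pow_succ, htt]
  have hc2 : N2.card ≤ t * D ^ t := by
    have : N2.card = ∑ x ∈ NA E y, (Om.filter (fun R => ∃ l, R l = x)).card := by
      rw [hN2, card_filter, sum_product_right]
      refine sum_congr rfl fun a _ => ?_
      rw [card_filter]
    rw [this]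
    calc ∑ x ∈ NA E y, (Om.filter (fun R => ∃ l, R l = x)).card
        ≤ ∑ x ∈ NA E y, t * D ^ (t - 1) := sum_le_sum fun x _ => card_coord (NA E y) x
      _ = t * (D ^ (t - 1) * D) := by
          rw [sum_const, smul_eq_mul, ← hDdef]; ring
      _ = t * D ^ t := by rw [← pow_succ, htt]
  have hc3 : ((Om ×ˢ NA E y).filter (fun q => bad q.1 q.2)).card ≤
      t ^ 2 * D ^ t + t * D ^ t + N3.card := by
    refine (card_le_card hcov).trans ?_
    refine (card_union_le _ _).trans ?_
    refine Nat.add_le_add ((card_union_le _ _).trans (Nat.add_le_add hc1 hc2)) card_image_le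
  rw [hOmc] at key
  have h5 : D ^ t * D < 4 * k * (t ^ 2 * D ^ t + t * D ^ t + N3.card) :=
    lt_of_lt_of_le key (Nat.mul_le_mul_left _ hc3)
  have h6 : 8 * k * (t ^ 2 + t) * D ^ t ≤ D * D ^ t := by
    apply Nat.mul_le_mul_right
    nlinarith
  have h7 : D ^ (t + 1) = D ^ t * D := pow_succ _ _
  nlinarith

end Pool.Agent.Helper55.RE
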