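import Pool.Agent.Helper55.RE.Closure

set_option autoImplicit false
set_option linter.unusedSectionVars false

namespace Pool.Agent.Helper55.RE

open Finset Function

open scoped Classical

/-- the bipartite graph of a pattern -/
def patGraph {P Q : Type} (Γ : P → Q → Prop) : SimpleGraph (P ⊕ Q) where
  Adj u v := match u, v with
    | Sum.inl p, Sum.inr q => Γ p q
    | Sum.inr q, Sum.inl p => Γ p q
    | _, _ => False
  symm := ⟨by
    rintro (p | q) (p' | q') h
    · exact h
    · exact h
    · exact h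
    · exact h⟩
  loopless := ⟨by
    rintro (p | q) h
    · exact h
    · exact h⟩

lemma patGraph_contained {P Q V : Type} (Γ : P → Q → Prop) (G : SimpleGraph V) (A B : Finset V)
    (hAB : Disjoint A B) (h : Contains Γ (fun (x : {x // x ∈ A}) (y : {y // y ∈ B}) => G.Adj x y)) :
    (patGraph Γ).IsContained G := by
  obtain ⟨f, g, hf, hg, hfg⟩ := h
  refine ⟨⟨⟨Sum.elim (fun p => (f p : V)) (fun q => (g q : V)), ?_⟩, ?_⟩⟩
  · rintro (p | q) (p' | q') h
    · exact absurd h (by simp [patGraph])
    · exact hfg p q' h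
    · exact (hfg p' q h).symm
    · exact absurd h (by simp [patGraph])
  · rintro (p | q) (p' | q') h
    · exact congrArg _ (hf (Subtype.val_injective h))
    · exfalso
      have h1 : (f p : V) = g q' := h
      exact (Finset.disjoint_left.mp hAB) (f p).2 (h1 ▸ (g q').2)
    · exfalso
      have h1 : (g q : V) = f p' := h
      exact (Finset.disjoint_left.mp hAB) (f p').2 (h1 ▸ (g q).2)
    · exact congrArg _ (hg (Subtype.val_injective h))

/-- From the bipartite bound to the extremal number. -/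
theorem extremal_of_bound {P Q : Type} (Γ : P → Q → Prop) (a b : ℕ) (hab : a < b)
    (h : Bound Γ a b) :
    ∃ C : ℝ, ∀ n : ℕ, ((SimpleGraph.extremalNumber n (patGraph Γ) : ℕ) : ℝ) ≤
      C * (n : ℝ) ^ (2 - (a : ℝ) / (b : ℝ)) := by
  obtain ⟨C, hC⟩ := h
  refine ⟨2 * (|C| + 1), fun n => ?_⟩
  have hb0 : (0 : ℝ) < b := by exact_mod_cast (by omega : 0 < b)
  have hnn : (0 : ℝ) ≤ 2 * (|C| + 1) * (n : ℝ) ^ (2 - (a : ℝ) / (b : ℝ)) := by positivity
  have key := (SimpleGraph.extremalNumber_le_iff_of_nonneg (V := Fin n) (patGraph Γ) hnn).mpr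
  rw [Fintype.card_fin] at key
  refine key ?_
  intro G hdec hfree
  by_contra hcon
  push Not at hcon
  apply hfree
  have hed : 0 < G.edgeFinset.card := by
    have : (0 : ℝ) < (G.edgeFinset.card : ℝ) := lt_of_le_of_lt hnn hcon
    exact_mod_cast this
  -- the cut
  obtain ⟨A, B, hAB, hU, hcut⟩ := max_cut G.Adj (fun u v h => h.symm)
    (fun v h => G.loopless.irrefl v h) (univ : Finset (Fin n))
  have hee : ee G.Adj (univ : Finset (Fin n)) univ = 2 * G.edgeFinset.card := by
    rw [SimpleGraph.two_mul_card_edgeFinset, ee]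
    simp only [dg, card_filter]
    rw [Fintype.sum_prod_type]
    refine sum_congr rfl fun x _ => sum_congr rfl fun y _ => ?_
    by_cases h : G.Adj x y
    · rw [if_pos h, if_pos h]
    · rw [if_neg h, if_neg h]
  set E : {x // x ∈ A} → {y // y ∈ B} → Prop := res G.Adj A B with hE
  have heR : eR E = ee G.Adj A B := by
    rw [eR, ee, ← sum_coe_sort A]
    exact sum_congr rfl fun x _ => card_NB_res G.Adj A B x
  have hhalf : (G.edgeFinset.card : ℝ) ≤ 2 * (eR E : ℝ) := by
    have : G.edgeFinset.card ≤ 2 * eR E := by rw [heR]; omega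
    exact_mod_cast this
  have hpos : 0 < eR E := by
    have : G.edgeFinset.card ≤ 2 * eR E := by rw [heR]; omega
    omega
  have hN : (Fintype.card {x // x ∈ A} : ℝ) + Fintype.card {y // y ∈ B} ≤ n := by
    rw [Fintype.card_coe, Fintype.card_coe]
    have h1 : (A ∪ B).card = A.card + B.card := card_union_of_disjoint hAB
    have h2 : (A ∪ B).card ≤ n := by
      refine (card_le_univ _).trans ?_
      rw [Fintype.card_fin]
    rw [h1] at h2
    exact_mod_cast h2
  have hcont : Contains Γ E := by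
    refine hC _ _ E n hN hpos ?_
    have hn0 : (0 : ℝ) ≤ n := Nat.cast_nonneg _
    have hpow : ((n : ℝ) ^ (2 - (a : ℝ) / (b : ℝ))) ^ b = (n : ℝ) ^ (2 * b - a) := by
      rw [← Real.rpow_natCast, ← Real.rpow_mul hn0, ← Real.rpow_natCast]
      congr 1
      rw [Nat.cast_sub (by omega)]
      push_cast
      field_simp
    have h3 : (|C| + 1) * (n : ℝ) ^ (2 - (a : ℝ) / (b : ℝ)) ≤ (eR E : ℝ) := by
      linarith
    have h4 : ((|C| + 1) * (n : ℝ) ^ (2 - (a : ℝ) / (b : ℝ))) ^ b ≤ (eR E : ℝ) ^ b :=
      pow_le_pow_left₀ (by positivity) h3 b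
    rw [mul_pow, hpow] at h4
    refine le_trans ?_ h4
    apply mul_le_mul_of_nonneg_right _ (by positivity)
    have h5 : 1 ≤ |C| + 1 := by have := abs_nonneg C; linarith
    calc C ≤ |C| + 1 := by have := le_abs_self C; linarith
      _ = (|C| + 1) ^ 1 := (pow_one _).symm
      _ ≤ (|C| + 1) ^ b := pow_le_pow_right₀ h5 (by omega)
  exact patGraph_contained Γ G A B hAB hcont

end Pool.Agent.Helper55.RE
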