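import Pool.Agent.Helper55.RE.Conflict

set_option autoImplicit false
set_option linter.unusedSectionVars false

namespace Pool.Agent.Helper55.RE

open Finset Function

open scoped Classical

variable {α β : Type*} [Fintype α] [Fintype β] (E : α → β → Prop)

/-- number of light `y` for given `x, R` -/
noncomputable def cc {t : ℕ} (L : ℕ) (x : α) (R : Fin t → α) : ℕ :=
  ((univ : Finset β).filter (fun y => Lt E L x y R)).card

lemma card_PP {t L : ℕ} (x x' : α) :
    (PP E t L x x').card = ∑ R : Fin t → α, cc E L x R * cc E L x' R := by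
  have h : PP E t L x x' = (univ : Finset (Fin t → α)).biUnion (fun R =>
      ((univ.filter (fun y => Lt E L x y R)) ×ˢ (univ.filter (fun y => Lt E L x' y R))).image
        (fun q => (q.1, q.2, R))) := by
    ext z
    simp only [mem_PP, mem_biUnion, mem_univ, true_and, mem_image, mem_product, mem_filter]
    constructor
    · intro h
      exact ⟨z.2.2, (z.1, z.2.1), h, rfl⟩
    · rintro ⟨R, q, hq, rfl⟩
      exact hq
  rw [h, card_biUnion]
  · refine sum_congr rfl fun R _ => ?_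
    rw [card_image_of_injective, card_product]
    · rfl
    · intro q q' hqq
      simp only [Prod.mk.injEq] at hqq
      exact Prod.ext hqq.1 hqq.2.1
  · intro R _ R' _ hne
    rw [Function.onFun, disjoint_left]
    intro z hz hz'
    rw [mem_image] at hz hz'
    obtain ⟨q, _, rfl⟩ := hz
    obtain ⟨q', _, h⟩ := hz'
    simp only [Prod.mk.injEq] at h
    exact hne h.2.2.symm

lemma nt_sq {k t : ℕ} (L : ℕ) :
    (∑ x : α, (∑ R : Fin t → α, (cc E L x R : ℝ)) ^ k) ^ 2 ≤
      ((Fintype.card α : ℝ) ^ (t * k)) * ∑ x : α, ∑ x' : α, ((PP E t L x x').card : ℝ) ^ k := by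
  have h1 : ∑ x : α, (∑ R : Fin t → α, (cc E L x R : ℝ)) ^ k =
      ∑ ρ : Fin k → Fin t → α, ∑ x : α, ∏ i, (cc E L x (ρ i) : ℝ) := by
    rw [sum_comm]
    refine sum_congr rfl fun x _ => ?_
    rw [Fintype.sum_pow]
  have h2 : ∑ x : α, ∑ x' : α, ((PP E t L x x').card : ℝ) ^ k =
      ∑ ρ : Fin k → Fin t → α, (∑ x : α, ∏ i, (cc E L x (ρ i) : ℝ)) ^ 2 := by
    calc ∑ x : α, ∑ x' : α, ((PP E t L x x').card : ℝ) ^ k
        = ∑ x : α, ∑ x' : α, ∑ ρ : Fin k → Fin t → α,
            (∏ i, (cc E L x (ρ i) : ℝ)) * ∏ i, (cc E L x' (ρ i) : ℝ) := by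
          refine sum_congr rfl fun x _ => sum_congr rfl fun x' _ => ?_
          rw [card_PP]
          push_cast
          rw [Fintype.sum_pow]
          refine sum_congr rfl fun ρ _ => ?_
          rw [prod_mul_distrib]
      _ = ∑ x : α, ∑ ρ : Fin k → Fin t → α, ∑ x' : α,
            (∏ i, (cc E L x (ρ i) : ℝ)) * ∏ i, (cc E L x' (ρ i) : ℝ) :=
          sum_congr rfl fun x _ => sum_comm
      _ = ∑ ρ : Fin k → Fin t → α, ∑ x : α, ∑ x' : α,
            (∏ i, (cc E L x (ρ i) : ℝ)) * ∏ i, (cc E L x' (ρ i) : ℝ) := sum_comm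
      _ = _ := by
          refine sum_congr rfl fun ρ _ => ?_
          rw [sq, sum_mul_sum]
  rw [h1, h2]
  have h3 := sq_sum_le_card_mul_sum_sq (s := (univ : Finset (Fin k → Fin t → α)))
    (f := fun ρ => ∑ x : α, ∏ i, (cc E L x (ρ i) : ℝ))
  refine h3.trans (le_of_eq ?_)
  congr 1
  rw [card_univ]
  simp only [Fintype.card_pi, prod_const, card_univ, Fintype.card_fin]
  push_cast
  rw [← pow_mul]

lemma light_sum {t : ℕ} (L : ℕ) :
    ∑ x : α, ∑ R : Fin t → α, cc E L x R =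
      ∑ y : β, ((univ : Finset (α × (Fin t → α))).filter (fun q => Lt E L q.1 y q.2)).card := by
  simp only [cc, card_filter]
  rw [← Fintype.sum_prod_type' (f := fun (x : α) (R : Fin t → α) =>
    ∑ y : β, if Lt E L x y R then 1 else 0)]
  rw [sum_comm]

/-- Lower bound for the number of pairs of extensions. -/
lemma pall_lower {k t : ℕ} (hk : 1 ≤ k) (L : ℕ) (Λ : ℝ) (hΛ0 : 0 ≤ Λ)
    (hΛ : Λ ≤ ∑ y : β, (((univ : Finset (α × (Fin t → α))).filter
      (fun q => Lt E L q.1 y q.2)).card : ℝ)) (m : ℝ) (hm : (Fintype.card α : ℝ) ≤ m) :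
    Λ ^ (2 * k) ≤ m ^ (2 * (k - 1) + t * k) *
      ∑ x : α, ∑ x' : α, ((PP E t L x x').card : ℝ) ^ k := by
  set a := (Fintype.card α : ℝ) with ha
  have ha0 : 0 ≤ a := Nat.cast_nonneg _
  have hls : (∑ y : β, (((univ : Finset (α × (Fin t → α))).filter
      (fun q => Lt E L q.1 y q.2)).card : ℝ)) = ∑ x : α, ∑ R : Fin t → α, (cc E L x R : ℝ) := by
    exact_mod_cast (light_sum (t := t) E L).symm
  rw [hls] at hΛ
  set N := ∑ x : α, (∑ R : Fin t → α, (cc E L x R : ℝ)) ^ k with hN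
  have h1 : Λ ^ k ≤ a ^ (k - 1) * N := by
    have h2 := pow_sum_le_card_mul_sum_pow (s := (univ : Finset α))
      (f := fun x => ∑ R : Fin t → α, (cc E L x R : ℝ)) (fun x _ => sum_nonneg fun R _ =>
        Nat.cast_nonneg _) (k - 1)
    rw [Nat.sub_add_cancel hk, card_univ] at h2
    exact (pow_le_pow_left₀ hΛ0 hΛ k).trans h2
  have hP0 : 0 ≤ ∑ x : α, ∑ x' : α, ((PP E t L x x').card : ℝ) ^ k :=
    sum_nonneg fun x _ => sum_nonneg fun x' _ => by positivity
  have hN0 : 0 ≤ N := sum_nonneg fun x _ => pow_nonneg (sum_nonneg fun R _ => Nat.cast_nonneg _) _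
  calc Λ ^ (2 * k) = (Λ ^ k) ^ 2 := by rw [← pow_mul, mul_comm]
    _ ≤ (a ^ (k - 1) * N) ^ 2 := pow_le_pow_left₀ (by positivity) h1 2
    _ = a ^ (2 * (k - 1)) * N ^ 2 := by rw [mul_pow, ← pow_mul, mul_comm (k - 1) 2]
    _ ≤ a ^ (2 * (k - 1)) * (a ^ (t * k) *
          ∑ x : α, ∑ x' : α, ((PP E t L x x').card : ℝ) ^ k) :=
        mul_le_mul_of_nonneg_left (nt_sq E L) (by positivity)
    _ = a ^ (2 * (k - 1) + t * k) * ∑ x : α, ∑ x' : α, ((PP E t L x x').card : ℝ) ^ k := by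
        rw [pow_add]; ring
    _ ≤ _ := mul_le_mul_of_nonneg_right (pow_le_pow_left₀ ha0 hm _) hP0

end Pool.Agent.Helper55.RE
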