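import Mathlib

set_option autoImplicit false
set_option linter.unusedSectionVars false

namespace Pool.Agent.Helper55.RE

open Finset Function

open scoped Classical

variable {V : Type*} (adj : V → V → Prop)

/-- degree into `A` -/
noncomputable def dg (A : Finset V) (v : V) : ℕ := (A.filter (fun u => adj v u)).card

/-- number of adjacent ordered pairs in `A × B` -/
noncomputable def ee (A B : Finset V) : ℕ := ∑ v ∈ A, dg adj B v

lemma dg_union {A B : Finset V} (h : Disjoint A B) (v : V) :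
    dg adj (A ∪ B) v = dg adj A v + dg adj B v := by
  rw [dg, filter_union, card_union_of_disjoint]
  · rfl
  · exact disjoint_filter_filter h

lemma dg_mono {A B : Finset V} (h : A ⊆ B) (v : V) : dg adj A v ≤ dg adj B v :=
  card_le_card (filter_subset_filter _ h)

lemma dg_le_card (A : Finset V) (v : V) : dg adj A v ≤ A.card := card_le_card (filter_subset _ _)

lemma ee_union_left {A B : Finset V} (h : Disjoint A B) (C : Finset V) :
    ee adj (A ∪ B) C = ee adj A C + ee adj B C := by
  rw [ee, sum_union h]; rfl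

lemma ee_union_right {A B : Finset V} (h : Disjoint A B) (C : Finset V) :
    ee adj C (A ∪ B) = ee adj C A + ee adj C B := by
  rw [ee, ee, ee, ← sum_add_distrib]
  exact sum_congr rfl fun v _ => dg_union adj h v

lemma ee_mono {A B A' B' : Finset V} (h : A ⊆ A') (h' : B ⊆ B') : ee adj A B ≤ ee adj A' B' := by
  refine (sum_le_sum fun v _ => dg_mono adj h' v).trans ?_
  exact sum_le_sum_of_subset h

lemma ee_comm (hs : ∀ u v, adj u v → adj v u) (A B : Finset V) : ee adj A B = ee adj B A := by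
  simp only [ee, dg, card_filter]
  rw [sum_comm]
  refine sum_congr rfl fun v _ => sum_congr rfl fun u _ => ?_
  by_cases h : adj u v
  · rw [if_pos h, if_pos (hs _ _ h)]
  · rw [if_neg h, if_neg (fun h' => h (hs _ _ h'))]

lemma ee_singleton_left (v : V) (A : Finset V) : ee adj {v} A = dg adj A v := by
  simp [ee]

lemma ee_split (Y : Finset V) (P : V → Prop) [DecidablePred P] :
    ee adj Y Y = ee adj (Y.filter P) (Y.filter P) +
      ee adj (Y.filter P) (Y.filter (fun v => ¬ P v)) +
      (ee adj (Y.filter (fun v => ¬ P v)) (Y.filter P) +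
        ee adj (Y.filter (fun v => ¬ P v)) (Y.filter (fun v => ¬ P v))) := by
  have hAB : Disjoint (Y.filter P) (Y.filter (fun v => ¬ P v)) := disjoint_filter_filter_not _ _ _
  have hU : Y.filter P ∪ Y.filter (fun v => ¬ P v) = Y := filter_union_filter_not_eq _ _
  conv_lhs => rw [← hU]
  rw [ee_union_left _ hAB, ee_union_right _ hAB, ee_union_right _ hAB]

/-- A bipartite subgraph with at least half of the edges. -/
lemma max_cut (hs : ∀ u v, adj u v → adj v u) (hirr : ∀ v, ¬ adj v v) (W : Finset V) :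
    ∃ A B : Finset V, Disjoint A B ∧ A ∪ B = W ∧ ee adj W W ≤ 4 * ee adj A B := by
  induction W using Finset.induction_on with
  | empty => exact ⟨∅, ∅, disjoint_empty_left _, by simp, by simp [ee]⟩
  | insert v W hv ih =>
    obtain ⟨A, B, hAB, hU, hle⟩ := ih
    have hvA : v ∉ A := fun h => hv (hU ▸ mem_union_left _ h)
    have hvB : v ∉ B := fun h => hv (hU ▸ mem_union_right _ h)
    have hins : ∀ C : Finset V, insert v C = {v} ∪ C := fun C => insert_eq v C
    have hvv : dg adj {v} v = 0 := by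
      rw [dg, card_eq_zero, filter_eq_empty_iff]
      intro u hu
      rw [mem_singleton] at hu
      rw [hu]; exact hirr v
    have hW : ee adj (insert v W) (insert v W) = ee adj W W + 2 * dg adj W v := by
      have hd : Disjoint {v} W := disjoint_singleton_left.mpr hv
      rw [hins, ee_union_left adj hd, ee_union_right adj hd, ee_union_right adj hd,
        ee_singleton_left, ee_singleton_left, ee_comm adj hs W {v}, ee_singleton_left, hvv]
      ring
    have hdW : dg adj W v = dg adj A v + dg adj B v := by rw [← hU, dg_union adj hAB]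
    rcases le_total (dg adj B v) (dg adj A v) with h | h
    · refine ⟨A, insert v B, ?_, ?_, ?_⟩
      · rw [disjoint_insert_right]; exact ⟨hvA, hAB⟩
      · rw [union_insert, hU]
      · have hd : Disjoint {v} B := disjoint_singleton_left.mpr hvB
        rw [hW, hins B, ee_union_right adj hd, ee_comm adj hs A {v}, ee_singleton_left]
        omega
    · refine ⟨insert v A, B, ?_, ?_, ?_⟩
      · rw [disjoint_insert_left]; exact ⟨hvB, hAB⟩
      · rw [insert_union, hU]
      · have hd : Disjoint {v} A := disjoint_singleton_left.mpr hvA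
        rw [hW, hins A, ee_union_left adj hd, ee_singleton_left]
        omega

/-- A subset of prescribed size with at least the average weight. -/
lemma top_subset (f : V → ℕ) (s : ℕ) (Y : Finset V) (hs : s ≤ Y.card) :
    ∃ W ⊆ Y, W.card = s ∧ s * ∑ v ∈ Y, f v ≤ Y.card * ∑ v ∈ W, f v := by
  induction hn : Y.card - s generalizing Y with
  | zero =>
    have : Y.card = s := by omega
    exact ⟨Y, Subset.refl _, this, by rw [this]⟩
  | succ n ih =>
    have hYne : Y.Nonempty := by rw [← card_pos]; omega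
    obtain ⟨y0, hy0, hmin⟩ := exists_min_image Y f hYne
    have hcard : (Y.erase y0).card = Y.card - 1 := card_erase_of_mem hy0
    obtain ⟨W, hW, hWc, hle⟩ := ih (Y.erase y0) (by omega) (by omega)
    refine ⟨W, hW.trans (erase_subset _ _), hWc, ?_⟩
    have h1 : ∑ v ∈ Y, f v = f y0 + ∑ v ∈ Y.erase y0, f v := (add_sum_erase Y f hy0).symm
    have h2 : s * f y0 ≤ ∑ v ∈ W, f v := by
      rw [← hWc, ← smul_eq_mul, ← sum_const]
      exact sum_le_sum fun v hv => hmin v (mem_of_mem_erase (hW hv))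
    rw [hcard] at hle
    obtain ⟨q, hq⟩ : ∃ q, Y.card = q + 1 := ⟨Y.card - 1, by omega⟩
    rw [hq] at hle ⊢
    simp only [Nat.add_sub_cancel] at hle
    rw [h1, mul_add, add_mul, one_mul]
    omega

/-- The regularisation statement. -/
theorem reg [Fintype V] (hsym : ∀ u v, adj u v → adj v u) (S S' : V → Prop)
    (hcuts : ∀ Y : Finset V, ∃ A B : Finset V, Disjoint A B ∧ A ⊆ Y ∧ B ⊆ Y ∧
      ee adj Y Y ≤ 4 * ee adj A B ∧ (∀ v ∈ A, S v) ∧ (∀ v ∈ B, S' v)) (b c : ℕ) (hb : 1 ≤ b)
    (hc : 1 ≤ c) (hpos : 0 < ee adj (univ : Finset V) univ) :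
    ∃ (A B : Finset V) (m d : ℝ), (∀ v ∈ A, S v) ∧ (∀ v ∈ B, S' v) ∧ Disjoint A B ∧ 1 ≤ m ∧ 0 < d ∧ (A.card : ℝ) ≤ m ∧
      (B.card : ℝ) ≤ m ∧ (∀ y ∈ B, d ≤ (dg adj A y : ℝ)) ∧
      (∀ y ∈ B, (dg adj A y : ℝ) ≤ (16 * (2 ^ (b + c) * 16 ^ b)) * d) ∧
      (∀ x ∈ A, (dg adj B x : ℝ) ≤ (16 * (2 ^ (b + c) * 16 ^ b)) * d) ∧
      m * d ≤ ∑ y ∈ B, (dg adj A y : ℝ) ∧
      (ee adj (univ : Finset V) univ : ℝ) ^ b * m ^ c ≤
        (16 * d) ^ b * (Fintype.card V : ℝ) ^ (b + c) := by
  set f : Finset V → ℝ := fun U => (ee adj U U : ℝ) ^ b / (U.card : ℝ) ^ (b + c) with hf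
  obtain ⟨U, hUmem, hUmax⟩ := exists_max_image ((univ : Finset (Finset V)).filter
    (fun U => U.Nonempty)) f (by
      refine ⟨univ, ?_⟩
      rw [mem_filter]
      refine ⟨mem_univ _, ?_⟩
      by_contra hne
      rw [not_nonempty_iff_eq_empty] at hne
      rw [hne] at hpos
      simp [ee] at hpos)
  have hUne : U.Nonempty := (mem_filter.mp hUmem).2
  set m : ℝ := (U.card : ℝ) with hm
  have hm1 : 1 ≤ m := by
    rw [hm]; exact_mod_cast hUne.card_pos
  have hm0 : 0 < m := by linarith
  set e : ℝ := (ee adj U U : ℝ) with he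
  have huniv : (univ : Finset V).Nonempty := by
    by_contra hne
    rw [not_nonempty_iff_eq_empty] at hne
    rw [hne] at hpos
    simp [ee] at hpos
  have hn0 : 0 < (Fintype.card V : ℝ) := by
    have := huniv.card_pos
    rw [card_univ] at this
    exact_mod_cast this
  -- maximality
  have hmax : ∀ W : Finset V, (ee adj W W : ℝ) ^ b * m ^ (b + c) ≤ e ^ b * (W.card : ℝ) ^ (b + c) := by
    intro W
    rcases W.eq_empty_or_nonempty with h | h
    · rw [h]
      have : ee adj (∅ : Finset V) ∅ = 0 := by simp [ee]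
      rw [this]
      have hz : ((0 : ℕ) : ℝ) ^ b = 0 := by rw [Nat.cast_zero, zero_pow (by omega)]
      rw [hz, zero_mul]
      positivity
    · have h1 := hUmax W (mem_filter.mpr ⟨mem_univ _, h⟩)
      simp only [hf] at h1
      have hWp : (0 : ℝ) < (W.card : ℝ) := by exact_mod_cast h.card_pos
      rw [div_le_div_iff₀ (by positivity) (by positivity)] at h1
      exact h1
  have hbase := hmax univ
  rw [card_univ] at hbase
  have he0 : 0 < e := by
    have h1 : (0 : ℝ) < (ee adj (univ : Finset V) univ : ℝ) := by exact_mod_cast hpos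
    have h2 : 0 < (ee adj (univ : Finset V) univ : ℝ) ^ b * m ^ (b + c) := by positivity
    have h3 : 0 < e ^ b * (Fintype.card V : ℝ) ^ (b + c) := lt_of_lt_of_le h2 hbase
    have he' : 0 ≤ e := Nat.cast_nonneg _
    rcases eq_or_lt_of_le he' with h | h
    · rw [← h, zero_pow (by omega), zero_mul] at h3
      exact absurd h3 (lt_irrefl _)
    · exact h
  set K0 : ℝ := 2 ^ (b + c) * 16 ^ b with hK0
  have hK016 : 16 ≤ K0 := by
    have h1 : (1 : ℝ) ≤ 2 ^ (b + c) := one_le_pow₀ (by norm_num)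
    have h2 : (16 : ℝ) ≤ 16 ^ b := by
      calc (16 : ℝ) = 16 ^ 1 := (pow_one _).symm
        _ ≤ 16 ^ b := pow_le_pow_right₀ (by norm_num) hb
    nlinarith
  have hK0pos : 0 < K0 := by linarith
  set X := U.filter (fun v => K0 * e < m * (dg adj U v : ℝ)) with hX
  set Y := U.filter (fun v => ¬ (K0 * e < m * (dg adj U v : ℝ))) with hY
  have hXY : Disjoint X Y := disjoint_filter_filter_not _ _ _
  have hXYU : X ∪ Y = U := filter_union_filter_not_eq _ _
  have hXcard : (X.card : ℝ) * K0 ≤ m := by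
    have h1 : (X.card : ℝ) * (K0 * e) ≤ m * e := by
      calc (X.card : ℝ) * (K0 * e) = ∑ v ∈ X, K0 * e := by rw [sum_const, nsmul_eq_mul]
        _ ≤ ∑ v ∈ X, m * (dg adj U v : ℝ) := sum_le_sum fun v hv => (mem_filter.mp hv).2.le
        _ ≤ ∑ v ∈ U, m * (dg adj U v : ℝ) :=
            sum_le_sum_of_subset_of_nonneg (filter_subset _ _) fun _ _ _ => by positivity
        _ = m * e := by rw [← mul_sum, he, ee]; push_cast; rfl
    rw [← mul_assoc] at h1
    exact le_of_mul_le_mul_right h1 he0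
  -- edges inside X
  have hpow16 : ∀ z : ℝ, 0 ≤ z → z ^ b * 16 ^ b ≤ e ^ b → z ≤ e / 16 := by
    intro z hz h
    rw [le_div_iff₀ (by norm_num)]
    rw [← mul_pow] at h
    exact le_of_pow_le_pow_left₀ (by omega) he0.le h
  have hXX : (ee adj X X : ℝ) ≤ e / 16 := by
    apply hpow16 _ (Nat.cast_nonneg _)
    have h1 := hmax X
    have h2 : (X.card : ℝ) ^ (b + c) * K0 ^ (b + c) ≤ m ^ (b + c) := by
      rw [← mul_pow]; exact pow_le_pow_left₀ (by positivity) hXcard _
    have h3 : (16 : ℝ) ^ b ≤ K0 ^ (b + c) := by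
      calc (16 : ℝ) ^ b ≤ K0 ^ b := pow_le_pow_left₀ (by norm_num) hK016 b
        _ ≤ K0 ^ (b + c) := pow_le_pow_right₀ (by linarith) (by omega)
    have h4 : ((ee adj X X : ℝ) ^ b * K0 ^ (b + c)) * m ^ (b + c) ≤ e ^ b * m ^ (b + c) := by
      calc ((ee adj X X : ℝ) ^ b * K0 ^ (b + c)) * m ^ (b + c)
          = ((ee adj X X : ℝ) ^ b * m ^ (b + c)) * K0 ^ (b + c) := by ring
        _ ≤ (e ^ b * (X.card : ℝ) ^ (b + c)) * K0 ^ (b + c) :=
            mul_le_mul_of_nonneg_right h1 (by positivity)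
        _ = e ^ b * ((X.card : ℝ) ^ (b + c) * K0 ^ (b + c)) := by ring
        _ ≤ e ^ b * m ^ (b + c) := mul_le_mul_of_nonneg_left h2 (by positivity)
    have h5 := le_of_mul_le_mul_right h4 (by positivity)
    refine le_trans ?_ h5
    exact mul_le_mul_of_nonneg_left h3 (by positivity)
  -- edges between X and Y
  have hcardXY : X.card + Y.card = U.card := card_filter_add_card_filter_not _
  have hXYcard : X.card ≤ Y.card := by
    have h1 : (X.card : ℝ) * 2 ≤ m := by
      have : (0 : ℝ) ≤ X.card := Nat.cast_nonneg _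
      nlinarith
    have h2 : X.card * 2 ≤ U.card := by
      rw [hm] at h1; exact_mod_cast h1
    omega
  have hXYe : (ee adj X Y : ℝ) ≤ e / 16 := by
    rcases X.eq_empty_or_nonempty with hX0 | hXne
    · rw [hX0]
      have : ee adj (∅ : Finset V) Y = 0 := by simp [ee]
      rw [this]; simp; positivity
    · apply hpow16 _ (Nat.cast_nonneg _)
      obtain ⟨W, hWY, hWc, hWle⟩ := top_subset (fun y => dg adj X y) X.card Y hXYcard
      have hs0 : (0 : ℝ) < (X.card : ℝ) := by exact_mod_cast hXne.card_pos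
      set s : ℝ := (X.card : ℝ) with hsdef
      have hYX : ∑ v ∈ Y, dg adj X v = ee adj X Y := (ee_comm adj hsym X Y).symm
      have hWX : ∑ v ∈ W, dg adj X v ≤ ee adj (X ∪ W) (X ∪ W) := by
        have : ∑ v ∈ W, dg adj X v = ee adj W X := rfl
        rw [this]
        exact ee_mono adj subset_union_right subset_union_left
      have h1 : s * (ee adj X Y : ℝ) ≤ m * (ee adj (X ∪ W) (X ∪ W) : ℝ) := by
        have h2 : X.card * ee adj X Y ≤ U.card * ee adj (X ∪ W) (X ∪ W) := by
          rw [← hYX]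
          calc X.card * ∑ v ∈ Y, dg adj X v ≤ Y.card * ∑ v ∈ W, dg adj X v := hWle
            _ ≤ U.card * ee adj (X ∪ W) (X ∪ W) := Nat.mul_le_mul (by omega) hWX
        rw [hsdef, hm]; exact_mod_cast h2
      have hcW : ((X ∪ W).card : ℝ) ≤ 2 * s := by
        have h2 : (X ∪ W).card ≤ X.card + W.card := card_union_le _ _
        rw [hWc] at h2
        have h3 : ((X ∪ W).card : ℝ) ≤ (X.card : ℝ) + X.card := by exact_mod_cast h2
        rw [hsdef]; linarith
      have h3 := hmax (X ∪ W)
      have h4 : (s * (ee adj X Y : ℝ)) ^ b * m ^ (b + c) ≤ m ^ b * (e ^ b * (2 * s) ^ (b + c)) := by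
        calc (s * (ee adj X Y : ℝ)) ^ b * m ^ (b + c)
            ≤ (m * (ee adj (X ∪ W) (X ∪ W) : ℝ)) ^ b * m ^ (b + c) := by
              apply mul_le_mul_of_nonneg_right _ (by positivity)
              exact pow_le_pow_left₀ (by positivity) h1 b
          _ = m ^ b * ((ee adj (X ∪ W) (X ∪ W) : ℝ) ^ b * m ^ (b + c)) := by rw [mul_pow]; ring
          _ ≤ m ^ b * (e ^ b * ((X ∪ W).card : ℝ) ^ (b + c)) :=
              mul_le_mul_of_nonneg_left h3 (by positivity)
          _ ≤ m ^ b * (e ^ b * (2 * s) ^ (b + c)) := by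
              have : ((X ∪ W).card : ℝ) ^ (b + c) ≤ (2 * s) ^ (b + c) :=
                pow_le_pow_left₀ (Nat.cast_nonneg _) hcW _
              gcongr
      have h5 : (s ^ b * m ^ b) * ((ee adj X Y : ℝ) ^ b * m ^ c) ≤
          (s ^ b * m ^ b) * (e ^ b * 2 ^ (b + c) * s ^ c) := by
        calc (s ^ b * m ^ b) * ((ee adj X Y : ℝ) ^ b * m ^ c)
            = (s * (ee adj X Y : ℝ)) ^ b * m ^ (b + c) := by rw [mul_pow, pow_add]; ring
          _ ≤ m ^ b * (e ^ b * (2 * s) ^ (b + c)) := h4
          _ = _ := by rw [mul_pow 2 s, pow_add s]; ring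
      have h6 := le_of_mul_le_mul_left h5 (by positivity)
      have h7 : s ^ c * K0 ≤ m ^ c := by
        calc s ^ c * K0 ≤ s ^ c * K0 ^ c := by
              apply mul_le_mul_of_nonneg_left _ (by positivity)
              calc K0 = K0 ^ 1 := (pow_one _).symm
                _ ≤ K0 ^ c := pow_le_pow_right₀ (by linarith) hc
          _ = (s * K0) ^ c := (mul_pow _ _ _).symm
          _ ≤ m ^ c := pow_le_pow_left₀ (by positivity) hXcard _
      have h8 : m ^ c * ((ee adj X Y : ℝ) ^ b * 16 ^ b) ≤ m ^ c * e ^ b := by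
        calc m ^ c * ((ee adj X Y : ℝ) ^ b * 16 ^ b)
            = ((ee adj X Y : ℝ) ^ b * m ^ c) * 16 ^ b := by ring
          _ ≤ (e ^ b * 2 ^ (b + c) * s ^ c) * 16 ^ b :=
              mul_le_mul_of_nonneg_right h6 (by positivity)
          _ = e ^ b * (s ^ c * K0) := by rw [hK0]; ring
          _ ≤ e ^ b * m ^ c := mul_le_mul_of_nonneg_left h7 (by positivity)
          _ = _ := mul_comm _ _
      exact le_of_mul_le_mul_left h8 (by positivity)
  -- edges inside Y
  have hYY : (13 / 16) * e ≤ (ee adj Y Y : ℝ) := by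
    have h1 : ee adj U U = ee adj X X + ee adj X Y + (ee adj X Y + ee adj Y Y) := by
      rw [← hXYU, ee_union_left adj hXY, ee_union_right adj hXY, ee_union_right adj hXY,
        ee_comm adj hsym Y X]
    have h2 : e = (ee adj X X : ℝ) + ee adj X Y + (ee adj X Y + ee adj Y Y) := by
      rw [he]; exact_mod_cast h1
    linarith
  obtain ⟨A, B0, hAB, hAY, hBY, hcut, hAS, hBS⟩ := hcuts Y
  have hcut' : (3 / 16) * e ≤ (ee adj A B0 : ℝ) := by
    have h1 : (ee adj Y Y : ℝ) ≤ 4 * (ee adj A B0 : ℝ) := by exact_mod_cast hcut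
    linarith
  have hYU : Y ⊆ U := filter_subset _ _
  set d : ℝ := e / (16 * m) with hd
  have hd0 : 0 < d := by positivity
  set B := B0.filter (fun y => d ≤ (dg adj A y : ℝ)) with hB
  have hBB0 : B ⊆ B0 := filter_subset _ _
  have hYdeg : ∀ y ∈ Y, (dg adj U y : ℝ) ≤ (16 * K0) * d := by
    intro y hy
    have h1 := (mem_filter.mp hy).2
    rw [not_lt] at h1
    rw [hd]
    have h2 : 16 * K0 * (e / (16 * m)) = K0 * e / m := by field_simp
    rw [h2, le_div_iff₀ hm0]
    linarith
  refine ⟨A, B, m, d, hAS, fun v hv => hBS v (hBB0 hv), disjoint_of_subset_right hBB0 hAB, hm1, hd0, ?_, ?_, ?_, ?_, ?_, ?_, ?_⟩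
  · rw [hm]; exact_mod_cast card_le_card (hAY.trans hYU)
  · rw [hm]; exact_mod_cast card_le_card (hBB0.trans (hBY.trans hYU))
  · intro y hy; exact (mem_filter.mp hy).2
  · intro y hy
    refine le_trans ?_ (hYdeg y (hBY (hBB0 hy)))
    exact_mod_cast dg_mono adj (hAY.trans hYU) y
  · intro x hx
    refine le_trans ?_ (hYdeg x (hAY hx))
    exact_mod_cast dg_mono adj (hBB0.trans (hBY.trans hYU)) x
  · have h1 : (ee adj A B0 : ℝ) = ∑ y ∈ B0, (dg adj A y : ℝ) := by
      rw [ee_comm adj hsym A B0, ee]; push_cast; rfl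
    have h2 : ∑ y ∈ B0, (dg adj A y : ℝ) = ∑ y ∈ B, (dg adj A y : ℝ) +
        ∑ y ∈ B0.filter (fun y => ¬ (d ≤ (dg adj A y : ℝ))), (dg adj A y : ℝ) :=
      (sum_filter_add_sum_filter_not _ _ _).symm
    have h3 : ∑ y ∈ B0.filter (fun y => ¬ (d ≤ (dg adj A y : ℝ))), (dg adj A y : ℝ) ≤ m * d := by
      calc ∑ y ∈ B0.filter (fun y => ¬ (d ≤ (dg adj A y : ℝ))), (dg adj A y : ℝ)
          ≤ ∑ y ∈ B0.filter (fun y => ¬ (d ≤ (dg adj A y : ℝ))), d :=
            sum_le_sum fun y hy => (not_le.mp (mem_filter.mp hy).2).le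
        _ = ((B0.filter (fun y => ¬ (d ≤ (dg adj A y : ℝ)))).card : ℝ) * d := by
            rw [sum_const, nsmul_eq_mul]
        _ ≤ m * d := by
            apply mul_le_mul_of_nonneg_right _ hd0.le
            rw [hm]
            exact_mod_cast card_le_card ((filter_subset _ _).trans (hBY.trans hYU))
    have h4 : m * d = e / 16 := by rw [hd]; field_simp
    linarith
  · have h1 : 16 * d = e / m := by rw [hd]; field_simp
    rw [h1, div_pow]
    have h2 : e ^ b / m ^ b * (Fintype.card V : ℝ) ^ (b + c) =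
        e ^ b * (Fintype.card V : ℝ) ^ (b + c) / m ^ b := by ring
    rw [h2, le_div_iff₀ (by positivity)]
    calc (ee adj (univ : Finset V) univ : ℝ) ^ b * m ^ c * m ^ b
        = (ee adj (univ : Finset V) univ : ℝ) ^ b * m ^ (b + c) := by rw [pow_add]; ring
      _ ≤ _ := hbase

end Pool.Agent.Helper55.RE
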