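import Pool.Agent.Helper55.RE.Reg
import Pool.Agent.Helper55.RE.Core

set_option autoImplicit false
set_option linter.unusedSectionVars false

namespace Pool.Agent.Helper55.RE

open Finset Function

open scoped Classical

variable {α β : Type*}

/-- symmetric relation on the disjoint union -/
def sadj (E : α → β → Prop) : α ⊕ β → α ⊕ β → Prop
  | Sum.inl x, Sum.inr y => E x y
  | Sum.inr y, Sum.inl x => E x y
  | Sum.inl _, Sum.inl _ => False
  | Sum.inr _, Sum.inr _ => False

lemma sadj_symm (E : α → β → Prop) : ∀ u v, sadj E u v → sadj E v u := by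
  rintro (x | y) (x' | y') h <;> exact h

/-- restriction of a relation -/
def res (E : α → β → Prop) (A : Finset α) (B : Finset β) : {x // x ∈ A} → {y // y ∈ B} → Prop :=
  fun x y => E x y

/-- number of pairs -/
noncomputable def eR [Fintype α] [Fintype β] (E : α → β → Prop) : ℕ := ∑ x, (NB E x).card

lemma eR_eq [Fintype α] [Fintype β] (E : α → β → Prop) : eR E = ∑ y, (NA E y).card := by
  simp only [eR, NB, NA, card_filter]
  rw [sum_comm]

lemma card_sub_filter {γ : Type*} (A : Finset γ) (q : γ → Prop) :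
    ((univ : Finset {x // x ∈ A}).filter (fun x : {x // x ∈ A} => q x.1)).card =
      (A.filter q).card := by
  rw [← card_map (Embedding.subtype (fun x => x ∈ A))]
  congr 1
  ext x
  simp only [mem_map, mem_filter, mem_univ, true_and, Embedding.coe_subtype, Subtype.exists,
    exists_and_left, exists_prop, exists_eq_right_right]
  tauto

lemma card_NA_res (E : α → β → Prop) (A : Finset α) (B : Finset β) (y : {y // y ∈ B}) :
    (NA (res E A B) y).card = (A.filter (fun x => E x y)).card := by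
  rw [NA]
  exact card_sub_filter A (fun x => E x y)

lemma card_NB_res (E : α → β → Prop) (A : Finset α) (B : Finset β) (x : {x // x ∈ A}) :
    (NB (res E A B) x).card = (B.filter (fun y => E x y)).card := by
  rw [NB]
  exact card_sub_filter B (fun y => E x y)

lemma dg_sadj_inr (E : α → β → Prop) (A : Finset (α ⊕ β)) (y : β) :
    dg (sadj E) A (Sum.inr y) = (A.toLeft.filter (fun x => E x y)).card := by
  rw [dg, ← card_map (Embedding.inl : α ↪ α ⊕ β)]
  congr 1
  ext v
  simp only [mem_filter, mem_map, mem_toLeft, Embedding.inl_apply]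
  constructor
  · rintro ⟨h1, h2⟩
    rcases v with x | y'
    · exact ⟨x, ⟨h1, h2⟩, rfl⟩
    · exact absurd h2 (by simp [sadj])
  · rintro ⟨x, ⟨h1, h2⟩, rfl⟩
    exact ⟨h1, h2⟩

lemma dg_sadj_inl (E : α → β → Prop) (B : Finset (α ⊕ β)) (x : α) :
    dg (sadj E) B (Sum.inl x) = (B.toRight.filter (fun y => E x y)).card := by
  rw [dg, ← card_map (Embedding.inr : β ↪ α ⊕ β)]
  congr 1
  ext v
  simp only [mem_filter, mem_map, mem_toRight, Embedding.inr_apply]
  constructor
  · rintro ⟨h1, h2⟩
    rcases v with x' | y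
    · exact absurd h2 (by simp [sadj])
    · exact ⟨y, ⟨h1, h2⟩, rfl⟩
  · rintro ⟨y, ⟨h1, h2⟩, rfl⟩
    exact ⟨h1, h2⟩

lemma sadj_cut (E : α → β → Prop) (Y : Finset (α ⊕ β)) :
    ∃ A B : Finset (α ⊕ β), Disjoint A B ∧ A ⊆ Y ∧ B ⊆ Y ∧
      ee (sadj E) Y Y ≤ 4 * ee (sadj E) A B ∧ (∀ v ∈ A, v.isLeft = true) ∧
      (∀ v ∈ B, v.isRight = true) := by
  set A := Y.filter (fun v => v.isLeft = true) with hA
  set B := Y.filter (fun v => ¬ (v.isLeft = true)) with hB
  have hAB : Disjoint A B := disjoint_filter_filter_not _ _ _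
  have hU := ee_split (sadj E) Y (fun v => v.isLeft = true)
  have hAA : ee (sadj E) A A = 0 := by
    rw [ee]
    refine sum_eq_zero fun v hv => ?_
    rw [dg, card_eq_zero, filter_eq_empty_iff]
    intro u hu
    have h1 := (mem_filter.mp hv).2
    have h2 := (mem_filter.mp hu).2
    rcases v with x | y
    · rcases u with x' | y'
      · simp [sadj]
      · simp at h2
    · simp at h1
  have hBB : ee (sadj E) B B = 0 := by
    rw [ee]
    refine sum_eq_zero fun v hv => ?_
    rw [dg, card_eq_zero, filter_eq_empty_iff]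
    intro u hu
    have h1 := (mem_filter.mp hv).2
    have h2 := (mem_filter.mp hu).2
    rcases v with x | y
    · simp at h1
    · rcases u with x' | y'
      · simp at h2
      · simp [sadj]
  refine ⟨A, B, hAB, filter_subset _ _, filter_subset _ _, ?_, ?_, ?_⟩
  · have hU' : ee (sadj E) Y Y = ee (sadj E) A A + ee (sadj E) A B +
        (ee (sadj E) B A + ee (sadj E) B B) := hU
    rw [hU', hAA, hBB, ee_comm (sadj E) (sadj_symm E) B A]
    omega
  · intro v hv; exact (mem_filter.mp hv).2
  · intro v hv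
    have := (mem_filter.mp hv).2
    rcases v with x | y
    · simp at this
    · rfl

lemma ee_sadj_univ [Fintype α] [Fintype β] (E : α → β → Prop) :
    ee (sadj E) (univ : Finset (α ⊕ β)) univ = 2 * eR E := by
  rw [ee, Fintype.sum_sum_type]
  have h1 : ∀ x : α, dg (sadj E) univ (Sum.inl x) = (NB E x).card := by
    intro x
    rw [dg_sadj_inl, NB]
    congr 1
    ext y; simp
  have h2 : ∀ y : β, dg (sadj E) univ (Sum.inr y) = (NA E y).card := by
    intro y
    rw [dg_sadj_inr, NA]
    congr 1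
    ext x; simp
  simp only [h1, h2]
  rw [← eR_eq E]
  change eR E + eR E = _
  ring

/-- the regularity constant -/
noncomputable def KK (b c : ℕ) : ℝ := 16 * (2 ^ (b + c) * 16 ^ b)

lemma one_le_KK (b c : ℕ) : 1 ≤ KK b c := by
  rw [KK]
  have h1 : (1 : ℝ) ≤ 2 ^ (b + c) := one_le_pow₀ (by norm_num)
  have h2 : (1 : ℝ) ≤ 16 ^ b := one_le_pow₀ (by norm_num)
  nlinarith

/-- Regularisation of a bipartite relation, keeping the sides. -/
theorem reg_rel [Fintype α] [Fintype β] (E : α → β → Prop) (b c : ℕ) (hb : 1 ≤ b) (hc : 1 ≤ c)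
    (hpos : 0 < eR E) :
    ∃ (A : Finset α) (B : Finset β) (m d : ℝ), 1 ≤ m ∧ 0 < d ∧
      (Fintype.card {x // x ∈ A} : ℝ) ≤ m ∧ (Fintype.card {y // y ∈ B} : ℝ) ≤ m ∧
      (∀ y, d ≤ ((NA (res E A B) y).card : ℝ)) ∧
      (∀ y, ((NA (res E A B) y).card : ℝ) ≤ KK b c * d) ∧
      (∀ x, ((NB (res E A B) x).card : ℝ) ≤ KK b c * d) ∧
      m * d ≤ ∑ y, ((NA (res E A B) y).card : ℝ) ∧
      (eR E : ℝ) ^ b * m ^ c ≤
        (16 * d) ^ b * ((Fintype.card α : ℝ) + Fintype.card β) ^ (b + c) := by
  have hpos' : 0 < ee (sadj E) (univ : Finset (α ⊕ β)) univ := by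
    rw [ee_sadj_univ]; omega
  obtain ⟨A, B, m, d, hAl, hBr, hAB, hm, hd, hA, hB, h1, h2, h3, h4, h5⟩ :=
    reg (sadj E) (sadj_symm E) (fun v => v.isLeft = true) (fun v => v.isRight = true)
      (sadj_cut E) b c hb hc hpos'
  have hdA : ∀ y : β, (dg (sadj E) A (Sum.inr y) : ℝ) =
      ((A.toLeft.filter (fun x => E x y)).card : ℝ) := fun y => by rw [dg_sadj_inr]
  have hdB : ∀ x : α, (dg (sadj E) B (Sum.inl x) : ℝ) =
      ((B.toRight.filter (fun y => E x y)).card : ℝ) := fun x => by rw [dg_sadj_inl]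
  refine ⟨A.toLeft, B.toRight, m, d, hm, hd, ?_, ?_, ?_, ?_, ?_, ?_, ?_⟩
  · rw [Fintype.card_coe]
    refine le_trans ?_ hA
    exact_mod_cast card_toLeft_le
  · rw [Fintype.card_coe]
    refine le_trans ?_ hB
    exact_mod_cast card_toRight_le
  · rintro ⟨y, hy⟩
    rw [card_NA_res]
    have := h1 (Sum.inr y) (mem_toRight.mp hy)
    rwa [hdA] at this
  · rintro ⟨y, hy⟩
    rw [card_NA_res]
    have := h2 (Sum.inr y) (mem_toRight.mp hy)
    rwa [hdA] at this
  · rintro ⟨x, hx⟩
    rw [card_NB_res]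
    have := h3 (Sum.inl x) (mem_toLeft.mp hx)
    rwa [hdB] at this
  · refine h4.trans (le_of_eq ?_)
    have hBeq : B = B.toRight.map Embedding.inr := by
      ext v
      rcases v with x | y
      · simp only [mem_map, mem_toRight, Embedding.inr_apply, reduceCtorEq, and_false, exists_false,
          iff_false]
        intro h
        have := hBr _ h
        simp at this
      · simp
    have e1 : ∑ v ∈ B, (dg (sadj E) A v : ℝ) =
        ∑ y ∈ B.toRight, ((A.toLeft.filter (fun x => E x y)).card : ℝ) := by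
      conv_lhs => rw [hBeq]
      rw [sum_map]
      exact sum_congr rfl fun y _ => hdA y
    rw [e1, ← sum_coe_sort B.toRight]
    refine sum_congr rfl fun y _ => ?_
    rw [card_NA_res]
  · have h6 : ((ee (sadj E) (univ : Finset (α ⊕ β)) univ : ℕ) : ℝ) = 2 * (eR E : ℝ) := by
      rw [ee_sadj_univ]; push_cast; ring
    have h7 : (Fintype.card (α ⊕ β) : ℝ) = (Fintype.card α : ℝ) + Fintype.card β := by
      rw [Fintype.card_sum]; push_cast; ring
    rw [h6, h7] at h5
    refine le_trans ?_ h5
    apply mul_le_mul_of_nonneg_right _ (by positivity)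
    apply pow_le_pow_left₀ (Nat.cast_nonneg _)
    have : (0 : ℝ) ≤ eR E := Nat.cast_nonneg _
    linarith

end Pool.Agent.Helper55.RE
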