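import Mathlib

set_option autoImplicit false

/-!
Rooted graphs, their powers and balancedness.
-/

namespace Pool.Agent.Helper55.RE

/-- The `p`-th power of a rooted graph `F` on `A ⊕ R` (roots: `R`): `p` copies of `F` which share
the roots and are otherwise disjoint. -/
def power {A R : Type} (F : SimpleGraph (A ⊕ R)) (p : ℕ) : SimpleGraph ((A × Fin p) ⊕ R) where
  Adj u v := match u, v with
    | Sum.inl a, Sum.inl b => a.2 = b.2 ∧ F.Adj (Sum.inl a.1) (Sum.inl b.1)
    | Sum.inl a, Sum.inr r => F.Adj (Sum.inl a.1) (Sum.inr r)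
    | Sum.inr r, Sum.inl a => F.Adj (Sum.inr r) (Sum.inl a.1)
    | Sum.inr r, Sum.inr r' => F.Adj (Sum.inr r) (Sum.inr r')
  symm := ⟨by
    rintro (a | r) (b | r') h
    · exact ⟨h.1.symm, h.2.symm⟩
    · exact h.symm
    · exact h.symm
    · exact h.symm⟩
  loopless := ⟨by
    rintro (a | r) h
    · exact F.loopless.irrefl _ h.2
    · exact F.loopless.irrefl _ h⟩

/-- the number of edges of the rooted graph `F` which meet the set `S` of non-root vertices -/
noncomputable def touch {A R : Type} (F : SimpleGraph (A ⊕ R)) (S : Finset A) : ℕ :=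
  {e : Sym2 (A ⊕ R) | e ∈ F.edgeSet ∧ ∃ a ∈ S, Sum.inl a ∈ e}.ncard

/-- The rooted graph `F` is balanced: every nonempty set `S` of non-roots meets at least
`|S| * e(F) / |A|` edges. -/
def Balanced {A R : Type} [Fintype A] (F : SimpleGraph (A ⊕ R)) : Prop :=
  ∀ S : Finset A, S.Nonempty → S.card * F.edgeSet.ncard ≤ touch F S * Fintype.card A

end Pool.Agent.Helper55.RE
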