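import Pool.Agent.Helper55.RE.Extremal
import Pool.Agent.Helper55.RE.Rooted

set_option autoImplicit false
set_option linter.unusedSectionVars false

namespace Pool.Agent.Helper55.RE

open Finset Function

open scoped Classical

lemma Contains.trans {P Q P' Q' α β : Type*} {Γ' : P' → Q' → Prop} {Γ : P → Q → Prop}
    {E : α → β → Prop} (h1 : Contains Γ' Γ) (h2 : Contains Γ E) : Contains Γ' E := by
  obtain ⟨f, g, hf, hg, hfg⟩ := h1
  obtain ⟨f', g', hf', hg', hfg'⟩ := h2
  exact ⟨f' ∘ f, g' ∘ g, hf'.comp hf, hg'.comp hg, fun p q h => hfg' _ _ (hfg p q h)⟩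

lemma bound_mono {P Q P' Q' : Type} {Γ' : P' → Q' → Prop} {Γ : P → Q → Prop} {a b : ℕ}
    (h1 : Contains Γ' Γ) (h2 : Bound Γ a b) : Bound Γ' a b := by
  obtain ⟨C, hC⟩ := h2
  exact ⟨C, fun α β _ _ E N hN hpos he => h1.trans (hC α β E N hN hpos he)⟩

/-- adding `J` vertices on each side joined to everything on the other side -/
def PJ {P Q : Type} (Γ : P → Q → Prop) (J : ℕ) : P ⊕ Fin J → Q ⊕ Fin J → Prop
  | Sum.inl p, Sum.inl q => Γ p q
  | Sum.inl _, Sum.inr _ => True
  | Sum.inr _, _ => True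

/-- the natural map -/
def stepMap (P : Type) (J : ℕ) : P ⊕ Fin (J + 1) → (P ⊕ Fin J) ⊕ Unit
  | Sum.inl p => Sum.inl (Sum.inl p)
  | Sum.inr s => if h : s.val < J then Sum.inl (Sum.inr ⟨s.val, h⟩) else Sum.inr ()

lemma stepMap_injective (P : Type) (J : ℕ) : Injective (stepMap P J) := by
  rintro (p | s) (p' | s') h
  · simp only [stepMap, Sum.inl.injEq] at h
    rw [h]
  · simp only [stepMap] at h
    split_ifs at h
    simp at h
  · simp only [stepMap] at h
    split_ifs at h
    simp at h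
  · simp only [stepMap] at h
    split_ifs at h with h1 h2 h2
    · simp only [Sum.inl.injEq, Sum.inr.injEq, Fin.mk.injEq] at h
      exact congrArg _ (Fin.ext h)
    · have e1 : s.val = J := by have := s.2; omega
      have e2 : s'.val = J := by have := s'.2; omega
      exact congrArg _ (Fin.ext (by omega))

lemma PJ_step {P Q : Type} (Γ : P → Q → Prop) (J : ℕ) :
    Contains (PJ Γ (J + 1)) (Plus (PJ Γ J)) := by
  refine ⟨stepMap P J, stepMap Q J, stepMap_injective P J, stepMap_injective Q J, ?_⟩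
  rintro (p | s) (q | s') h
  · exact h
  · simp only [stepMap]
    split_ifs
    · exact trivial
    · exact trivial
  · simp only [stepMap]
    split_ifs
    · exact trivial
    · exact trivial
  · simp only [stepMap]
    split_ifs <;> exact trivial

lemma PJ_zero {P Q : Type} (Γ : P → Q → Prop) : Contains (PJ Γ 0) Γ := by
  refine ⟨Sum.elim id (fun s => s.elim0), Sum.elim id (fun s => s.elim0), ?_, ?_, ?_⟩
  · rintro (p | s) (p' | s') h
    · exact congrArg _ h
    · exact s'.elim0
    · exact s.elim0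
    · exact s.elim0
  · rintro (p | s) (p' | s') h
    · exact congrArg _ h
    · exact s'.elim0
    · exact s.elim0
    · exact s.elim0
  · rintro (p | s) (q | s') h
    · exact h
    · exact s'.elim0
    · exact s.elim0
    · exact s.elim0

lemma bound_PJ {P Q : Type} (Γ : P → Q → Prop) (a b : ℕ) (ha : 1 ≤ a) (hab : a < b)
    (h : Bound Γ a b) (J : ℕ) : Bound (PJ Γ J) a (b + J * a) := by
  induction J with
  | zero => simpa using bound_mono (PJ_zero Γ) h
  | succ J ih =>
    have h1 := bound_plus (PJ Γ J) a (b + J * a) ha (by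
      have : 0 ≤ J * a := Nat.zero_le _
      omega) ih
    have h2 := bound_mono (PJ_step Γ J) h1
    have h3 : a + (b + J * a) = b + (J + 1) * a := by ring
    rwa [h3] at h2

/-- vertices of the rooted star: the centre, the branch vertices; the roots at the branch
vertices, the roots joined to all branch vertices, the roots joined to the centre -/
abbrev SV (k t J : ℕ) : Type := (Unit ⊕ Fin k) ⊕ ((Fin k × Fin t) ⊕ (Fin J ⊕ Fin J))

/-- index type of the edges -/
abbrev SI (k t J : ℕ) : Type := Fin k ⊕ ((Fin k × Fin t) ⊕ (Fin J ⊕ (Fin k × Fin J)))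

/-- first endpoint (a non-root) -/
def e1 {k t J : ℕ} : SI k t J → SV k t J
  | Sum.inl _ => Sum.inl (Sum.inl ())
  | Sum.inr (Sum.inl il) => Sum.inl (Sum.inr il.1)
  | Sum.inr (Sum.inr (Sum.inl _)) => Sum.inl (Sum.inl ())
  | Sum.inr (Sum.inr (Sum.inr is)) => Sum.inl (Sum.inr is.1)

/-- second endpoint -/
def e2 {k t J : ℕ} : SI k t J → SV k t J
  | Sum.inl i => Sum.inl (Sum.inr i)
  | Sum.inr (Sum.inl il) => Sum.inr (Sum.inl il)
  | Sum.inr (Sum.inr (Sum.inl s)) => Sum.inr (Sum.inr (Sum.inr s))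
  | Sum.inr (Sum.inr (Sum.inr is)) => Sum.inr (Sum.inr (Sum.inl is.2))

lemma e12_ne {k t J : ℕ} (i : SI k t J) : e1 i ≠ e2 i := by
  rcases i with i | i | i | i <;> simp [e1, e2]

/-- The rooted star. -/
def starF (k t J : ℕ) : SimpleGraph (SV k t J) where
  Adj u v := ∃ i : SI k t J, (e1 i = u ∧ e2 i = v) ∨ (e1 i = v ∧ e2 i = u)
  symm := ⟨by
    rintro u v ⟨i, h⟩
    exact ⟨i, h.symm⟩⟩
  loopless := ⟨by
    rintro u ⟨i, h | h⟩
    · exact e12_ne i (h.1.trans h.2.symm)
    · exact e12_ne i (h.1.trans h.2.symm)⟩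

/-- the colouring -/
def starCol {k t J : ℕ} : SV k t J → Bool
  | Sum.inl (Sum.inl _) => true
  | Sum.inl (Sum.inr _) => false
  | Sum.inr (Sum.inl _) => true
  | Sum.inr (Sum.inr (Sum.inl _)) => true
  | Sum.inr (Sum.inr (Sum.inr _)) => false

lemma starCol_ne {k t J : ℕ} (i : SI k t J) : starCol (e1 i) ≠ starCol (e2 i) := by
  rcases i with i | i | i | i <;> simp [e1, e2, starCol]

lemma star_colorable (k t J : ℕ) : (starF k t J).Colorable 2 := by
  have c : (starF k t J).Coloring Bool := SimpleGraph.Coloring.mk starCol (by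
    rintro u v ⟨i, ⟨rfl, rfl⟩ | ⟨rfl, rfl⟩⟩
    · exact starCol_ne i
    · exact (starCol_ne i).symm)
  have := c.colorable
  simpa using this

lemma star_no_root_edge (k t J : ℕ) (r r' : (Fin k × Fin t) ⊕ (Fin J ⊕ Fin J)) :
    ¬ (starF k t J).Adj (Sum.inr r) (Sum.inr r') := by
  rintro ⟨i, h | h⟩
  · rcases i with i | i | i | i <;> simp [e1] at h
  · rcases i with i | i | i | i <;> simp [e1] at h

/-- the edge with a given index -/
def edge {k t J : ℕ} (i : SI k t J) : Sym2 (SV k t J) := s(e1 i, e2 i)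

lemma edge_injective {k t J : ℕ} : Injective (edge : SI k t J → Sym2 (SV k t J)) := by
  intro i j h
  rw [edge, edge, Sym2.eq_iff] at h
  rcases i with i | i | i | i <;> rcases j with j | j | j | j <;>
    simp_all [e1, e2, Prod.ext_iff]

lemma star_edgeSet (k t J : ℕ) : (starF k t J).edgeSet = Set.range (edge : SI k t J → _) := by
  ext e
  induction e using Sym2.ind with
  | _ u v =>
    rw [SimpleGraph.mem_edgeSet, Set.mem_range]
    constructor
    · rintro ⟨i, ⟨rfl, rfl⟩ | ⟨rfl, rfl⟩⟩
      · exact ⟨i, rfl⟩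
      · exact ⟨i, Sym2.eq_swap⟩
    · rintro ⟨i, hi⟩
      rw [edge, Sym2.eq_iff] at hi
      exact ⟨i, hi⟩

lemma star_edges (k t J : ℕ) : (starF k t J).edgeSet.ncard = k * (t + 1) + J * (k + 1) := by
  rw [star_edgeSet, Set.ncard_eq_toFinset_card' , Set.toFinset_range,
    card_image_of_injective _ edge_injective, card_univ]
  simp only [SI, Fintype.card_sum, Fintype.card_fin, Fintype.card_prod]
  ring

end Pool.Agent.Helper55.RE
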