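import Pool.Agent.Helper55.RE.Star

set_option autoImplicit false
set_option linter.unusedSectionVars false

namespace Pool.Agent.Helper55.RE

open Finset Function

open scoped Classical

lemma touch_star {k t J : ℕ} (S : Finset (Unit ⊕ Fin k)) :
    touch (starF k t J) S =
      ((univ : Finset (SI k t J)).filter (fun i => ∃ a ∈ S, Sum.inl a ∈ edge i)).card := by
  rw [touch, star_edgeSet]
  have h1 : {e : Sym2 (SV k t J) | e ∈ Set.range (edge : SI k t J → _) ∧ ∃ a ∈ S, Sum.inl a ∈ e} =
      (((univ : Finset (SI k t J)).filter (fun i => ∃ a ∈ S, Sum.inl a ∈ edge i)).image edge :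
        Finset (Sym2 (SV k t J))) := by
    ext e
    simp only [Set.mem_ofPred_eq, Set.mem_range, coe_image, coe_filter, mem_univ, true_and,
      Set.mem_image]
    constructor
    · rintro ⟨⟨i, rfl⟩, h⟩
      exact ⟨i, h, rfl⟩
    · rintro ⟨i, h, rfl⟩
      exact ⟨⟨i, rfl⟩, h⟩
  rw [h1, Set.ncard_coe_finset, card_image_of_injective _ edge_injective]

lemma star_balanced (k t J : ℕ) (htk : t ≤ k) : Balanced (starF k t J) := by
  intro S hS
  rw [star_edges]
  have hcard : Fintype.card (Unit ⊕ Fin k) = k + 1 := by simp [add_comm]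
  rw [hcard]
  have hSc : S.toLeft.card + S.toRight.card = S.card := card_toLeft_add_card_toRight
  set T := S.toRight with hT
  have hTk : T.card ≤ k := by
    have := card_le_univ T
    simpa using this
  by_cases hx : Sum.inl () ∈ S
  · have hl : S.toLeft.card = 1 := by
      have h1 : S.toLeft = {()} := by
        ext u; cases u; simp [hx]
      rw [h1]; simp
    have hsub : (univ : Finset (Fin k)).disjSum ((T ×ˢ (univ : Finset (Fin t))).disjSum
        ((univ : Finset (Fin J)).disjSum (T ×ˢ (univ : Finset (Fin J))))) ⊆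
        (univ : Finset (SI k t J)).filter (fun i => ∃ a ∈ S, Sum.inl a ∈ edge i) := by
      intro i hi
      rw [mem_filter]
      refine ⟨mem_univ _, ?_⟩
      rcases i with i | i | i | i
      · exact ⟨_, hx, by simp [edge, e1]⟩
      · simp only [inr_mem_disjSum, inl_mem_disjSum, mem_product, mem_univ, and_true] at hi
        exact ⟨_, mem_toRight.mp hi, by simp [edge, e1]⟩
      · exact ⟨_, hx, by simp [edge, e1]⟩
      · simp only [inr_mem_disjSum, mem_product, mem_univ, and_true] at hi
        exact ⟨_, mem_toRight.mp hi, by simp [edge, e1]⟩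
    have h2 := card_le_card hsub
    rw [card_disjSum, card_disjSum, card_disjSum, card_product, card_product, card_univ,
      card_univ, card_univ] at h2
    simp only [Fintype.card_fin] at h2
    rw [touch_star]
    refine le_trans ?_ (Nat.mul_le_mul_right _ h2)
    rw [← hSc, hl]
    set q := T.card with hq
    obtain ⟨u, hu⟩ := Nat.exists_eq_add_of_le htk
    obtain ⟨v, hv⟩ := Nat.exists_eq_add_of_le hTk
    have h3 : (1 + q) * (k * (t + 1) + J * (k + 1)) + u * v =
        (k + (q * t + (J + q * J))) * (k + 1) := by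
      have e3 : (u : ℤ) = k - t := by rw [hu]; push_cast; ring
      have e4 : (v : ℤ) = k - q := by
        have : (k : ℤ) = q + v := by exact_mod_cast hv
        linarith
      zify
      rw [e3, e4]
      ring
    omega
  · have hl : S.toLeft.card = 0 := by
      rw [card_eq_zero]
      ext u; cases u; simp [hx]
    have hsub : (T : Finset (Fin k)).disjSum ((T ×ˢ (univ : Finset (Fin t))).disjSum
        ((∅ : Finset (Fin J)).disjSum (T ×ˢ (univ : Finset (Fin J))))) ⊆
        (univ : Finset (SI k t J)).filter (fun i => ∃ a ∈ S, Sum.inl a ∈ edge i) := by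
      intro i hi
      rw [mem_filter]
      refine ⟨mem_univ _, ?_⟩
      rcases i with i | i | i | i
      · simp only [inl_mem_disjSum] at hi
        exact ⟨_, mem_toRight.mp hi, by simp [edge, e2]⟩
      · simp only [inr_mem_disjSum, inl_mem_disjSum, mem_product, mem_univ, and_true] at hi
        exact ⟨_, mem_toRight.mp hi, by simp [edge, e1]⟩
      · simp at hi
      · simp only [inr_mem_disjSum, mem_product, mem_univ, and_true] at hi
        exact ⟨_, mem_toRight.mp hi, by simp [edge, e1]⟩
    have h2 := card_le_card hsub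
    rw [card_disjSum, card_disjSum, card_disjSum, card_product, card_product, card_univ,
      card_univ, card_empty] at h2
    simp only [Fintype.card_fin] at h2
    rw [touch_star]
    refine le_trans ?_ (Nat.mul_le_mul_right _ h2)
    rw [← hSc, hl]
    set q := T.card with hq
    nlinarith [Nat.zero_le (q * t), Nat.zero_le q]

/-- The power of the rooted star sits in the pattern graph. -/
lemma power_contained (k t J p : ℕ) :
    (power (starF k t J) p).IsContained (patGraph (PJ (SP k t p) J)) := by
  let f : ((Unit ⊕ Fin k) × Fin p) ⊕ ((Fin k × Fin t) ⊕ (Fin J ⊕ Fin J)) →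
      ((Fin p ⊕ (Fin k × Fin t)) ⊕ Fin J) ⊕ ((Fin k × Fin p) ⊕ Fin J) := fun v =>
    match v with
    | Sum.inl (Sum.inl _, j) => Sum.inl (Sum.inl (Sum.inl j))
    | Sum.inl (Sum.inr i, j) => Sum.inr (Sum.inl (i, j))
    | Sum.inr (Sum.inl il) => Sum.inl (Sum.inl (Sum.inr il))
    | Sum.inr (Sum.inr (Sum.inl s)) => Sum.inl (Sum.inr s)
    | Sum.inr (Sum.inr (Sum.inr s)) => Sum.inr (Sum.inr s)
  have hf : Injective f := by
    rintro (⟨a | a, j⟩ | r | r | r) (⟨b | b, j'⟩ | r' | r' | r') h <;>
      simp_all [f]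
  have hsymm : ∀ u v, (patGraph (PJ (SP k t p) J)).Adj u v → (patGraph (PJ (SP k t p) J)).Adj v u :=
    fun u v h => h.symm
  refine ⟨⟨⟨f, ?_⟩, hf⟩⟩
  rintro (⟨a, j⟩ | r) (⟨b, j'⟩ | r') h
  · obtain ⟨hj, i, h | h⟩ := h
    · simp only at hj
      subst hj
      rcases i with i | i | i | i <;> simp only [e1, e2, reduceCtorEq, and_false] at h
      obtain ⟨h1, h2⟩ := h
      simp only [Sum.inl.injEq] at h1 h2
      subst h1; subst h2
      exact (rfl : j = j)
    · simp only at hj
      subst hj
      rcases i with i | i | i | i <;> simp only [e1, e2, reduceCtorEq, and_false] at h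
      obtain ⟨h1, h2⟩ := h
      simp only [Sum.inl.injEq] at h1 h2
      subst h1; subst h2
      exact (rfl : j = j)
  · obtain ⟨i, h | h⟩ := h
    · rcases i with i | i | i | i <;> simp only [e1, e2, reduceCtorEq, and_false] at h
      · obtain ⟨h1, h2⟩ := h
        simp only [Sum.inl.injEq, Sum.inr.injEq] at h1 h2
        subst h1; subst h2
        exact (rfl : i.1 = i.1)
      · obtain ⟨h1, h2⟩ := h
        simp only [Sum.inl.injEq, Sum.inr.injEq] at h1 h2
        subst h1; subst h2
        exact trivial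
      · obtain ⟨h1, h2⟩ := h
        simp only [Sum.inl.injEq, Sum.inr.injEq] at h1 h2
        subst h1; subst h2
        exact trivial
    · rcases i with i | i | i | i <;> simp only [e1, e2, reduceCtorEq, false_and] at h
  · obtain ⟨i, h | h⟩ := h
    · rcases i with i | i | i | i <;> simp only [e1, e2, reduceCtorEq, false_and] at h
    · rcases i with i | i | i | i <;> simp only [e1, e2, reduceCtorEq, and_false] at h
      · obtain ⟨h1, h2⟩ := h
        simp only [Sum.inl.injEq, Sum.inr.injEq] at h1 h2
        subst h1; subst h2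
        exact (rfl : i.1 = i.1)
      · obtain ⟨h1, h2⟩ := h
        simp only [Sum.inl.injEq, Sum.inr.injEq] at h1 h2
        subst h1; subst h2
        exact trivial
      · obtain ⟨h1, h2⟩ := h
        simp only [Sum.inl.injEq, Sum.inr.injEq] at h1 h2
        subst h1; subst h2
        exact trivial
  · exact absurd h (star_no_root_edge k t J r r')

lemma power_mono {A R : Type} (F : SimpleGraph (A ⊕ R)) (p : ℕ) :
    (power F p).IsContained (power F (p + 1)) := by
  refine ⟨⟨⟨Sum.map (fun a => (a.1, a.2.castSucc)) id, ?_⟩, ?_⟩⟩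
  · rintro (a | r) (b | r') h
    · exact ⟨congrArg Fin.castSucc h.1, h.2⟩
    · exact h
    · exact h
    · exact h
  · refine Injective.sumMap ?_ injective_id
    intro a b h
    simp only [Prod.mk.injEq, Fin.castSucc_inj] at h
    exact Prod.ext h.1 h.2

lemma star_cond (k t : ℕ) (ht : 2 ≤ t) (hk : 5 ≤ k) (htk : t + 2 ≤ k) :
    (k - 1) * k * (t + 1) ≤ (k * t - 1) * (2 * k - 1 - t) := by
  obtain ⟨i, rfl⟩ := Nat.exists_eq_add_of_le htk
  have e1 : t + 2 + i - 1 = t + 1 + i := by omega
  have e2 : 2 * (t + 2 + i) - 1 - t = t + 3 + 2 * i := by omega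
  have e3 : (t + 2 + i) * t - 1 + 1 = (t + 2 + i) * t :=
    Nat.sub_add_cancel (Nat.mul_pos (by omega) (by omega))
  rw [e1, e2]
  set w := (t + 2 + i) * t - 1 with hw
  rcases Nat.lt_or_ge 2 t with h | h
  · obtain ⟨u, rfl⟩ := Nat.exists_eq_add_of_le (show 3 ≤ t by omega)
    zify at e3 ⊢
    have e4 : (w : ℤ) = (3 + u + 2 + i) * (3 + u) - 1 := by linarith
    rw [e4]
    have hu : (0 : ℤ) ≤ u := by positivity
    have hi : (0 : ℤ) ≤ i := by positivity
    nlinarith [mul_nonneg hu hi, mul_nonneg hu hu, mul_nonneg hi hi,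
      mul_nonneg (mul_nonneg hu hi) hi, mul_nonneg (mul_nonneg hu hu) hi]
  · have ht2 : t = 2 := by omega
    subst ht2
    obtain ⟨v, rfl⟩ := Nat.exists_eq_add_of_le (show 1 ≤ i by omega)
    zify at e3 ⊢
    have e4 : (w : ℤ) = (2 + 2 + (1 + v)) * 2 - 1 := by linarith
    rw [e4]
    have hv : (0 : ℤ) ≤ v := by positivity
    nlinarith [mul_nonneg hv hv]

/-- The upper bound for all powers of the rooted star. -/
theorem star_upper (k t J p : ℕ) (hk : 5 ≤ k) (ht : 2 ≤ t) (htk : t + 2 ≤ k) :
    ∃ C : ℝ, ∀ n : ℕ, ((SimpleGraph.extremalNumber n (power (starF k t J) p) : ℕ) : ℝ) ≤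
      C * (n : ℝ) ^ (2 - ((k + 1 : ℕ) : ℝ) / ((k * (t + 1) + J * (k + 1) : ℕ) : ℝ)) := by
  have hb := bound_star k t (p + 1) (by omega) ht (by omega) (star_cond k t ht hk htk)
  have hlt : k + 1 < k * (t + 1) := by nlinarith
  have hb2 := bound_PJ (SP k t (p + 1)) (k + 1) (k * (t + 1)) (by omega) hlt hb J
  obtain ⟨C, hC⟩ := extremal_of_bound (PJ (SP k t (p + 1)) J) (k + 1) (k * (t + 1) + J * (k + 1))
    (by have : 0 ≤ J * (k + 1) := Nat.zero_le _; omega) hb2
  refine ⟨C, fun n => le_trans ?_ (hC n)⟩
  have h1 : (power (starF k t J) p).IsContained (patGraph (PJ (SP k t (p + 1)) J)) :=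
    (power_mono _ p).trans (power_contained k t J (p + 1))
  exact_mod_cast h1.extremalNumber_le

end Pool.Agent.Helper55.RE
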