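import Pool.Agent.Helper55.RE.StepThreeB

set_option autoImplicit false
set_option linter.unusedSectionVars false

namespace Pool.Agent.Helper55.RE

open Finset Function

open scoped Classical

variable {α β : Type*} [Fintype α] [Fintype β] (E : α → β → Prop)

lemma pick_z {k t L : ℕ} (i0 : Fin k) (η M2 Ns : ℝ) (hQ : 0 < QQ E k t)
    (hBd : ∑ ω ∈ Om E k t, Bd E L M2 Ns i0 ω ≤
      η * ∑ ω ∈ Om E k t, ((NA E (ω.1 i0)).card : ℝ)) :
    ∃ z : β, ((Om E k t).filter (fun ω => ω.1 i0 = z)).Nonempty ∧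
      ∑ ω ∈ (Om E k t).filter (fun ω => ω.1 i0 = z), Bd E L M2 Ns i0 ω ≤
        η * ((((Om E k t).filter (fun ω => ω.1 i0 = z)).card : ℝ) * ((NA E z).card : ℝ)) := by
  by_contra hcon
  push Not at hcon
  have h1 : ∑ ω ∈ Om E k t, Bd E L M2 Ns i0 ω =
      ∑ z : β, ∑ ω ∈ (Om E k t).filter (fun ω => ω.1 i0 = z), Bd E L M2 Ns i0 ω :=
    (sum_fiberwise _ _ _).symm
  have h2 : ∑ ω ∈ Om E k t, ((NA E (ω.1 i0)).card : ℝ) =
      ∑ z : β, (((Om E k t).filter (fun ω => ω.1 i0 = z)).card : ℝ) * ((NA E z).card : ℝ) := by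
    rw [← sum_fiberwise (Om E k t) (fun ω => ω.1 i0)]
    refine sum_congr rfl fun z _ => ?_
    rw [← nsmul_eq_mul, ← sum_const]
    refine sum_congr rfl fun ω hω => ?_
    rw [(mem_filter.mp hω).2]
  rw [h1, h2, mul_sum] at hBd
  have hne : ∃ ω, ω ∈ Om E k t := by
    rw [QQ] at hQ
    have : 0 < (Om E k t).card := by exact_mod_cast hQ
    obtain ⟨ω, hω⟩ := card_pos.mp this
    exact ⟨ω, hω⟩
  obtain ⟨ω0, hω0⟩ := hne
  have h3 : ∑ z : β, η * ((((Om E k t).filter (fun ω => ω.1 i0 = z)).card : ℝ) *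
      ((NA E z).card : ℝ)) <
      ∑ z : β, ∑ ω ∈ (Om E k t).filter (fun ω => ω.1 i0 = z), Bd E L M2 Ns i0 ω := by
    apply sum_lt_sum
    · intro z _
      rcases ((Om E k t).filter (fun ω => ω.1 i0 = z)).eq_empty_or_nonempty with h | h
      · rw [h]; simp
      · exact (hcon z h).le
    · exact ⟨ω0.1 i0, mem_univ _, hcon _ ⟨ω0, mem_filter.mpr ⟨hω0, rfl⟩⟩⟩
  linarith

lemma conc {k t L : ℕ} (ht : 1 ≤ t) (i0 : Fin k) (η d M2 Ns : ℝ) (hM2 : 0 < M2)
    (hd : 0 < d) (hdeg : ∀ y, d ≤ ((NA E y).card : ℝ)) (z : β)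
    (hBd : ∑ ω ∈ (Om E k t).filter (fun ω => ω.1 i0 = z), Bd E L M2 Ns i0 ω ≤
        η * ((((Om E k t).filter (fun ω => ω.1 i0 = z)).card : ℝ) * ((NA E z).card : ℝ)))
    (v : α) :
    ((((Om E k t).filter (fun ω => ω.1 i0 = z)).filter (fun ω => ∃ l, ω.2 l = v)).card : ℝ) ≤
      (η + t / M2) * (((Om E k t).filter (fun ω => ω.1 i0 = z)).card : ℝ) := by
  set Oz := (Om E k t).filter (fun ω => ω.1 i0 = z) with hOz
  have hz : 0 < ((NA E z).card : ℝ) := lt_of_lt_of_le hd (hdeg z)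
  -- first part
  have h1 : ((Oz.filter (fun ω => ((NZ E ω.1).card : ℝ) < M2)).card : ℝ) ≤ η * (Oz.card : ℝ) := by
    have h2 : ((Oz.filter (fun ω => ((NZ E ω.1).card : ℝ) < M2)).card : ℝ) * ((NA E z).card : ℝ) ≤
        ∑ ω ∈ Oz, Bd E L M2 Ns i0 ω := by
      rw [← nsmul_eq_mul, ← sum_const, sum_filter]
      refine sum_le_sum fun ω hω => ?_
      have hωz : ω.1 i0 = z := (mem_filter.mp hω).2
      by_cases h : ((NZ E ω.1).card : ℝ) < M2
      · rw [if_pos h, Bd, hωz]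
        refine le_of_eq ?_
        congr 1
        symm
        rw [card_filter_eq_iff]
        intro x' _
        exact Or.inr (Or.inl h)
      · rw [if_neg h, Bd]; positivity
    have h3 := h2.trans hBd
    rw [← mul_assoc] at h3
    exact le_of_mul_le_mul_right h3 hz
  -- second part
  have h2 : ((Oz.filter (fun ω => M2 ≤ ((NZ E ω.1).card : ℝ) ∧ ∃ l, ω.2 l = v)).card : ℝ) ≤
      t / M2 * (Oz.card : ℝ) := by
    have e1 : ((Oz.filter (fun ω => M2 ≤ ((NZ E ω.1).card : ℝ) ∧ ∃ l, ω.2 l = v)).card : ℝ) =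
        ∑ ω ∈ Om E k t, (if (ω.1 i0 = z ∧ M2 ≤ ((NZ E ω.1).card : ℝ) ∧ ∃ l, ω.2 l = v)
          then (1:ℝ) else 0) := by
      rw [hOz, filter_filter, card_filter]; push_cast; rfl
    have e2 : (Oz.card : ℝ) = ∑ ω ∈ Om E k t, (if ω.1 i0 = z then (1:ℝ) else 0) := by
      rw [hOz, card_filter]; push_cast; rfl
    rw [e1, e2, sum_Om_Z E (fun Z R => if (Z i0 = z ∧ M2 ≤ ((NZ E Z).card : ℝ) ∧ ∃ l, R l = v)
          then (1:ℝ) else 0), sum_Om_Z E (fun Z R => if Z i0 = z then (1:ℝ) else 0), mul_sum]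
    refine sum_le_sum fun Z _ => ?_
    by_cases hZ : Z i0 = z
    · simp only [if_pos hZ, sum_const, nsmul_eq_mul, mul_one, card_piZ]
      by_cases hM : M2 ≤ ((NZ E Z).card : ℝ)
      · have h3 : (∑ R ∈ Fintype.piFinset (fun _ : Fin t => NZ E Z),
            (if (Z i0 = z ∧ M2 ≤ ((NZ E Z).card : ℝ) ∧ ∃ l, R l = v) then (1:ℝ) else 0)) ≤
            t * ((NZ E Z).card : ℝ) ^ (t - 1) := by
          have h4 := card_coord (t := t) (NZ E Z) v
          have h5 : (((Fintype.piFinset (fun _ : Fin t => NZ E Z)).filter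
            (fun R => ∃ l, R l = v)).card : ℝ) ≤ t * ((NZ E Z).card : ℝ) ^ (t - 1) := by
            exact_mod_cast h4
          refine le_trans ?_ h5
          rw [card_filter]; push_cast
          refine sum_le_sum fun R _ => ?_
          by_cases hR : ∃ l, R l = v
          · rw [if_pos hR]; split_ifs <;> norm_num
          · rw [if_neg hR, if_neg (fun hh => hR hh.2.2)]
        refine h3.trans ?_
        set a := ((NZ E Z).card : ℝ) with ha
        have h6 : a ^ t = a ^ (t - 1) * a := by rw [← pow_succ, Nat.sub_add_cancel ht]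
        rw [h6]
        have h7 : (t : ℝ) / M2 * (a ^ (t - 1) * a) = (t * a ^ (t - 1)) * (a / M2) := by
          field_simp
        rw [h7]
        have h8 : 1 ≤ a / M2 := by rw [le_div_iff₀ hM2]; linarith
        have h9 : 0 ≤ t * a ^ (t - 1) := by positivity
        nlinarith
      · have h3 : (∑ R ∈ Fintype.piFinset (fun _ : Fin t => NZ E Z),
            (if (Z i0 = z ∧ M2 ≤ ((NZ E Z).card : ℝ) ∧ ∃ l, R l = v) then (1:ℝ) else 0)) = 0 :=
          sum_eq_zero fun R _ => if_neg fun hh => hM hh.2.1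
        rw [h3]; positivity
    · have h3 : (∑ R ∈ Fintype.piFinset (fun _ : Fin t => NZ E Z),
            (if (Z i0 = z ∧ M2 ≤ ((NZ E Z).card : ℝ) ∧ ∃ l, R l = v) then (1:ℝ) else 0)) = 0 :=
        sum_eq_zero fun R _ => if_neg fun hh => hZ hh.1
      rw [h3]; simp [hZ]
  have hcov : Oz.filter (fun ω => ∃ l, ω.2 l = v) ⊆
      Oz.filter (fun ω => ((NZ E ω.1).card : ℝ) < M2) ∪
        Oz.filter (fun ω => M2 ≤ ((NZ E ω.1).card : ℝ) ∧ ∃ l, ω.2 l = v) := by
    intro ω hω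
    rw [mem_filter] at hω
    rcases lt_or_ge ((NZ E ω.1).card : ℝ) M2 with h | h
    · exact mem_union_left _ (mem_filter.mpr ⟨hω.1, h⟩)
    · exact mem_union_right _ (mem_filter.mpr ⟨hω.1, h, hω.2⟩)
  have h3 : ((Oz.filter (fun ω => ∃ l, ω.2 l = v)).card : ℝ) ≤
      ((Oz.filter (fun ω => ((NZ E ω.1).card : ℝ) < M2)).card : ℝ) +
      ((Oz.filter (fun ω => M2 ≤ ((NZ E ω.1).card : ℝ) ∧ ∃ l, ω.2 l = v)).card : ℝ) := by
    exact_mod_cast (card_le_card hcov).trans (card_union_le _ _)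
  calc _ ≤ _ := h3
    _ ≤ η * (Oz.card : ℝ) + t / M2 * (Oz.card : ℝ) := add_le_add h1 h2
    _ = _ := by ring

lemma finish {k t p : ℕ} (hk : 1 ≤ k) (ht : 1 ≤ t) (hp : 1 ≤ p) (i0 : Fin k) (d M2 Ns : ℝ)
    (hM2 : 8 * k * t ^ 2 ≤ M2)
    (hd : (2 * (p + k * t) : ℝ) < d) (hdeg : ∀ y, d ≤ ((NA E y).card : ℝ)) (z : β)
    (hne : ((Om E k t).filter (fun ω => ω.1 i0 = z)).Nonempty)
    (hBd : ∑ ω ∈ (Om E k t).filter (fun ω => ω.1 i0 = z), Bd E (k * p) M2 Ns i0 ω ≤
        (1 / (8 * k * t)) *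
          ((((Om E k t).filter (fun ω => ω.1 i0 = z)).card : ℝ) * ((NA E z).card : ℝ))) :
    HasH E k t p := by
  have hk0 : (0 : ℝ) < k := by exact_mod_cast hk
  have ht0 : (0 : ℝ) < t := by exact_mod_cast ht
  have hd0 : 0 < d := lt_of_le_of_lt (by positivity) hd
  have hM20 : 0 < M2 := lt_of_lt_of_le (by positivity) hM2
  have hconc := fun v => conc E ht i0 (1 / (8 * k * t)) d M2 Ns hM20 hd0 hdeg z hBd v
  set Oz := (Om E k t).filter (fun ω => ω.1 i0 = z) with hOz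
  have hOz0 : (0 : ℝ) < Oz.card := by exact_mod_cast hne.card_pos
  obtain ⟨ω, hω, hdis, x, hx, hxX, hxr, hgood⟩ := selection (NA E z) Oz (fun ω => ω.2)
    (fun ω x' => BadP E (k * p) M2 Ns ω x') k p hk (by
      have := lt_of_lt_of_le hd (hdeg z)
      have h2 : 2 * (p + k * t) < (NA E z).card := by exact_mod_cast this
      exact h2.le) hne (by
      have h1 : (((Oz ×ˢ NA E z).filter (fun q => BadP E (k * p) M2 Ns q.1 q.2)).card : ℝ) =
          ∑ ω ∈ Oz, Bd E (k * p) M2 Ns i0 ω := by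
        rw [card_filter, sum_product]
        push_cast
        refine sum_congr rfl fun ω hω => ?_
        have hωz : ω.1 i0 = z := (mem_filter.mp hω).2
        rw [Bd, hωz, card_filter]
        push_cast
        rfl
      have h2 : 4 * (k : ℝ) * (((Oz ×ˢ NA E z).filter
          (fun q => BadP E (k * p) M2 Ns q.1 q.2)).card : ℝ) ≤
          (Oz.card : ℝ) * ((NA E z).card : ℝ) := by
        rw [h1]
        calc 4 * (k : ℝ) * ∑ ω ∈ Oz, Bd E (k * p) M2 Ns i0 ω
            ≤ 4 * (k : ℝ) * ((1 / (8 * k * t)) * ((Oz.card : ℝ) * ((NA E z).card : ℝ))) :=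
              mul_le_mul_of_nonneg_left hBd (by positivity)
          _ = (1 / (2 * t)) * ((Oz.card : ℝ) * ((NA E z).card : ℝ)) := by field_simp; ring
          _ ≤ 1 * ((Oz.card : ℝ) * ((NA E z).card : ℝ)) := by
              apply mul_le_mul_of_nonneg_right _ (by positivity)
              rw [div_le_one (by positivity)]
              have : (1 : ℝ) ≤ t := by exact_mod_cast ht
              linarith
          _ = _ := one_mul _
      exact_mod_cast h2) ⌊(1 / (8 * k * t) + t / M2) * (Oz.card : ℝ)⌋₊ (by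
      intro v
      exact Nat.le_floor (hconc v)) (by
      have h1 : ((⌊(1 / (8 * k * t) + t / M2) * (Oz.card : ℝ)⌋₊ : ℕ) : ℝ) ≤
          (1 / (8 * k * t) + t / M2) * (Oz.card : ℝ) := Nat.floor_le (by positivity)
      have h2 : (t : ℝ) / M2 ≤ 1 / (8 * k * t) := by
        rw [div_le_div_iff₀ hM20 (by positivity)]
        nlinarith
      have h3 : 2 * (k : ℝ) * t * ((⌊(1 / (8 * k * t) + t / M2) * (Oz.card : ℝ)⌋₊ : ℕ) : ℝ) <
          (Oz.card : ℝ) := by
        calc 2 * (k : ℝ) * t * ((⌊(1 / (8 * k * t) + t / M2) * (Oz.card : ℝ)⌋₊ : ℕ) : ℝ)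
            ≤ 2 * (k : ℝ) * t * ((1 / (8 * k * t) + 1 / (8 * k * t)) * (Oz.card : ℝ)) := by
              apply mul_le_mul_of_nonneg_left _ (by positivity)
              refine h1.trans ?_
              gcongr
          _ = (1 / 2) * (Oz.card : ℝ) := by field_simp; ring
          _ < Oz.card := by linarith
      exact_mod_cast h3)
  refine embed1 E x (fun i => (ω i).2) hx ?_ hxr ?_
  · intro i l i' l' h
    by_cases hi : i = i'
    · subst hi
      refine ⟨rfl, ?_⟩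
      have := hgood i ⟨0, hp⟩
      simp only [BadP, not_or, not_not] at this
      exact this.1 h
    · exact absurd h (hdis i i' hi l l')
  · intro i j
    have := hgood i j
    simp only [BadP, not_or, not_lt] at this
    exact this.2.2.2

/-- Step three: a large `k`-th moment of the codegrees gives a copy. -/
theorem step_three (k t p : ℕ) (hk : 2 ≤ k) (ht : 2 ≤ t) (hp : 1 ≤ p)
    (hcond : (k - 1) * k * (t + 1) ≤ (k * t - 1) * (2 * k - 1 - t)) (K : ℝ) (hK : 1 ≤ K) :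
    ∃ M3 : ℝ, 1 ≤ M3 ∧ ∀ (α β : Type) [Fintype α] [Fintype β] (E : α → β → Prop) (m d : ℝ),
      1 ≤ m → (2 * (p + k * t) : ℝ) < d →
      (Fintype.card α : ℝ) ≤ m → (Fintype.card β : ℝ) ≤ m →
      (∀ y, d ≤ ((NA E y).card : ℝ)) → (∀ y, ((NA E y).card : ℝ) ≤ K * d) →
      (∀ x, ((NB E x).card : ℝ) ≤ K * d) →
      m ^ (k * t - 1) ≤ d ^ (k * (t + 1)) →
      2 * M3 * (m * (K * d) ^ k) ≤ ∑ x : α, ∑ x' : α, (cod E x x' : ℝ) ^ k →
      HasH E k t p := by
  have hk0 : (0 : ℝ) < k := by positivity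
  have ht0 : (0 : ℝ) < t := by positivity
  have hp0 : (0 : ℝ) < p := by exact_mod_cast hp
  have hK0 : 0 < K := by linarith
  have hk1 : (1 : ℝ) ≤ k := by exact_mod_cast (by omega : 1 ≤ k)
  have ht1 : (1 : ℝ) ≤ t := by exact_mod_cast (by omega : 1 ≤ t)
  set ε : ℝ := 1 / (32 * k * t) with hε
  have hε0 : 0 < ε := by positivity
  have hε1 : ε ≤ 1 := by
    rw [hε, div_le_one (by positivity)]
    nlinarith
  set L : ℕ := k * p with hL
  have hL0 : (0 : ℝ) < L := by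
    have : 0 < k * p := Nat.mul_pos (by omega) hp
    exact_mod_cast this
  set M2 : ℝ := K * t ^ 2 / ε with hM2
  have hM20 : 0 < M2 := by positivity
  set V : ℝ := (L / ε) ^ (k - 1) * K ^ (t + 1) / ε with hV
  have hV0 : 0 < V := by positivity
  set M3 : ℝ := max 1 (max (M2 * (K / ε)) V) with hM3
  have hM31 : 1 ≤ M3 := le_max_left _ _
  have hM3a : M2 * (K / ε) ≤ M3 := (le_max_left _ _).trans (le_max_right _ _)
  have hM3b : V ≤ M3 := (le_max_right _ _).trans (le_max_right _ _)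
  refine ⟨M3, hM31, ?_⟩
  intro α β _ _ E m d hm hd hα hβ hdeg hA hB hC hS
  have hd0 : 0 < d := lt_of_le_of_lt (by positivity) hd
  have hd1 : 1 ≤ d := by
    have : (1 : ℝ) ≤ p := by exact_mod_cast hp
    nlinarith [mul_pos hk0 ht0]
  have hm0 : 0 < m := by linarith
  set B : ℝ := m * (K * d) ^ k with hBdef
  have hB0 : 0 < B := by positivity
  have hsumB : ∑ x : α, ((NB E x).card : ℝ) ^ k ≤ B := by
    calc ∑ x : α, ((NB E x).card : ℝ) ^ k ≤ ∑ _x : α, (K * d) ^ k :=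
          sum_le_sum fun x _ => pow_le_pow_left₀ (Nat.cast_nonneg _) (hB x) k
      _ = (Fintype.card α : ℝ) * (K * d) ^ k := by simp
      _ ≤ B := mul_le_mul_of_nonneg_right hα (by positivity)
  have hsumA : ∑ y : β, ((NA E y).card : ℝ) ^ t ≤ m * (K * d) ^ t := by
    calc ∑ y : β, ((NA E y).card : ℝ) ^ t ≤ ∑ _y : β, (K * d) ^ t :=
          sum_le_sum fun x _ => pow_le_pow_left₀ (Nat.cast_nonneg _) (hA x) t
      _ = (Fintype.card β : ℝ) * (K * d) ^ t := by simp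
      _ ≤ _ := mul_le_mul_of_nonneg_right hβ (by positivity)
  have hQ := QQ_lower (k := k) E ht M3 B (by linarith) hS hsumB
  set Q := QQ E k t with hQdef
  have hQ0 : 0 < Q := lt_of_lt_of_le (by positivity) hQ
  -- exponents
  have hmd : m ^ (k - 1) ≤ d ^ (2 * k - 1 - t) := by
    have hkt : 1 ≤ k * t - 1 := by
      have : 2 * 2 ≤ k * t := Nat.mul_le_mul hk ht
      omega
    have h1 : (m ^ (k - 1)) ^ (k * t - 1) ≤ (d ^ (2 * k - 1 - t)) ^ (k * t - 1) := by
      calc (m ^ (k - 1)) ^ (k * t - 1) = (m ^ (k * t - 1)) ^ (k - 1) := by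
            rw [← pow_mul, ← pow_mul, mul_comm]
        _ ≤ (d ^ (k * (t + 1))) ^ (k - 1) := pow_le_pow_left₀ (by positivity) hC _
        _ = d ^ ((k - 1) * k * (t + 1)) := by rw [← pow_mul]; congr 1; ring
        _ ≤ d ^ ((k * t - 1) * (2 * k - 1 - t)) := pow_le_pow_right₀ hd1 hcond
        _ = _ := by rw [← pow_mul, mul_comm]
    exact le_of_pow_le_pow_left₀ (by omega) (by positivity) h1
  have hexp : 1 ≤ 2 * k - 1 - t := by
    by_contra hcon
    have : 2 * k - 1 - t = 0 := by omega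
    rw [this, mul_zero] at hcond
    have : 0 < (k - 1) * k * (t + 1) := by
      apply Nat.mul_pos (Nat.mul_pos (by omega) (by omega)) (by omega)
    omega
  -- the threshold
  set Ns : ℝ := L * m / (ε * d) with hNs
  have hNs0 : 0 < Ns := by positivity
  set Δ : ℝ := K * d with hΔ
  have hΔ0 : 0 < Δ := by positivity
  have hkk : k - 1 + 1 = k := by omega
  set i0 : Fin k := ⟨0, by omega⟩ with hi0
  have hbd := sum_Bd E (k := k) (t := t) (L := L) (by omega) (by omega) ε d m Ns M2 Δ hε0.le hd0.le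
    hΔ0.le hM20 hNs0.le hα (by rw [hNs]; field_simp; exact le_refl _) i0 hA
  have hM3pow : M3 ≤ M3 ^ (t - 1) := by
    calc M3 = M3 ^ 1 := (pow_one _).symm
      _ ≤ M3 ^ (t - 1) := pow_le_pow_right₀ hM31 (by omega)
  -- first term
  have hT1 : Δ * (t ^ 2 / M2) * Q ≤ ε * d * Q := by
    apply mul_le_mul_of_nonneg_right _ hQ0.le
    rw [hΔ, hM2]
    apply le_of_eq
    field_simp
  -- third
  have hT2 : Δ * M2 ^ (t - 1) * (∑ x : α, ((NB E x).card : ℝ) ^ k) ≤ ε * d * Q := by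
    have h1 : K * M2 ^ (t - 1) ≤ ε * M3 ^ (t - 1) := by
      have h2 : (M2 * (K / ε)) ^ (t - 1) ≤ M3 ^ (t - 1) := pow_le_pow_left₀ (by positivity) hM3a _
      rw [mul_pow] at h2
      have hKe : 1 ≤ K / ε := by rw [le_div_iff₀ hε0]; nlinarith
      have h3 : K / ε ≤ (K / ε) ^ (t - 1) := by
        calc K / ε = (K / ε) ^ 1 := (pow_one _).symm
          _ ≤ _ := pow_le_pow_right₀ hKe (by omega)
      calc K * M2 ^ (t - 1) = ε * (M2 ^ (t - 1) * (K / ε)) := by field_simp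
        _ ≤ ε * (M2 ^ (t - 1) * (K / ε) ^ (t - 1)) := by gcongr
        _ ≤ _ := mul_le_mul_of_nonneg_left h2 hε0.le
    calc Δ * M2 ^ (t - 1) * (∑ x : α, ((NB E x).card : ℝ) ^ k)
        ≤ Δ * M2 ^ (t - 1) * B := mul_le_mul_of_nonneg_left hsumB (by positivity)
      _ = (K * M2 ^ (t - 1)) * (d * B) := by rw [hΔ]; ring
      _ ≤ (ε * M3 ^ (t - 1)) * (d * B) := mul_le_mul_of_nonneg_right h1 (by positivity)
      _ = ε * d * (M3 ^ (t - 1) * B) := by ring
      _ ≤ _ := mul_le_mul_of_nonneg_left hQ (by positivity)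
  -- second
  have hT3 : Δ * Ns ^ (k - 1) * (∑ y : β, ((NA E y).card : ℝ) ^ t) ≤ ε * d * Q := by
    have h1 : Ns ^ (k - 1) * d ^ (k - 1) = (L / ε) ^ (k - 1) * m ^ (k - 1) := by
      rw [← mul_pow, ← mul_pow, hNs]
      congr 1
      field_simp
    have h2 : d ^ (k - 1) * (Δ * Ns ^ (k - 1) * (m * (K * d) ^ t)) ≤
        d ^ (k - 1) * (ε * d * (M3 ^ (t - 1) * B)) := by
      calc d ^ (k - 1) * (Δ * Ns ^ (k - 1) * (m * (K * d) ^ t))
          = (Ns ^ (k - 1) * d ^ (k - 1)) * (m * K ^ (t + 1) * d ^ (t + 1)) := by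
            rw [hΔ, mul_pow]; ring
        _ = (L / ε) ^ (k - 1) * K ^ (t + 1) * m * d ^ (t + 1) * m ^ (k - 1) := by rw [h1]; ring
        _ ≤ (L / ε) ^ (k - 1) * K ^ (t + 1) * m * d ^ (t + 1) * d ^ (2 * k - 1 - t) :=
            mul_le_mul_of_nonneg_left hmd (by positivity)
        _ = ε * V * m * (d ^ (t + 1) * d ^ (2 * k - 1 - t)) := by rw [hV]; field_simp
        _ = ε * V * m * (d ^ (k - 1) * d ^ (k + 1)) := by
            rw [← pow_add, ← pow_add]
            congr 2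
            omega
        _ ≤ ε * M3 ^ (t - 1) * m * (d ^ (k - 1) * d ^ (k + 1)) := by
            have : V ≤ M3 ^ (t - 1) := hM3b.trans hM3pow
            gcongr
        _ = ε * M3 ^ (t - 1) * m * (d ^ (k - 1) * d ^ (k + 1)) * 1 := (mul_one _).symm
        _ ≤ ε * M3 ^ (t - 1) * m * (d ^ (k - 1) * d ^ (k + 1)) * K ^ k := by
            apply mul_le_mul_of_nonneg_left (one_le_pow₀ hK)
            positivity
        _ = _ := by rw [hBdef, mul_pow]; ring
    have h3 := le_of_mul_le_mul_left h2 (by positivity)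
    calc Δ * Ns ^ (k - 1) * (∑ y : β, ((NA E y).card : ℝ) ^ t)
        ≤ Δ * Ns ^ (k - 1) * (m * (K * d) ^ t) := mul_le_mul_of_nonneg_left hsumA (by positivity)
      _ ≤ ε * d * (M3 ^ (t - 1) * B) := h3
      _ ≤ _ := mul_le_mul_of_nonneg_left hQ (by positivity)
  have hW : d * Q ≤ ∑ ω ∈ Om E k t, ((NA E (ω.1 i0)).card : ℝ) := by
    calc d * Q = ∑ ω ∈ Om E k t, d := by rw [sum_const, nsmul_eq_mul, hQdef, QQ]; ring
      _ ≤ _ := sum_le_sum fun ω _ => hdeg _
  have htot : ∑ ω ∈ Om E k t, Bd E L M2 Ns i0 ω ≤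
      (1 / (8 * k * t)) * ∑ ω ∈ Om E k t, ((NA E (ω.1 i0)).card : ℝ) := by
    calc ∑ ω ∈ Om E k t, Bd E L M2 Ns i0 ω ≤ _ := hbd
      _ ≤ ε * d * Q + ε * d * Q + ε * d * Q + ε * d * Q := by
          gcongr
      _ = (1 / (8 * k * t)) * (d * Q) := by rw [hε]; field_simp; ring
      _ ≤ _ := mul_le_mul_of_nonneg_left hW (by positivity)
  obtain ⟨z, hz1, hz2⟩ := pick_z E i0 (1 / (8 * k * t)) M2 Ns hQ0 htot
  refine finish E (by omega) (by omega) hp i0 d M2 Ns ?_ hd hdeg z hz1 hz2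
  rw [hM2, le_div_iff₀ hε0, hε]
  rw [mul_one_div, div_le_iff₀ (by positivity)]
  nlinarith [mul_pos hk0 ht0, mul_pos (mul_pos hk0 ht0) ht0, mul_pos (mul_pos (mul_pos hk0 ht0) ht0) ht0]

end Pool.Agent.Helper55.RE
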