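import Pool.Agent.Helper55.RE.StepTwo

set_option autoImplicit false
set_option linter.unusedSectionVars false

namespace Pool.Agent.Helper55.RE

open Finset Function

open scoped Classical

variable {α β : Type*} [Fintype α] [Fintype β] (E : α → β → Prop)

/-- complete pairs -/
noncomputable def Om (k t : ℕ) : Finset ((Fin k → β) × (Fin t → α)) :=
  univ.filter (fun ω => ∀ i l, E (ω.2 l) (ω.1 i))

lemma sum_Om_Z {k t : ℕ} (f : (Fin k → β) → (Fin t → α) → ℝ) :
    ∑ ω ∈ Om E k t, f ω.1 ω.2 =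
      ∑ Z : Fin k → β, ∑ R ∈ Fintype.piFinset (fun _ : Fin t => NZ E Z), f Z R := by
  rw [Om, sum_filter, Fintype.sum_prod_type]
  refine sum_congr rfl fun Z _ => ?_
  rw [← sum_filter]
  refine sum_congr ?_ fun _ _ => rfl
  ext R
  simp only [mem_filter, mem_univ, true_and, Fintype.mem_piFinset, mem_NZ]
  exact ⟨fun h l i => h i l, fun h i l => h l i⟩

lemma sum_Om_R {k t : ℕ} (f : (Fin k → β) → (Fin t → α) → ℝ) :
    ∑ ω ∈ Om E k t, f ω.1 ω.2 =
      ∑ R : Fin t → α, ∑ Z ∈ Fintype.piFinset (fun _ : Fin k => NR E R), f Z R := by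
  rw [Om, sum_filter, Fintype.sum_prod_type_right]
  refine sum_congr rfl fun R _ => ?_
  rw [← sum_filter]
  refine sum_congr ?_ fun _ _ => rfl
  ext Z
  simp only [mem_filter, mem_univ, true_and, Fintype.mem_piFinset, mem_NR]

lemma card_piZ {k t : ℕ} (Z : Fin k → β) :
    ((Fintype.piFinset (fun _ : Fin t => NZ E Z)).card : ℝ) = ((NZ E Z).card : ℝ) ^ t := by
  rw [Fintype.card_piFinset]; simp

lemma card_piR {k t : ℕ} (R : Fin t → α) :
    ((Fintype.piFinset (fun _ : Fin k => NR E R)).card : ℝ) = ((NR E R).card : ℝ) ^ k := by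
  rw [Fintype.card_piFinset]; simp

/-- number of complete pairs -/
noncomputable def QQ (k t : ℕ) : ℝ := ((Om E k t).card : ℝ)

lemma QQ_Z (k t : ℕ) : QQ E k t = ∑ Z : Fin k → β, ((NZ E Z).card : ℝ) ^ t := by
  have h := sum_Om_Z E (k := k) (t := t) (fun _ _ => 1)
  simp only [sum_const, nsmul_eq_mul, mul_one, card_piZ] at h
  exact h

lemma QQ_R (k t : ℕ) : QQ E k t = ∑ R : Fin t → α, ((NR E R).card : ℝ) ^ k := by
  have h := sum_Om_R E (k := k) (t := t) (fun _ _ => 1)
  simp only [sum_const, nsmul_eq_mul, mul_one, card_piR] at h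
  exact h

lemma sum_NZ (k : ℕ) : ∑ Z : Fin k → β, ((NZ E Z).card : ℝ) = ∑ x : α, ((NB E x).card : ℝ) ^ k := by
  have h1 : ∀ Z : Fin k → β, ((NZ E Z).card : ℝ) = ∑ x : α, if (∀ i, E x (Z i)) then (1:ℝ) else 0 := by
    intro Z
    rw [NZ, card_filter]; push_cast; rfl
  have h2 : ∀ x : α, ((NB E x).card : ℝ) ^ k =
      ∑ Z : Fin k → β, if (∀ i, E x (Z i)) then (1:ℝ) else 0 := by
    intro x
    have : ((NB E x).card) ^ k = ((univ : Finset (Fin k → β)).filter (fun Z => ∀ i, E x (Z i))).card := by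
      have h3 : (univ : Finset (Fin k → β)).filter (fun Z => ∀ i, E x (Z i)) =
          Fintype.piFinset (fun _ : Fin k => NB E x) := by
        ext Z; simp [Fintype.mem_piFinset]
      rw [h3, Fintype.card_piFinset]; simp
    rw [card_filter] at this
    have h4 : (((NB E x).card ^ k : ℕ) : ℝ) = _ := congrArg _ this
    push_cast at h4
    exact h4
  simp only [h1, h2]
  rw [sum_comm]

lemma sum_NR (t : ℕ) : ∑ R : Fin t → α, ((NR E R).card : ℝ) = ∑ y : β, ((NA E y).card : ℝ) ^ t := by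
  have h1 : ∀ R : Fin t → α, ((NR E R).card : ℝ) = ∑ y : β, if (∀ l, E (R l) y) then (1:ℝ) else 0 := by
    intro R
    rw [NR, card_filter]; push_cast; rfl
  have h2 : ∀ y : β, ((NA E y).card : ℝ) ^ t =
      ∑ R : Fin t → α, if (∀ l, E (R l) y) then (1:ℝ) else 0 := by
    intro y
    have : ((NA E y).card) ^ t = ((univ : Finset (Fin t → α)).filter (fun R => ∀ l, E (R l) y)).card := by
      have h3 : (univ : Finset (Fin t → α)).filter (fun R => ∀ l, E (R l) y) =
          Fintype.piFinset (fun _ : Fin t => NA E y) := by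
        ext Z; simp [Fintype.mem_piFinset]
      rw [h3, Fintype.card_piFinset]; simp
    rw [card_filter] at this
    have h4 : (((NA E y).card ^ t : ℕ) : ℝ) = _ := congrArg _ this
    push_cast at h4
    exact h4
  simp only [h1, h2]
  rw [sum_comm]

lemma sum_NZ_sq (k : ℕ) : ∑ Z : Fin k → β, ((NZ E Z).card : ℝ) ^ 2 =
    ∑ x : α, ∑ x' : α, (cod E x x' : ℝ) ^ k := by
  have h1 : ∀ Z : Fin k → β, ((NZ E Z).card : ℝ) ^ 2 =
      ∑ x : α, ∑ x' : α, if (∀ i, Z i ∈ NB E x ∩ NB E x') then (1:ℝ) else 0 := by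
    intro Z
    have h0 : ((NZ E Z).card : ℝ) = ∑ x : α, if (∀ i, E x (Z i)) then (1:ℝ) else 0 := by
      rw [NZ, card_filter]; push_cast; rfl
    rw [h0, sq, sum_mul_sum]
    refine sum_congr rfl fun x _ => sum_congr rfl fun x' _ => ?_
    by_cases ha : ∀ i, E x (Z i)
    · by_cases hb : ∀ i, E x' (Z i)
      · rw [if_pos ha, if_pos hb, if_pos]
        · norm_num
        · intro i; rw [mem_inter, mem_NB, mem_NB]; exact ⟨ha i, hb i⟩
      · rw [if_pos ha, if_neg hb, if_neg]
        · norm_num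
        · intro h; apply hb; intro i
          have := h i; rw [mem_inter, mem_NB, mem_NB] at this; exact this.2
    · have hc : ¬ (∀ i, Z i ∈ NB E x ∩ NB E x') := by
        intro h; apply ha; intro i
        have := h i; rw [mem_inter, mem_NB, mem_NB] at this; exact this.1
      rw [if_neg ha, if_neg hc, zero_mul]
  have h2 : ∀ x x' : α, (cod E x x' : ℝ) ^ k =
      ∑ Z : Fin k → β, if (∀ i, Z i ∈ NB E x ∩ NB E x') then (1:ℝ) else 0 := by
    intro x x'
    have : (cod E x x') ^ k =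
        ((univ : Finset (Fin k → β)).filter (fun Z => ∀ i, Z i ∈ NB E x ∩ NB E x')).card := by
      have h3 : (univ : Finset (Fin k → β)).filter (fun Z => ∀ i, Z i ∈ NB E x ∩ NB E x') =
          Fintype.piFinset (fun _ : Fin k => NB E x ∩ NB E x') := by
        ext Z; simp [Fintype.mem_piFinset]
      rw [h3, Fintype.card_piFinset]; simp [cod]
    rw [card_filter] at this
    have h4 : (((cod E x x') ^ k : ℕ) : ℝ) = _ := congrArg _ this
    push_cast at h4
    exact h4
  simp only [h1, h2]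
  rw [sum_comm]
  refine sum_congr rfl fun x _ => ?_
  rw [sum_comm]

/-- Lower bound for the number of complete pairs. -/
lemma QQ_lower {k t : ℕ} (ht : 2 ≤ t) (M3 B : ℝ) (hM3 : 0 ≤ M3)
    (hS : 2 * M3 * B ≤ ∑ x : α, ∑ x' : α, (cod E x x' : ℝ) ^ k)
    (hB : ∑ x : α, ((NB E x).card : ℝ) ^ k ≤ B) :
    M3 ^ (t - 1) * B ≤ QQ E k t := by
  rw [QQ_Z]
  rw [← sum_NZ_sq] at hS
  rw [← sum_NZ] at hB
  obtain ⟨s, rfl⟩ : ∃ s, t = s + 2 := ⟨t - 2, by omega⟩
  have hpt : ∀ Z : Fin k → β, M3 ^ s * (((NZ E Z).card : ℝ) ^ 2 - M3 * ((NZ E Z).card : ℝ)) ≤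
      ((NZ E Z).card : ℝ) ^ (s + 2) := by
    intro Z
    set a := ((NZ E Z).card : ℝ) with ha
    have ha0 : 0 ≤ a := Nat.cast_nonneg _
    rcases le_total M3 a with h | h
    · have h1 : M3 ^ s ≤ a ^ s := pow_le_pow_left₀ hM3 h s
      calc M3 ^ s * (a ^ 2 - M3 * a) ≤ M3 ^ s * a ^ 2 := by
            apply mul_le_mul_of_nonneg_left _ (by positivity)
            nlinarith
        _ ≤ a ^ s * a ^ 2 := mul_le_mul_of_nonneg_right h1 (by positivity)
        _ = a ^ (s + 2) := by rw [pow_add]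
    · have h1 : a ^ 2 - M3 * a ≤ 0 := by nlinarith
      have h2 : M3 ^ s * (a ^ 2 - M3 * a) ≤ 0 :=
        mul_nonpos_of_nonneg_of_nonpos (by positivity) h1
      have h3 : 0 ≤ a ^ (s + 2) := by positivity
      linarith
  have hsum := sum_le_sum (fun Z (_ : Z ∈ (univ : Finset (Fin k → β))) => hpt Z)
  rw [← mul_sum, sum_sub_distrib, ← mul_sum] at hsum
  refine le_trans ?_ hsum
  have : s + 2 - 1 = s + 1 := rfl
  rw [this, pow_succ, mul_assoc]
  apply mul_le_mul_of_nonneg_left _ (by positivity)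
  nlinarith

end Pool.Agent.Helper55.RE
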