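import Pool.Agent.Helper55.RE.StepThreeA

set_option autoImplicit false
set_option linter.unusedSectionVars false

namespace Pool.Agent.Helper55.RE

open Finset Function

open scoped Classical

variable {α β : Type*} [Fintype α] [Fintype β] (E : α → β → Prop)

/-- the pairs `(ω, x')` which are not usable -/
def BadP {k t : ℕ} (L : ℕ) (M2 Ns : ℝ) (ω : (Fin k → β) × (Fin t → α)) (x' : α) : Prop :=
  ¬ Injective ω.2 ∨ ((NZ E ω.1).card : ℝ) < M2 ∨ ((NR E ω.2).card : ℝ) < Ns ∨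
    (NB E x' ∩ NR E ω.2).card < L

/-- number of bad `x'` for `ω` -/
noncomputable def Bd {k t : ℕ} (L : ℕ) (M2 Ns : ℝ) (i0 : Fin k)
    (ω : (Fin k → β) × (Fin t → α)) : ℝ :=
  (((NA E (ω.1 i0)).filter (fun x' => BadP E L M2 Ns ω x')).card : ℝ)

lemma sum_b1 {k t : ℕ} (ht : 1 ≤ t) (Δ M2 : ℝ) (hΔ : 0 ≤ Δ) (hM2 : 0 < M2) (i0 : Fin k)
    (hA : ∀ y, ((NA E y).card : ℝ) ≤ Δ) :
    ∑ ω ∈ Om E k t, (if (¬ Injective ω.2 ∧ M2 ≤ ((NZ E ω.1).card : ℝ)) then
      ((NA E (ω.1 i0)).card : ℝ) else 0) ≤ Δ * (t ^ 2 / M2) * QQ E k t := by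
  rw [sum_Om_Z E (fun Z R => if (¬ Injective R ∧ M2 ≤ ((NZ E Z).card : ℝ)) then
      ((NA E (Z i0)).card : ℝ) else 0), QQ_Z, mul_sum]
  refine sum_le_sum fun Z _ => ?_
  by_cases h : M2 ≤ ((NZ E Z).card : ℝ)
  · have h1 : ∑ R ∈ Fintype.piFinset (fun _ : Fin t => NZ E Z),
        (if (¬ Injective R ∧ M2 ≤ ((NZ E Z).card : ℝ)) then ((NA E (Z i0)).card : ℝ) else 0) ≤
        (((Fintype.piFinset (fun _ : Fin t => NZ E Z)).filter
          (fun R => ¬ Injective R)).card : ℝ) * Δ := by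
      rw [← nsmul_eq_mul, ← sum_const, sum_filter]
      refine sum_le_sum fun R _ => ?_
      by_cases hR : Injective R
      · simp [hR]
      · rw [if_pos ⟨hR, h⟩, if_pos hR]; exact hA _
    have h2 : (((Fintype.piFinset (fun _ : Fin t => NZ E Z)).filter
          (fun R => ¬ Injective R)).card : ℝ) ≤ t ^ 2 * ((NZ E Z).card : ℝ) ^ (t - 1) := by
      exact_mod_cast card_noninj (NZ E Z)
    refine h1.trans ((mul_le_mul_of_nonneg_right h2 hΔ).trans ?_)
    set a := ((NZ E Z).card : ℝ) with ha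
    have h3 : a ^ t = a ^ (t - 1) * a := by rw [← pow_succ, Nat.sub_add_cancel ht]
    rw [h3]
    have h4 : Δ * (t ^ 2 / M2) * (a ^ (t - 1) * a) = (t ^ 2 * a ^ (t - 1) * Δ) * (a / M2) := by
      field_simp
    rw [h4]
    have h5 : 1 ≤ a / M2 := by rw [le_div_iff₀ hM2]; linarith
    have h6 : 0 ≤ t ^ 2 * a ^ (t - 1) * Δ := by positivity
    nlinarith
  · have h1 : ∑ R ∈ Fintype.piFinset (fun _ : Fin t => NZ E Z),
        (if (¬ Injective R ∧ M2 ≤ ((NZ E Z).card : ℝ)) then ((NA E (Z i0)).card : ℝ) else 0) = 0 := by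
      refine sum_eq_zero fun R _ => ?_
      rw [if_neg]; exact fun hh => h hh.2
    rw [h1]; positivity

lemma sum_b3 {k t : ℕ} (ht : 1 ≤ t) (Δ M2 : ℝ) (hΔ : 0 ≤ Δ) (hM2 : 0 ≤ M2) (i0 : Fin k)
    (hA : ∀ y, ((NA E y).card : ℝ) ≤ Δ) :
    ∑ ω ∈ Om E k t, (if (((NZ E ω.1).card : ℝ) < M2) then
      ((NA E (ω.1 i0)).card : ℝ) else 0) ≤
      Δ * M2 ^ (t - 1) * ∑ x : α, ((NB E x).card : ℝ) ^ k := by
  rw [sum_Om_Z E (fun Z R => if (((NZ E Z).card : ℝ) < M2) then
      ((NA E (Z i0)).card : ℝ) else 0), ← sum_NZ, mul_sum]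
  refine sum_le_sum fun Z _ => ?_
  rw [sum_const, nsmul_eq_mul, card_piZ]
  set a := ((NZ E Z).card : ℝ) with ha
  have ha0 : 0 ≤ a := Nat.cast_nonneg _
  by_cases h : a < M2
  · rw [if_pos h]
    have h3 : a ^ t = a ^ (t - 1) * a := by rw [← pow_succ, Nat.sub_add_cancel ht]
    have h4 : a ^ (t - 1) ≤ M2 ^ (t - 1) := pow_le_pow_left₀ ha0 h.le _
    calc a ^ t * ((NA E (Z i0)).card : ℝ) ≤ a ^ t * Δ :=
          mul_le_mul_of_nonneg_left (hA _) (by positivity)
      _ = (Δ * a) * a ^ (t - 1) := by rw [h3]; ring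
      _ ≤ (Δ * a) * M2 ^ (t - 1) := mul_le_mul_of_nonneg_left h4 (by positivity)
      _ = _ := by ring
  · rw [if_neg h, mul_zero]
    positivity

lemma sum_b2 {k t : ℕ} (hk : 1 ≤ k) (Δ Ns : ℝ) (hΔ : 0 ≤ Δ) (hNs : 0 ≤ Ns) (i0 : Fin k)
    (hA : ∀ y, ((NA E y).card : ℝ) ≤ Δ) :
    ∑ ω ∈ Om E k t, (if (((NR E ω.2).card : ℝ) < Ns) then
      ((NA E (ω.1 i0)).card : ℝ) else 0) ≤
      Δ * Ns ^ (k - 1) * ∑ y : β, ((NA E y).card : ℝ) ^ t := by
  rw [sum_Om_R E (fun Z R => if (((NR E R).card : ℝ) < Ns) then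
      ((NA E (Z i0)).card : ℝ) else 0), ← sum_NR, mul_sum]
  refine sum_le_sum fun R _ => ?_
  set a := ((NR E R).card : ℝ) with ha
  have ha0 : 0 ≤ a := Nat.cast_nonneg _
  by_cases h : a < Ns
  · simp only [if_pos h]
    have h3 : a ^ k = a ^ (k - 1) * a := by rw [← pow_succ, Nat.sub_add_cancel hk]
    have h4 : a ^ (k - 1) ≤ Ns ^ (k - 1) := pow_le_pow_left₀ ha0 h.le _
    calc ∑ Z ∈ Fintype.piFinset (fun _ : Fin k => NR E R), ((NA E (Z i0)).card : ℝ)
        ≤ ∑ Z ∈ Fintype.piFinset (fun _ : Fin k => NR E R), Δ := sum_le_sum fun Z _ => hA _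
      _ = a ^ k * Δ := by rw [sum_const, nsmul_eq_mul, card_piR]
      _ = (Δ * a) * a ^ (k - 1) := by rw [h3]; ring
      _ ≤ (Δ * a) * Ns ^ (k - 1) := mul_le_mul_of_nonneg_left h4 (by positivity)
      _ = _ := by ring
  · simp only [if_neg h, sum_const_zero]
    positivity

lemma sum_b4 {k t L : ℕ} (hk : 1 ≤ k) (ε d m Ns : ℝ) (hε : 0 ≤ ε) (hd : 0 ≤ d)
    (hm : (Fintype.card α : ℝ) ≤ m) (hNs : m * L ≤ ε * d * Ns) (i0 : Fin k) :
    ∑ ω ∈ Om E k t, (if (Ns ≤ ((NR E ω.2).card : ℝ)) then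
      (((NA E (ω.1 i0)).filter (fun x' => (NB E x' ∩ NR E ω.2).card < L)).card : ℝ) else 0) ≤
      ε * d * QQ E k t := by
  rw [sum_Om_R E (fun Z R => if (Ns ≤ ((NR E R).card : ℝ)) then
      (((NA E (Z i0)).filter (fun x' => (NB E x' ∩ NR E R).card < L)).card : ℝ) else 0),
      QQ_R, mul_sum]
  refine sum_le_sum fun R _ => ?_
  by_cases h : Ns ≤ ((NR E R).card : ℝ)
  · simp only [if_pos h]
    have h1 : ∑ Z ∈ Fintype.piFinset (fun _ : Fin k => NR E R),
        ((NA E (Z i0)).filter (fun x' => (NB E x' ∩ NR E R).card < L)).card ≤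
        Fintype.card α * (L * (NR E R).card ^ (k - 1)) := by
      calc ∑ Z ∈ Fintype.piFinset (fun _ : Fin k => NR E R),
          ((NA E (Z i0)).filter (fun x' => (NB E x' ∩ NR E R).card < L)).card
          = ∑ Z ∈ Fintype.piFinset (fun _ : Fin k => NR E R), ∑ x' : α,
            (if (E x' (Z i0) ∧ (NB E x' ∩ NR E R).card < L) then 1 else 0) := by
            refine sum_congr rfl fun Z _ => ?_
            rw [← card_filter]
            congr 1
            ext x'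
            simp only [mem_filter, mem_NA, mem_univ, true_and]
        _ = ∑ x' : α, ∑ Z ∈ Fintype.piFinset (fun _ : Fin k => NR E R),
            (if (E x' (Z i0) ∧ (NB E x' ∩ NR E R).card < L) then 1 else 0) := sum_comm
        _ ≤ ∑ _x' : α, L * (NR E R).card ^ (k - 1) := by
            refine sum_le_sum fun x' _ => ?_
            by_cases hl : (NB E x' ∩ NR E R).card < L
            · rw [← card_filter]
              have hs := single_count (k := k) (NR E R) (fun b => E x' b) L (by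
                refine le_trans (card_le_card ?_) hl.le
                intro b hb
                rw [mem_filter] at hb
                rw [mem_inter, mem_NB]
                exact ⟨hb.2, hb.1⟩) i0
              refine le_trans (card_le_card ?_) hs
              intro Z hZ
              rw [mem_filter] at hZ ⊢
              exact ⟨hZ.1, hZ.2.1⟩
            · simp [hl]
        _ = _ := by simp
    have h2 : (∑ Z ∈ Fintype.piFinset (fun _ : Fin k => NR E R),
        (((NA E (Z i0)).filter (fun x' => (NB E x' ∩ NR E R).card < L)).card : ℝ)) ≤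
        Fintype.card α * (L * ((NR E R).card : ℝ) ^ (k - 1)) := by exact_mod_cast h1
    refine h2.trans ?_
    set a := ((NR E R).card : ℝ) with ha
    have ha0 : 0 ≤ a := Nat.cast_nonneg _
    have h3 : a ^ k = a ^ (k - 1) * a := by rw [← pow_succ, Nat.sub_add_cancel hk]
    calc (Fintype.card α : ℝ) * (L * a ^ (k - 1)) ≤ m * (L * a ^ (k - 1)) :=
          mul_le_mul_of_nonneg_right hm (by positivity)
      _ = (m * L) * a ^ (k - 1) := by ring
      _ ≤ (ε * d * Ns) * a ^ (k - 1) := mul_le_mul_of_nonneg_right hNs (by positivity)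
      _ ≤ (ε * d * a) * a ^ (k - 1) := by gcongr
      _ = ε * d * a ^ k := by rw [h3]; ring
  · simp only [if_neg h, sum_const_zero]
    positivity

lemma sum_Bd {k t L : ℕ} (hk : 1 ≤ k) (ht : 1 ≤ t) (ε d m Ns M2 Δ : ℝ) (hε : 0 ≤ ε) (hd : 0 ≤ d)
    (hΔ : 0 ≤ Δ) (hM2 : 0 < M2) (hNs0 : 0 ≤ Ns)
    (hm : (Fintype.card α : ℝ) ≤ m) (hNs : m * L ≤ ε * d * Ns) (i0 : Fin k)
    (hA : ∀ y, ((NA E y).card : ℝ) ≤ Δ) :
    ∑ ω ∈ Om E k t, Bd E L M2 Ns i0 ω ≤
      Δ * (t ^ 2 / M2) * QQ E k t + Δ * M2 ^ (t - 1) * (∑ x : α, ((NB E x).card : ℝ) ^ k) +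
      Δ * Ns ^ (k - 1) * (∑ y : β, ((NA E y).card : ℝ) ^ t) + ε * d * QQ E k t := by
  refine le_trans ?_ (add_le_add (add_le_add (add_le_add (sum_b1 E ht Δ M2 hΔ hM2 i0 hA)
    (sum_b3 E ht Δ M2 hΔ hM2.le i0 hA)) (sum_b2 E hk Δ Ns hΔ hNs0 i0 hA))
    (sum_b4 E hk ε d m Ns hε hd hm hNs i0))
  rw [← sum_add_distrib, ← sum_add_distrib, ← sum_add_distrib]
  refine sum_le_sum fun ω _ => ?_
  have hBW : Bd E L M2 Ns i0 ω ≤ ((NA E (ω.1 i0)).card : ℝ) := by
    rw [Bd]; exact_mod_cast card_le_card (filter_subset _ _)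
  have n1 : (0:ℝ) ≤ (if (¬ Injective ω.2 ∧ M2 ≤ ((NZ E ω.1).card : ℝ)) then
      ((NA E (ω.1 i0)).card : ℝ) else 0) := by split_ifs <;> positivity
  have n2 : (0:ℝ) ≤ (if (((NZ E ω.1).card : ℝ) < M2) then
      ((NA E (ω.1 i0)).card : ℝ) else 0) := by split_ifs <;> positivity
  have n3 : (0:ℝ) ≤ (if (((NR E ω.2).card : ℝ) < Ns) then
      ((NA E (ω.1 i0)).card : ℝ) else 0) := by split_ifs <;> positivity
  have n4 : (0:ℝ) ≤ (if (Ns ≤ ((NR E ω.2).card : ℝ)) then
      (((NA E (ω.1 i0)).filter (fun x' => (NB E x' ∩ NR E ω.2).card < L)).card : ℝ) else 0) := by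
    split_ifs <;> positivity
  by_cases h3 : ((NZ E ω.1).card : ℝ) < M2
  · rw [if_pos h3] at n2 ⊢
    linarith
  · by_cases h1 : Injective ω.2
    · by_cases h2 : ((NR E ω.2).card : ℝ) < Ns
      · rw [if_pos h2] at n3 ⊢
        linarith
      · rw [if_pos (le_of_not_gt h2)] at n4 ⊢
        have : Bd E L M2 Ns i0 ω =
            (((NA E (ω.1 i0)).filter (fun x' => (NB E x' ∩ NR E ω.2).card < L)).card : ℝ) := by
          rw [Bd]
          congr 1
          refine cf _ _ _ fun x' _ => ?_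
          simp only [BadP]
          constructor
          · rintro (h | h | h | h)
            · exact absurd h1 h
            · exact absurd h h3
            · exact absurd h h2
            · exact h
          · intro h; right; right; right; exact h
        rw [this]
        linarith
    · rw [if_pos ⟨h1, le_of_not_gt h3⟩] at n1 ⊢
      linarith

end Pool.Agent.Helper55.RE
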