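import Pool.Agent.Helper55.RE.Lower

set_option autoImplicit false
set_option linter.unusedSectionVars false

namespace Pool.Agent.Helper55.RE

open Finset Function

open scoped Classical

lemma young {k : ℕ} (hk : 1 ≤ k) (u v M : ℝ) (hu : 0 ≤ u) (hv : 0 ≤ v) (hM : 0 < M) :
    M * (u * v ^ (k - 1)) ≤ v ^ k / 2 + (2 * M) ^ k * u ^ k := by
  obtain ⟨j, rfl⟩ : ∃ j, k = j + 1 := ⟨k - 1, by omega⟩
  simp only [Nat.add_sub_cancel]
  rcases le_total (2 * M * u) v with h | h
  · have h1 : M * (u * v ^ j) ≤ v ^ (j + 1) / 2 := by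
      have : (2 * M * u) * v ^ j ≤ v * v ^ j := mul_le_mul_of_nonneg_right h (by positivity)
      rw [pow_succ]; nlinarith
    have h2 : 0 ≤ (2 * M) ^ (j + 1) * u ^ (j + 1) := by positivity
    linarith
  · have h1 : v ^ j ≤ (2 * M * u) ^ j := pow_le_pow_left₀ hv h j
    have h2 : M * (u * v ^ j) ≤ M * (u * (2 * M * u) ^ j) := by gcongr
    have h3 : M * (u * (2 * M * u) ^ j) ≤ (2 * M) ^ (j + 1) * u ^ (j + 1) := by
      have : (2 * M) ^ (j + 1) * u ^ (j + 1) = 2 * (M * (u * (2 * M * u) ^ j)) := by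
        rw [← mul_pow, pow_succ]; ring
      rw [this]
      have h0 : 0 ≤ M * (u * (2 * M * u) ^ j) := by positivity
      linarith
    have h4 : 0 ≤ v ^ (j + 1) / 2 := by positivity
    linarith

lemma one_add_pow_le (k : ℕ) (g : ℝ) (hg : 0 ≤ g) : (1 + g) ^ k ≤ 2 ^ k * (1 + g ^ k) := by
  rcases le_total g 1 with h | h
  · calc (1 + g) ^ k ≤ 2 ^ k := pow_le_pow_left₀ (by linarith) (by linarith) k
      _ ≤ 2 ^ k * (1 + g ^ k) := by
          have : 0 ≤ g ^ k := by positivity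
          nlinarith [pow_pos (show (0:ℝ) < 2 by norm_num) k]
  · calc (1 + g) ^ k ≤ (2 * g) ^ k := pow_le_pow_left₀ (by linarith) (by linarith) k
      _ = 2 ^ k * g ^ k := mul_pow _ _ _
      _ ≤ 2 ^ k * (1 + g ^ k) := by
          nlinarith [pow_pos (show (0:ℝ) < 2 by norm_num) k]

variable {α β : Type*} [Fintype α] [Fintype β] (E : α → β → Prop)

/-- Step two: if there is no copy, then the codegrees have a large `k`-th moment. -/
theorem step_two (k t p : ℕ) (hk : 2 ≤ k) (ht : 2 ≤ t) (hp : 1 ≤ p) (K M3 : ℝ) (hK : 1 ≤ K)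
    (hM3 : 0 ≤ M3) :
    ∃ C : ℝ, 1 ≤ C ∧ ∀ (α β : Type) [Fintype α] [Fintype β] (E : α → β → Prop) (m d : ℝ),
      1 ≤ m → (8 * k * (t + 1) ^ 2 + 2 * (p + k * t) : ℝ) < d →
      (Fintype.card α : ℝ) ≤ m →
      (∀ y, d ≤ ((NA E y).card : ℝ)) → (∀ y, ((NA E y).card : ℝ) ≤ K * d) →
      (∀ x, ((NB E x).card : ℝ) ≤ K * d) →
      m * d ≤ ∑ y : β, ((NA E y).card : ℝ) →
      C * m ^ (k * t - 1) ≤ d ^ (k * (t + 1)) →
      ¬ HasH E k t p →
      2 * M3 * (m * (K * d) ^ k) ≤ ∑ x : α, ∑ x' : α, (cod E x x' : ℝ) ^ k := by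
  set L : ℕ := k * p with hL
  set M : ℝ := 6 * p * k ^ 2 * (2 + t ^ 2) * L with hM
  set c : ℝ := 1 / (8 * k) ^ (2 * k) with hc
  have hk0 : (0 : ℝ) < k := by positivity
  have hc0 : 0 < c := by positivity
  have hK0 : 0 < K := by linarith
  have hL1 : 1 ≤ L := Nat.mul_pos (by omega) hp
  have hL0 : (0 : ℝ) < L := by exact_mod_cast hL1
  have hp0 : (0 : ℝ) < p := by exact_mod_cast hp
  have hM0 : 0 < M := by positivity
  set W : ℝ := (4 * M) ^ k * K ^ (t * k) with hW
  set C0 : ℝ := (2 * (2 * M3 * K ^ k * W + 4 * p * (L * K ^ (t + 1)) ^ k + W)) / c with hC0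
  refine ⟨max 1 C0, le_max_left _ _, ?_⟩
  intro α β _ _ E m d hm hd hα hdeg hA hB hsum hC hH
  have hC1 : 1 ≤ max 1 C0 := le_max_left _ _
  set C := max 1 C0 with hCdef
  have hd0 : 0 < d := lt_of_le_of_lt (by positivity) hd
  have hm0 : 0 < m := by linarith
  -- light tuples
  set Λ : ℝ := m * d ^ (t + 1) / (8 * k) with hΛ
  have hΛle : Λ ≤ ∑ y : β, (((univ : Finset (α × (Fin t → α))).filter
      (fun q => Lt E L q.1 y q.2)).card : ℝ) := by
    rw [hΛ, div_le_iff₀ (by positivity)]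
    calc m * d ^ (t + 1) = (m * d) * d ^ t := by ring
      _ ≤ (∑ y : β, ((NA E y).card : ℝ)) * d ^ t :=
          mul_le_mul_of_nonneg_right hsum (by positivity)
      _ = ∑ y : β, ((NA E y).card : ℝ) * d ^ t := by rw [sum_mul]
      _ ≤ ∑ y : β, (8 * k) * (((univ : Finset (α × (Fin t → α))).filter
            (fun q => Lt E L q.1 y q.2)).card : ℝ) := by
          refine sum_le_sum fun y _ => ?_
          have h1 : ((NA E y).card : ℝ) * d ^ t ≤ ((NA E y).card : ℝ) ^ (t + 1) := by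
            rw [pow_succ']
            exact mul_le_mul_of_nonneg_left (pow_le_pow_left₀ hd0.le (hdeg y) t)
              (Nat.cast_nonneg _)
          have h2 : 8 * k * (t + 1) ^ 2 + 2 * (p + k * t) < (NA E y).card := by
            have := lt_of_lt_of_le hd (hdeg y)
            exact_mod_cast this
          have h3 := light_many E (by omega) (by omega) hp hH y h2
          have h4 : ((NA E y).card : ℝ) ^ (t + 1) ≤ 8 * k *
            (((univ : Finset (α × (Fin t → α))).filter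
              (fun q => Lt E (k * p) q.1 y q.2)).card : ℝ) := by exact_mod_cast h3
          exact h1.trans h4
      _ = _ := by rw [← mul_sum, mul_comm]
  have hΛ0 : 0 ≤ Λ := by positivity
  set P : ℝ := ∑ x : α, ∑ x' : α, ((PP E t L x x').card : ℝ) ^ k with hP
  have hlow := pall_lower (k := k) (t := t) E (by omega) L Λ hΛ0 hΛle m hα
  -- lower bound for P
  have htk : t * k - 1 + 1 = t * k := Nat.sub_add_cancel (by nlinarith)
  have hPlow : c * C * m * d ^ (k * (t + 1)) ≤ P := by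
    have e1 : Λ ^ (2 * k) = c * (m ^ (2 * k) * (d ^ (k * (t + 1)) * d ^ (k * (t + 1)))) := by
      rw [hΛ, hc, div_pow, mul_pow, ← pow_mul, ← pow_add]
      rw [show (t + 1) * (2 * k) = k * (t + 1) + k * (t + 1) by ring]
      ring
    have e2 : m ^ (2 * k) = m ^ (2 * (k - 1)) * (m * m) := by
      rw [← sq, ← pow_add]
      congr 1
      omega
    have e3 : m ^ (t * k) = m ^ (k * t - 1) * m := by
      rw [← pow_succ, mul_comm k t, htk]
    rw [e1, e2, ← hP, pow_add, e3] at hlow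
    have hpos : 0 < m ^ (2 * (k - 1)) * (m * m ^ (k * t - 1)) := by positivity
    have h5 : (m ^ (2 * (k - 1)) * (m * m ^ (k * t - 1))) * (c * C * m * d ^ (k * (t + 1))) ≤
        (m ^ (2 * (k - 1)) * (m * m ^ (k * t - 1))) * P := by
      calc (m ^ (2 * (k - 1)) * (m * m ^ (k * t - 1))) * (c * C * m * d ^ (k * (t + 1)))
          = (c * (m ^ (2 * (k - 1)) * (m * m)) * d ^ (k * (t + 1))) * (C * m ^ (k * t - 1)) := by
            ring
        _ ≤ (c * (m ^ (2 * (k - 1)) * (m * m)) * d ^ (k * (t + 1))) * d ^ (k * (t + 1)) :=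
            mul_le_mul_of_nonneg_left hC (by positivity)
        _ = c * ((m ^ (2 * (k - 1)) * (m * m)) * (d ^ (k * (t + 1)) * d ^ (k * (t + 1)))) := by
            ring
        _ ≤ _ := hlow
        _ = _ := by ring
    exact le_of_mul_le_mul_left h5 hpos
  -- upper bound
  set Δ : ℕ := ⌊K * d⌋₊ with hΔ
  have hΔle : (Δ : ℝ) ≤ K * d := Nat.floor_le (by positivity)
  have hA' : ∀ y, (NA E y).card ≤ Δ := fun y => Nat.le_floor (hA y)
  have hB' : ∀ x, (NB E x).card ≤ Δ := fun x => Nat.le_floor (hB x)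
  have hup := pall_bound E (k := k) (t := t) (p := p) (L := L) (by omega) hp hH Δ hA' hB' hL1
  have hup' : P ≤ 4 * p * (Fintype.card α * (L * (Δ : ℝ) ^ (t + 1)) ^ k) +
      M * ∑ x : α, ∑ x' : α, ((1 + (cod E x x' : ℝ)) * (Δ : ℝ) ^ t) *
        ((PP E t L x x').card : ℝ) ^ (k - 1) := by
    rw [hP, hM]
    exact_mod_cast hup
  set S : ℝ := ∑ x : α, ∑ x' : α, (cod E x x' : ℝ) ^ k with hS
  have hS0 : 0 ≤ S := sum_nonneg fun x _ => sum_nonneg fun x' _ => by positivity
  have hY : M * ∑ x : α, ∑ x' : α, ((1 + (cod E x x' : ℝ)) * (Δ : ℝ) ^ t) *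
        ((PP E t L x x').card : ℝ) ^ (k - 1) ≤ P / 2 +
        ((4 * M) ^ k * (Δ : ℝ) ^ (t * k)) * (m ^ 2 + S) := by
    calc M * ∑ x : α, ∑ x' : α, ((1 + (cod E x x' : ℝ)) * (Δ : ℝ) ^ t) *
          ((PP E t L x x').card : ℝ) ^ (k - 1)
        = ∑ x : α, ∑ x' : α, M * (((1 + (cod E x x' : ℝ)) * (Δ : ℝ) ^ t) *
          ((PP E t L x x').card : ℝ) ^ (k - 1)) := by
          rw [mul_sum]
          exact sum_congr rfl fun x _ => by rw [mul_sum]
      _ ≤ ∑ x : α, ∑ x' : α, (((PP E t L x x').card : ℝ) ^ k / 2 +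
            ((4 * M) ^ k * (Δ : ℝ) ^ (t * k)) * (1 + (cod E x x' : ℝ) ^ k)) := by
          refine sum_le_sum fun x _ => sum_le_sum fun x' _ => ?_
          refine (young (by omega) ((1 + (cod E x x' : ℝ)) * (Δ : ℝ) ^ t) _ M (by positivity)
            (by positivity) hM0).trans ?_
          refine add_le_add (le_refl _) ?_
          calc (2 * M) ^ k * ((1 + (cod E x x' : ℝ)) * (Δ : ℝ) ^ t) ^ k
              = ((2 * M) ^ k * (Δ : ℝ) ^ (t * k)) * (1 + (cod E x x' : ℝ)) ^ k := by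
                rw [mul_pow (1 + (cod E x x' : ℝ)), ← pow_mul (Δ : ℝ) t k]; ring
            _ ≤ ((2 * M) ^ k * (Δ : ℝ) ^ (t * k)) * (2 ^ k * (1 + (cod E x x' : ℝ) ^ k)) :=
                mul_le_mul_of_nonneg_left (one_add_pow_le k _ (Nat.cast_nonneg _))
                  (by positivity)
            _ = _ := by
                rw [show (4 : ℝ) * M = 2 * (2 * M) by ring, mul_pow 2 (2 * M)]; ring
      _ = P / 2 + ((4 * M) ^ k * (Δ : ℝ) ^ (t * k)) * ((Fintype.card α : ℝ) ^ 2 + S) := by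
          simp only [sum_add_distrib, ← mul_sum, ← sum_div]
          simp only [sum_const, card_univ, nsmul_eq_mul, mul_one]
          rw [hP, hS, sq]
      _ ≤ P / 2 + ((4 * M) ^ k * (Δ : ℝ) ^ (t * k)) * (m ^ 2 + S) := by
          have : (Fintype.card α : ℝ) ^ 2 ≤ m ^ 2 := pow_le_pow_left₀ (Nat.cast_nonneg _) hα 2
          gcongr
  -- combine
  have hDk : (Δ : ℝ) ^ (t * k) ≤ K ^ (t * k) * d ^ (t * k) := by
    rw [← mul_pow]; exact pow_le_pow_left₀ (Nat.cast_nonneg _) hΔle _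
  have hfirst : 4 * p * (Fintype.card α * (L * (Δ : ℝ) ^ (t + 1)) ^ k) ≤
      4 * p * (L * K ^ (t + 1)) ^ k * (m * d ^ (k * (t + 1))) := by
    have h6 : (L * (Δ : ℝ) ^ (t + 1)) ^ k ≤ (L * K ^ (t + 1)) ^ k * d ^ (k * (t + 1)) := by
      rw [show k * (t + 1) = (t + 1) * k by ring, pow_mul d, ← mul_pow]
      refine pow_le_pow_left₀ (by positivity) ?_ k
      rw [mul_assoc, ← mul_pow]
      exact mul_le_mul_of_nonneg_left (pow_le_pow_left₀ (Nat.cast_nonneg _) hΔle _) hL0.le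
    calc 4 * p * (Fintype.card α * (L * (Δ : ℝ) ^ (t + 1)) ^ k)
        ≤ 4 * p * (m * ((L * K ^ (t + 1)) ^ k * d ^ (k * (t + 1)))) := by gcongr
      _ = _ := by ring
  have hmd : m ≤ d ^ k := by
    have h7 : m ^ (t + 1) ≤ (d ^ k) ^ (t + 1) := by
      calc m ^ (t + 1) ≤ m ^ (k * t - 1) := by
            apply pow_le_pow_right₀ hm
            have : 2 * t ≤ k * t := Nat.mul_le_mul_right _ hk
            omega
        _ ≤ C * m ^ (k * t - 1) := by
            have : 0 ≤ m ^ (k * t - 1) := by positivity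
            nlinarith
        _ ≤ d ^ (k * (t + 1)) := hC
        _ = (d ^ k) ^ (t + 1) := by rw [pow_mul]
    exact le_of_pow_le_pow_left₀ (by omega) (by positivity) h7
  have hcomb : c * C * m * d ^ (k * (t + 1)) / 2 ≤
      4 * p * (L * K ^ (t + 1)) ^ k * (m * d ^ (k * (t + 1))) +
        W * d ^ (t * k) * (m ^ 2 + S) := by
    have h8 : ((4 * M) ^ k * (Δ : ℝ) ^ (t * k)) * (m ^ 2 + S) ≤ W * d ^ (t * k) * (m ^ 2 + S) := by
      rw [hW, mul_assoc ((4 * M) ^ k) (K ^ (t * k)) (d ^ (t * k))]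
      gcongr
    linarith [hPlow, hup', hY, hfirst, h8]
  have hCge : 2 * (2 * M3 * K ^ k * W + 4 * p * (L * K ^ (t + 1)) ^ k + W) ≤ c * C := by
    have : C0 ≤ C := le_max_right _ _
    rw [hC0, div_le_iff₀ hc0] at this
    linarith
  have hmul : 2 * (2 * M3 * K ^ k * W + 4 * p * (L * K ^ (t + 1)) ^ k + W) *
      (m * d ^ (k * (t + 1))) ≤ c * C * (m * d ^ (k * (t + 1))) :=
    mul_le_mul_of_nonneg_right hCge (by positivity)
  have hdsplit : d ^ (k * (t + 1)) = d ^ (t * k) * d ^ k := by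
    rw [← pow_add]; congr 1; ring
  have hWpos : 0 < W := by positivity
  have hm2 : W * d ^ (t * k) * m ^ 2 ≤ W * (m * d ^ (k * (t + 1))) := by
    rw [hdsplit]
    have : m ^ 2 ≤ m * d ^ k := by rw [sq]; exact mul_le_mul_of_nonneg_left hmd hm0.le
    calc W * d ^ (t * k) * m ^ 2 ≤ W * d ^ (t * k) * (m * d ^ k) := by gcongr
      _ = _ := by ring
  have hfin : (W * d ^ (t * k)) * (2 * M3 * (m * (K * d) ^ k)) ≤ (W * d ^ (t * k)) * S := by
    calc (W * d ^ (t * k)) * (2 * M3 * (m * (K * d) ^ k))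
        = (2 * M3 * K ^ k * W) * (m * d ^ (k * (t + 1))) := by rw [hdsplit, mul_pow]; ring
      _ ≤ (W * d ^ (t * k)) * S := by
          have h9 : 2 * (2 * M3 * K ^ k * W + 4 * p * (L * K ^ (t + 1)) ^ k + W) *
            (m * d ^ (k * (t + 1))) = 2 * ((2 * M3 * K ^ k * W) * (m * d ^ (k * (t + 1)))) +
              2 * (4 * p * (L * K ^ (t + 1)) ^ k * (m * d ^ (k * (t + 1)))) +
              2 * (W * (m * d ^ (k * (t + 1)))) := by ring
          have h10 : W * d ^ (t * k) * (m ^ 2 + S) = W * d ^ (t * k) * m ^ 2 +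
            (W * d ^ (t * k)) * S := by ring
          have h11 : c * C * m * d ^ (k * (t + 1)) / 2 =
            (c * C * (m * d ^ (k * (t + 1)))) / 2 := by ring
          rw [h9] at hmul
          rw [h10, h11] at hcomb
          linarith
  exact le_of_mul_le_mul_left hfin (by positivity)

end Pool.Agent.Helper55.RE
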